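import Pool.Agent.Helper36.CV.StmtsO

set_option autoImplicit false

namespace Pool.Agent.Helper36.CV

open Matrix

theorem o11_cont (l : ℝ) : ∀ n : ℕ, Continuous (X l n) ∧ Continuous (X l (n + 1)) ∧
    Continuous (X l (n + 2)) := by
  intro n
  induction n with
  | zero =>
    refine ⟨?_, ?_, ?_⟩
    · show Continuous (fun _ : ℝ => (1 : ℝ))
      exact continuous_const
    · show Continuous (fun E : ℝ => E / 2)
      fun_prop
    · show Continuous (fun E : ℝ => (E - l) / 2)
      fun_prop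
  | succ n ih =>
    refine ⟨ih.2.1, ih.2.2, ?_⟩
    show Continuous (fun E : ℝ => 2 * X l (n + 2) E * X l (n + 1) E - X l n E)
    have h0 := ih.1
    have h1 := ih.2.1
    have h2 := ih.2.2
    exact ((continuous_const.mul h2).mul h1).sub h0

theorem o11_closed (l : ℝ) : IsClosed (Cs l) := by
  have e : Cs l = ⋂ n : ℕ, ({E | |X l n E| ≤ 1} ∪ {E | |X l (n + 1) E| ≤ 1}) := by
    ext E
    simp [Cs]
  rw [e]
  refine isClosed_iInter fun n => IsClosed.union ?_ ?_
  · exact isClosed_le (continuous_abs.comp (o11_cont l n).1) continuous_const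
  · exact isClosed_le (continuous_abs.comp (o11_cont l n).2.1) continuous_const

theorem o11_bdd (l : ℝ) : Cs l ⊆ Set.Icc (-(2 + |l|)) (2 + |l|) := by
  intro E hE
  have h := hE 1
  have hl := abs_nonneg l
  have hl1 := le_abs_self l
  have hl2 := neg_abs_le l
  rcases h with h | h
  · have h' : |E / 2| ≤ 1 := h
    rw [abs_le] at h'
    constructor <;> linarith [h'.1, h'.2]
  · have h' : |(E - l) / 2| ≤ 1 := h
    rw [abs_le] at h'
    constructor <;> linarith [h'.1, h'.2]

theorem o11_nontriv : Nontrivial L2 := by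
  refine ⟨⟨lp.single 2 (0 : ℤ) (1 : ℂ), 0, ?_⟩⟩
  intro h
  have h1 := congrArg (fun u : L2 => u 0) h
  simp at h1

theorem O11 (O1 : ST_O1) (O9b : ST_O9b) (O10 : ST_O10) : ST_O11 := by
  intro l
  refine ⟨?_, ?_⟩
  · obtain ⟨T, hT, hH⟩ := O1 l
    have := o11_nontriv
    obtain ⟨z, hz⟩ := spectrum.nonempty T
    have hre : z = (z.re : ℂ) := IsSelfAdjoint.mem_spectrum_eq_re hT hz
    have h2 : z.re ∈ Sp T := by
      show ((z.re : ℝ) : ℂ) ∈ spectrum ℂ T
      rw [← hre]
      exact hz
    exact ⟨z.re, O9b l _ ((O10 l T hT hH _).1 h2)⟩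
  · exact isCompact_Icc.of_isClosed_subset (o11_closed l) (o11_bdd l)

end Pool.Agent.Helper36.CV
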