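import Pool.Agent.Helper36.CV.StmtsO

set_option autoImplicit false

namespace Pool.Agent.Helper36.CV

open Matrix

theorem o4_tr (A P : Matrix (Fin 2) (Fin 2) ℝ) (h : P.det = 1) :
    (P * (A * P)).trace = P.trace * (A * P).trace - A.trace := by
  rw [Matrix.det_fin_two] at h
  simp only [Matrix.trace_fin_two, Matrix.mul_apply, Fin.sum_univ_two]
  linear_combination (-(A 0 0 + A 1 1)) * h

theorem o4_det (l E : ℝ) : ∀ n : ℕ, (M l E n).det = 1 ∧ (M l E (n + 1)).det = 1 := by
  intro n
  induction n with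
  | zero =>
    constructor
    · simp [M, Matrix.det_fin_two]
    · simp [M, Matrix.det_fin_two]
  | succ n ih =>
    refine ⟨ih.2, ?_⟩
    show (M l E n * M l E (n + 1)).det = 1
    rw [Matrix.det_mul, ih.1, ih.2, one_mul]

theorem o4_main (l E : ℝ) : ∀ n : ℕ, (M l E (n + 1)).trace = 2 * X l (n + 1) E ∧
    (M l E (n + 2)).trace = 2 * X l (n + 2) E ∧ (M l E (n + 3)).trace = 2 * X l (n + 3) E := by
  intro n
  induction n with
  | zero =>
    refine ⟨?_, ?_, ?_⟩
    · simp [M, X, Matrix.trace_fin_two]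
      ring
    · show (M l E 0 * M l E 1).trace = 2 * ((E - l) / 2)
      simp [M, Matrix.trace_fin_two, Matrix.mul_apply, Fin.sum_univ_two]
      ring
    · show (M l E 1 * (M l E 0 * M l E 1)).trace = 2 * (2 * ((E - l) / 2) * (E / 2) - 1)
      simp [M, Matrix.trace_fin_two, Matrix.mul_apply, Fin.sum_univ_two]
      ring
  | succ n ih =>
    refine ⟨ih.2.1, ih.2.2, ?_⟩
    have h2 := ih.2.1
    have h3 := ih.2.2
    have h1 := ih.1
    have e3 : M l E (n + 3) = M l E (n + 1) * M l E (n + 2) := rfl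
    have e4 : M l E (n + 1 + 3) = M l E (n + 2) * M l E (n + 3) := rfl
    have key : (M l E (n + 2) * (M l E (n + 1) * M l E (n + 2))).trace
        = (M l E (n + 2)).trace * (M l E (n + 1) * M l E (n + 2)).trace - (M l E (n + 1)).trace :=
      o4_tr _ _ (o4_det l E (n + 1)).2
    rw [e4, e3, key, ← e3, h1, h2, h3]
    show _ = 2 * (2 * X l (n + 3) E * X l (n + 2) E - X l (n + 1) E)
    ring

theorem O4 : ST_O4 := by
  intro l E n hn
  obtain ⟨m, rfl⟩ : ∃ m, n = m + 1 := ⟨n - 1, by omega⟩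
  exact (o4_main l E m).1

end Pool.Agent.Helper36.CV
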