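import Pool.Agent.Helper36.CV.StmtsP

set_option autoImplicit false

namespace Pool.Agent.Helper8.CV.P2

open Complex Filter Topology MeasureTheory Set
open Pool.Agent.Helper36.CV

noncomputable section

/-! arithmetic of labels -/

lemma irr5 : Irrational (Real.sqrt 5) := by
  have h := Nat.Prime.irrational_sqrt (by norm_num : Nat.Prime 5)
  exact_mod_cast h

lemma sq5 : Real.sqrt 5 * Real.sqrt 5 = 5 := Real.mul_self_sqrt (by norm_num)

lemma zero_lab {n m : ℤ} (h : (n : ℝ) + m * gam = 0) : n = 0 ∧ m = 0 := by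
  have hm : m = 0 := by
    by_contra hm
    have hm' : (m : ℝ) ≠ 0 := by exact_mod_cast hm
    unfold gam at h
    have h5 : Real.sqrt 5 = (((m - 2 * n : ℤ) : ℚ) / ((m : ℤ) : ℚ) : ℚ) := by
      push_cast
      field_simp
      linarith
    exact irr5 ⟨_, h5.symm⟩
  subst hm
  simp at h
  exact ⟨by exact_mod_cast h, rfl⟩

lemma eq_lab {n m n' m' : ℤ} (h : (n : ℝ) + m * gam = n' + m' * gam) : n = n' ∧ m = m' := by
  have h1 : ((n - n' : ℤ) : ℝ) + ((m - m' : ℤ) : ℝ) * gam = 0 := by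
    push_cast
    linarith
  obtain ⟨h2, h3⟩ := zero_lab h1
  exact ⟨by linarith, by linarith⟩

/-- the arithmetic inequality -/
lemma ar {n m : ℤ} (h : ¬ (n = 0 ∧ m = 0)) :
    1 ≤ |(n : ℝ) + m * gam| * (|(n : ℝ) + m * gam| + |Real.sqrt 5 * m|) := by
  have hne : n ^ 2 - n * m - m ^ 2 ≠ 0 := by
    intro h0
    have hr : ((n : ℝ) + m * gam) * ((n : ℝ) + m * gam - Real.sqrt 5 * m) = 0 := by
      have h1 : ((n ^ 2 - n * m - m ^ 2 : ℤ) : ℝ) = 0 := by exact_mod_cast h0
      push_cast at h1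
      unfold gam
      nlinarith [sq5]
    rcases mul_eq_zero.mp hr with h1 | h1
    · exact h (zero_lab h1)
    · have h2 : ((n - m : ℤ) : ℝ) + ((-m : ℤ) : ℝ) * gam = 0 := by
        push_cast
        unfold gam at h1 ⊢
        linarith
      obtain ⟨h3, h4⟩ := zero_lab h2
      exact h ⟨by omega, by omega⟩
  have h1 : (1 : ℝ) ≤ |((n ^ 2 - n * m - m ^ 2 : ℤ) : ℝ)| := by
    have : 1 ≤ |n ^ 2 - n * m - m ^ 2| := Int.one_le_abs hne
    exact_mod_cast this
  have h2 : ((n ^ 2 - n * m - m ^ 2 : ℤ) : ℝ) =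
      ((n : ℝ) + m * gam) * ((n : ℝ) + m * gam - Real.sqrt 5 * m) := by
    push_cast
    unfold gam
    nlinarith [sq5]
  rw [h2, abs_mul] at h1
  have h3 : |(n : ℝ) + m * gam - Real.sqrt 5 * m| ≤ |(n : ℝ) + m * gam| + |Real.sqrt 5 * m| := abs_sub _ _
  exact le_trans h1 (mul_le_mul_of_nonneg_left h3 (abs_nonneg _))

section
variable {Hm Hp : ℝ} {C : Set ℝ} (cd : CD Hm Hp C)

lemma f_cont : Continuous (fun t : ℝ => cd.f (t : ℂ)) :=
  cd.cont.comp_continuous Complex.continuous_ofReal (by intro t; simp)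

lemma vf_cont : Continuous (vf cd) := Complex.continuous_im.comp (f_cont cd)

lemma Nf_cont : Continuous (Nf cd) := Complex.continuous_re.comp (f_cont cd)

lemma vf_nonneg (t : ℝ) : 0 ≤ vf cd t := cd.im_nonneg t

lemma Nf_mono : Monotone (Nf cd) := fun x y h => cd.re_mono x y h

lemma Nf_nonneg (x : ℝ) : 0 ≤ Nf cd x := by
  obtain ⟨R, h1, -⟩ := cd.re_ends
  have h := h1 (min x (-R)) (min_le_right _ _)
  have h2 := Nf_mono cd (min_le_left x (-R))
  unfold Nf at h2 ⊢
  linarith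

lemma Nf_le_one (x : ℝ) : Nf cd x ≤ 1 := by
  obtain ⟨R, -, h1⟩ := cd.re_ends
  have h := h1 (max x R) (le_max_right _ _)
  have h2 := Nf_mono cd (le_max_left x R)
  unfold Nf at h2 ⊢
  linarith

lemma mem_iff (x : ℝ) : x ∈ C ↔ vf cd x = 0 := (cd.zero x).symm

lemma v_pos {x : ℝ} (hx : x ∉ C) : 0 < vf cd x := by
  rcases (vf_nonneg cd x).lt_or_eq with h | h
  · exact h
  · exact absurd ((mem_iff cd x).mpr h.symm) hx

def Zg : Set ℝ := range (fun p : ℤ × ℤ => (p.1 : ℝ) + p.2 * gam)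

lemma Zg_count : Zg.Countable := countable_range _

lemma lab_mem {x : ℝ} (hx : x ∉ C) : Nf cd x ∈ Zg := by
  obtain ⟨m, n, h, -⟩ := cd.lab x (v_pos cd hx)
  exact ⟨(n, m), h.symm⟩

/-- N is constant on an interval without points of C -/
lemma const_of_out {s t : ℝ} (hst : s ≤ t) (h : ∀ u ∈ Icc s t, u ∉ C) : Nf cd s = Nf cd t := by
  by_contra hne
  have hlt : Nf cd s < Nf cd t := lt_of_le_of_ne (Nf_mono cd hst) hne
  have h1 : Icc (Nf cd s) (Nf cd t) ⊆ Nf cd '' Icc s t :=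
    intermediate_value_Icc hst (Nf_cont cd).continuousOn
  have h2 : Icc (Nf cd s) (Nf cd t) ⊆ Zg := by
    intro y hy
    obtain ⟨u, hu, rfl⟩ := h1 hy
    exact lab_mem cd (h u hu)
  have h3 : (Icc (Nf cd s) (Nf cd t)).Countable := Zg_count.mono h2
  have h4 : volume (Icc (Nf cd s) (Nf cd t)) = 0 := h3.measure_zero _
  rw [Real.volume_Icc, ENNReal.ofReal_eq_zero] at h4
  linarith

lemma local_const {x : ℝ} (hx : x ∉ C) : ∃ δ : ℝ, 0 < δ ∧ ∀ t ∈ Icc (x - δ) (x + δ), Nf cd t = Nf cd x := by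
  have hv := v_pos cd hx
  have hev : ∀ᶠ t in 𝓝 x, 0 < vf cd t := (vf_cont cd).continuousAt.eventually (lt_mem_nhds hv)
  obtain ⟨ε, hε, hb⟩ := Metric.eventually_nhds_iff.mp hev
  refine ⟨ε / 2, by linarith, ?_⟩
  have hC : ∀ u ∈ Icc (x - ε / 2) (x + ε / 2), u ∉ C := by
    intro u hu hc
    have h1 : dist u x < ε := by
      rw [Real.dist_eq, abs_lt]
      constructor <;> linarith [hu.1, hu.2]
    have h2 := hb h1
    rw [(mem_iff cd u).mp hc] at h2
    exact lt_irrefl _ h2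
  intro t ht
  rcases le_total t x with h | h
  · refine const_of_out cd h (fun u hu => hC u ⟨by linarith [ht.1, hu.1], by linarith [hu.2]⟩)
  · exact (const_of_out cd h (fun u hu => hC u ⟨by linarith [hu.1], by linarith [ht.2, hu.2]⟩)).symm

/-- last clause -/
lemma inner (hP3 : ST_P3) {a b : ℝ} (hab : a < b) (h : Nf cd a = Nf cd b) : ∀ x ∈ Ioo a b, x ∉ C := by
  have hN : ∀ t ∈ Icc a b, Nf cd t = Nf cd a := by
    intro t ht
    have h1 := Nf_mono cd ht.1
    have h2 := Nf_mono cd ht.2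
    linarith
  obtain ⟨h1, -, -⟩ := hP3 Hm Hp C cd a b (Nf cd a) hab hN
  intro x hx hc
  obtain ⟨-, h2, h3⟩ := h1 x hx
  have hs : 0 < Real.sqrt ((x - a) * (b - x)) :=
    Real.sqrt_pos.mpr (mul_pos (by linarith [hx.1]) (by linarith [hx.2]))
  have h4 : 0 < vf cd x := by
    rw [h3]
    positivity
  rw [(mem_iff cd x).mp hc] at h4
  exact lt_irrefl _ h4

lemma exists_gap (hP3 : ST_P3) {x : ℝ} (hx : x ∉ C) (h0 : 0 < Nf cd x) (h1 : Nf cd x < 1) :
    ∃ V : Gap cd, V.a < x ∧ x < V.b := by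
  set S : Set ℝ := {t | Nf cd t = Nf cd x} with hS
  have hcl : IsClosed S := isClosed_eq (Nf_cont cd) continuous_const
  have hne : S.Nonempty := ⟨x, rfl⟩
  obtain ⟨R, hR1, hR2⟩ := cd.re_ends
  have hlo : ∀ t ∈ S, -R ≤ t := by
    intro t ht
    by_contra hlt
    push Not at hlt
    have h2 := hR1 t hlt.le
    have h3 : Nf cd t = Nf cd x := ht
    unfold Nf at h3 h0
    linarith
  have hhi : ∀ t ∈ S, t ≤ R := by
    intro t ht
    by_contra hlt
    push Not at hlt
    have h2 := hR2 t hlt.le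
    have h3 : Nf cd t = Nf cd x := ht
    unfold Nf at h3 h1
    linarith
  have hbb : BddBelow S := ⟨-R, hlo⟩
  have hba : BddAbove S := ⟨R, hhi⟩
  have haS : sInf S ∈ S := hcl.csInf_mem hne hbb
  have hbS : sSup S ∈ S := hcl.csSup_mem hne hba
  have hext : ∀ y, y ∉ C → y ∈ S → sInf S < y ∧ y < sSup S := by
    intro y hy hyS
    obtain ⟨δ, hδ, hc⟩ := local_const cd hy
    have hy' : Nf cd y = Nf cd x := hyS
    constructor
    · have : y - δ ∈ S := by
        show Nf cd (y - δ) = Nf cd x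
        rw [hc (y - δ) ⟨le_rfl, by linarith⟩, hy']
      have := csInf_le hbb this
      linarith
    · have : y + δ ∈ S := by
        show Nf cd (y + δ) = Nf cd x
        rw [hc (y + δ) ⟨by linarith, le_rfl⟩, hy']
      have := le_csSup hba this
      linarith
  obtain ⟨hax, hxb⟩ := hext x hx rfl
  have haC : sInf S ∈ C := by
    by_contra h
    exact lt_irrefl _ (hext _ h haS).1
  have hbC : sSup S ∈ C := by
    by_contra h
    exact lt_irrefl _ (hext _ h hbS).2
  have hab : sInf S < sSup S := by linarith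
  obtain ⟨m, n, hl, -⟩ := cd.lab x (v_pos cd hx)
  have ha' : Nf cd (sInf S) = Nf cd x := haS
  have hb' : Nf cd (sSup S) = Nf cd x := hbS
  refine ⟨⟨sInf S, sSup S, n, m, hab, haC, hbC, inner cd hP3 hab (by rw [ha', hb']), ?_⟩, hax, hxb⟩
  intro t ht
  have h2 := Nf_mono cd ht.1
  have h3 := Nf_mono cd ht.2
  have h4 : Nf cd x = n + m * gam := hl
  linarith

lemma lab_pos (hP3 : ST_P3) {a b : ℝ} (hab : a < b) (ha : a ∈ C) (h : Nf cd a = Nf cd b) : 0 < Nf cd a := by
  rcases (Nf_nonneg cd a).lt_or_eq with h1 | h1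
  · exact h1
  · exfalso
    have h2 : Nf cd (a - 1) = Nf cd b := by
      have h3 := Nf_mono cd (by linarith : a - 1 ≤ a)
      have h4 := Nf_nonneg cd (a - 1)
      linarith
    exact inner cd hP3 (by linarith : a - 1 < b) h2 a ⟨by linarith, hab⟩ ha

lemma lab_lt_one (hP3 : ST_P3) {a b : ℝ} (hab : a < b) (hb : b ∈ C) (h : Nf cd a = Nf cd b) : Nf cd a < 1 := by
  rcases (Nf_le_one cd a).lt_or_eq with h1 | h1
  · exact h1
  · exfalso
    have h2 : Nf cd a = Nf cd (b + 1) := by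
      have h3 := Nf_mono cd (by linarith : b ≤ b + 1)
      have h4 := Nf_le_one cd (b + 1)
      linarith
    exact inner cd hP3 (by linarith : a < b + 1) h2 b ⟨hab, by linarith⟩ hb

lemma isG_gap (hP3 : ST_P3) {a b : ℝ} (h : IsG C a b) : ∃ V : Gap cd, V.a = a ∧ V.b = b := by
  obtain ⟨hab, ha, hb, hout⟩ := h
  set x : ℝ := (a + b) / 2 with hx
  have hxI : x ∈ Ioo a b := ⟨by rw [hx]; linarith, by rw [hx]; linarith⟩
  have hxC := hout x hxI
  have h0 : 0 < Nf cd x := by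
    rcases (Nf_nonneg cd x).lt_or_eq with h1 | h1
    · exact h1
    · exfalso
      have h2 : Nf cd (a - 1) = Nf cd x := by
        have h3 := Nf_mono cd (by linarith [hxI.1] : a - 1 ≤ x)
        have h4 := Nf_nonneg cd (a - 1)
        linarith
      exact inner cd hP3 (by linarith [hxI.1] : a - 1 < x) h2 a ⟨by linarith, hxI.1⟩ ha
  have h1 : Nf cd x < 1 := by
    rcases (Nf_le_one cd x).lt_or_eq with h1 | h1
    · exact h1
    · exfalso
      have h2 : Nf cd x = Nf cd (b + 1) := by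
        have h3 := Nf_mono cd (by linarith [hxI.2] : x ≤ b + 1)
        have h4 := Nf_le_one cd (b + 1)
        linarith
      exact inner cd hP3 (by linarith [hxI.2] : x < b + 1) h2 b ⟨hxI.2, by linarith⟩ hb
  obtain ⟨V, hV1, hV2⟩ := exists_gap cd hP3 hxC h0 h1
  refine ⟨V, ?_, ?_⟩
  · apply le_antisymm
    · by_contra hlt
      push Not at hlt
      exact hout V.a ⟨hlt, by linarith [hxI.2]⟩ V.ha
    · by_contra hlt
      push Not at hlt
      exact V.out a ⟨hlt, by linarith [hxI.1]⟩ ha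
  · apply le_antisymm
    · by_contra hlt
      push Not at hlt
      exact V.out b ⟨by linarith [hxI.2], hlt⟩ hb
    · by_contra hlt
      push Not at hlt
      exact hout V.b ⟨by linarith [hxI.1], hlt⟩ V.hb

end

section
variable {Hm Hp : ℝ} {C : Set ℝ} {cd : CD Hm Hp C}

lemma NA (V : Gap cd) : Nf cd V.a = V.N := V.lab V.a ⟨le_rfl, V.lt.le⟩
lemma NB (V : Gap cd) : Nf cd V.b = V.N := V.lab V.b ⟨V.lt.le, le_rfl⟩

lemma N_eq (V W : Gap cd) (h : V.N = W.N) : V.n = W.n ∧ V.m = W.m := eq_lab h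

lemma N_pos (hP3 : ST_P3) (V : Gap cd) : 0 < V.N := by
  rw [← NA V]
  exact lab_pos cd hP3 V.lt V.ha (by rw [NA, NB])

lemma N_lt (hP3 : ST_P3) (V : Gap cd) : V.N < 1 := by
  rw [← NA V]
  exact lab_lt_one cd hP3 V.lt V.hb (by rw [NA, NB])

lemma m_ne (hP3 : ST_P3) (V : Gap cd) : V.m ≠ 0 := by
  intro h
  have h1 := N_pos hP3 V
  have h2 := N_lt hP3 V
  unfold Gap.N at h1 h2
  rw [h] at h1 h2
  simp at h1 h2
  have h3 : (0 : ℤ) < V.n := by exact_mod_cast h1
  have h4 : V.n < (1 : ℤ) := by exact_mod_cast h2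
  omega

lemma order (hP3 : ST_P3) (V W : Gap cd) (h : V.a < W.a) : V.b < W.a ∧ V.N < W.N := by
  have h1 : V.b ≤ W.a := by
    by_contra hlt
    push Not at hlt
    exact V.out W.a ⟨h, hlt⟩ W.ha
  have hmono : V.N ≤ W.N := by
    rw [← NA V, ← NA W]
    exact Nf_mono cd h.le
  have hN : V.N ≠ W.N := by
    intro he
    have h2 : Nf cd V.a = Nf cd W.b := by rw [NA, NB, he]
    exact inner cd hP3 (by linarith [V.lt, W.lt] : V.a < W.b) h2 V.b ⟨V.lt, by linarith [W.lt]⟩ V.hb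
  refine ⟨lt_of_le_of_ne h1 ?_, lt_of_le_of_ne hmono hN⟩
  intro he
  apply hN
  rw [← NB V, he, NA W]

lemma gap_ext (V W : Gap cd) (h : V.a = W.a) : V = W := by
  have hb : V.b = W.b := by
    apply le_antisymm
    · by_contra hlt
      push Not at hlt
      exact V.out W.b ⟨by rw [h]; exact W.lt, hlt⟩ W.hb
    · by_contra hlt
      push Not at hlt
      exact W.out V.b ⟨by rw [← h]; exact V.lt, hlt⟩ V.hb
  have hN : V.N = W.N := by rw [← NA V, h, NA W]
  obtain ⟨h1, h2⟩ := N_eq V W hN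
  cases V
  cases W
  simp only at h hb h1 h2
  subst h hb h1 h2
  rfl

lemma eq_of_N (hP3 : ST_P3) (V W : Gap cd) (h : V.N = W.N) : V = W := by
  rcases lt_trichotomy V.a W.a with h1 | h1 | h1
  · exact absurd h (order hP3 V W h1).2.ne
  · exact gap_ext V W h1
  · exact absurd h (order hP3 W V h1).2.ne'

lemma level (hP3 : ST_P3) (V : Gap cd) (t : ℝ) (h : Nf cd t = V.N) : t ∈ Icc V.a V.b := by
  constructor
  · by_contra hlt
    push Not at hlt
    exact inner cd hP3 (by linarith [V.lt] : t < V.b) (by rw [h, NB]) V.a ⟨hlt, V.lt⟩ V.ha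
  · by_contra hlt
    push Not at hlt
    exact inner cd hP3 (by linarith [V.lt] : V.a < t) (by rw [h, NA]) V.b ⟨V.lt, hlt⟩ V.hb

lemma c_mem (V : Gap cd) : V.c ∈ Ioo V.a V.b := by
  have := V.lt
  unfold Gap.c
  exact ⟨by linarith, by linarith⟩

lemma height (V : Gap cd) : ∀ t ∈ Icc V.a V.b, |(V.m : ℝ)| * vf cd t ≤ Hp := by
  have key : ∀ t ∈ Ioo V.a V.b, |(V.m : ℝ)| * vf cd t ≤ Hp := by
    intro t ht
    obtain ⟨m, n, h1, h2⟩ := cd.lab t (v_pos cd (V.out t ht))
    have h3 : Nf cd t = V.n + V.m * gam := V.lab t ⟨ht.1.le, ht.2.le⟩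
    have h4 : (n : ℝ) + m * gam = V.n + V.m * gam := by
      rw [← h3, ← h1]
      rfl
    obtain ⟨-, h5⟩ := eq_lab h4
    rw [← h5]
    exact h2
  have hH : 0 ≤ Hp := by
    refine le_trans ?_ (key V.c (c_mem V))
    exact mul_nonneg (abs_nonneg _) (vf_nonneg cd _)
  intro t ht
  by_cases h1 : t = V.a
  · rw [h1, (mem_iff cd V.a).mp V.ha, mul_zero]
    exact hH
  · by_cases h2 : t = V.b
    · rw [h2, (mem_iff cd V.b).mp V.hb, mul_zero]
      exact hH
    · exact key t ⟨lt_of_le_of_ne ht.1 (Ne.symm h1), lt_of_le_of_ne ht.2 h2⟩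

lemma kk_facts (hP3 : ST_P3) (V : Gap cd) :
    V.kk = 2 * vf cd V.c / V.s ∧ 0 < V.kk ∧ 0 < vf cd V.c := by
  obtain ⟨h1, -, -⟩ := hP3 Hm Hp C cd V.a V.b V.N V.lt V.lab
  obtain ⟨-, h2, h3⟩ := h1 V.c (c_mem V)
  have hlt := V.lt
  have hs : Real.sqrt ((V.c - V.a) * (V.b - V.c)) = V.s / 2 := by
    have : (V.c - V.a) * (V.b - V.c) = (V.s / 2) ^ 2 := by
      unfold Gap.c Gap.s
      ring
    rw [this, Real.sqrt_sq]
    unfold Gap.s
    linarith
  have hs0 : 0 < V.s := by unfold Gap.s; linarith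
  rw [hs] at h3
  refine ⟨?_, h2, ?_⟩
  · unfold Gap.kk
    rw [h3]
    field_simp
  · rw [h3]
    positivity

end

theorem st_P2 (hP3 : ST_P3) : ST_P2 := by
  intro Hm Hp C cd hHm
  refine ⟨?_, ?_, ?_, ?_, ?_, ?_, ?_, ?_, ?_, ?_, ?_, ?_⟩
  · intro x
    exact ⟨vf_nonneg cd x, Nf_nonneg cd x, Nf_le_one cd x, mem_iff cd x⟩
  · intro x hx h0 h1
    exact exists_gap cd hP3 hx h0 h1
  · intro a b h
    exact isG_gap cd hP3 h
  · intro V
    exact ⟨m_ne hP3 V, N_pos hP3 V, N_lt hP3 V, height V, kk_facts hP3 V⟩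
  · intro V W h
    exact order hP3 V W h
  · intro V W h
    exact gap_ext V W h
  · intro V t h
    exact level hP3 V t h
  · intro V W h
    have h1 : ¬ (V.n - W.n = 0 ∧ V.m - W.m = 0) := by
      rintro ⟨h2, h3⟩
      apply h
      apply eq_of_N hP3
      unfold Gap.N
      have h4 : V.n = W.n := by linarith
      have h5 : V.m = W.m := by linarith
      rw [h4, h5]
    have h2 := ar h1
    have e1 : ((V.n - W.n : ℤ) : ℝ) + ((V.m - W.m : ℤ) : ℝ) * gam = V.N - W.N := by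
      unfold Gap.N
      push_cast
      ring
    have e2 : Real.sqrt 5 * ((V.m - W.m : ℤ) : ℝ) = V.mu - W.mu := by
      unfold Gap.mu
      push_cast
      ring
    rw [e1, e2] at h2
    exact h2
  · intro V
    have hp := N_pos hP3 V
    have hl := N_lt hP3 V
    have hm := m_ne hP3 V
    constructor
    · have h2 := ar (n := V.n) (m := V.m) (by rintro ⟨-, h⟩; exact hm h)
      have e1 : (V.n : ℝ) + (V.m : ℝ) * gam = V.N := rfl
      have e2 : Real.sqrt 5 * (V.m : ℝ) = V.mu := rfl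
      rw [e1, e2, abs_of_pos hp] at h2
      exact h2
    · have h2 := ar (n := 1 - V.n) (m := -V.m) (by rintro ⟨-, h⟩; exact hm (by linarith))
      have e1 : ((1 - V.n : ℤ) : ℝ) + ((-V.m : ℤ) : ℝ) * gam = 1 - V.N := by
        unfold Gap.N
        push_cast
        ring
      have e2 : Real.sqrt 5 * ((-V.m : ℤ) : ℝ) = -V.mu := by
        unfold Gap.mu
        push_cast
        ring
      rw [e1, e2, abs_neg, abs_of_pos (by linarith : (0 : ℝ) < 1 - V.N)] at h2
      exact h2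
  · intro n m hm h0 h1
    obtain ⟨x, hx1, hx2⟩ := cd.ex m n hm h0 h1
    have hv : 0 < vf cd x := by
      have h2 : 0 < |(m : ℝ)| * vf cd x := lt_of_lt_of_le hHm hx2
      by_contra h3
      push Not at h3
      have : |(m : ℝ)| * vf cd x ≤ 0 := mul_nonpos_of_nonneg_of_nonpos (abs_nonneg _) h3
      linarith
    have hxC : x ∉ C := by
      intro h
      rw [(mem_iff cd x).mp h] at hv
      exact lt_irrefl _ hv
    have hNx : Nf cd x = n + m * gam := hx1
    obtain ⟨V, hV1, hV2⟩ := exists_gap cd hP3 hxC (by rw [hNx]; exact h0) (by rw [hNx]; exact h1)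
    have h3 := V.lab x ⟨hV1.le, hV2.le⟩
    rw [hNx] at h3
    obtain ⟨h4, h5⟩ := eq_lab h3
    exact ⟨V, h4.symm, h5.symm, x, ⟨hV1, hV2⟩, hx2⟩
  · intro M
    have hinj : InjOn (fun V : Gap cd => (V.n, V.m)) {V : Gap cd | |V.mu| ≤ M} := by
      intro V _ W _ h
      have h1 : V.n = W.n ∧ V.m = W.m := by simpa using h
      apply eq_of_N hP3
      unfold Gap.N
      rw [h1.1, h1.2]
    refine Set.Finite.of_finite_image ?_ hinj
    set K : ℤ := ⌈|M|⌉ + 2 with hK
    refine Set.Finite.subset ((Set.finite_Icc (-K) K).prod (Set.finite_Icc (-K) K)) ?_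
    rintro ⟨n, m⟩ ⟨V, hV, hVe⟩
    have hV' : |V.mu| ≤ M := hV
    have h1 : V.n = n ∧ V.m = m := by simpa using hVe
    obtain ⟨hn, hm⟩ := h1
    have hp := N_pos hP3 V
    have hl := N_lt hP3 V
    have h5 : (1 : ℝ) ≤ Real.sqrt 5 := by
      rw [Real.one_le_sqrt]; norm_num
    have h5' : Real.sqrt 5 ≤ 3 := by
      rw [Real.sqrt_le_left (by norm_num)]; norm_num
    have hm1 : |(V.m : ℝ)| ≤ |M| := by
      have : |V.mu| = Real.sqrt 5 * |(V.m : ℝ)| := by
        unfold Gap.mu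
        rw [abs_mul, abs_of_pos (by linarith)]
      rw [this] at hV'
      have h6 := abs_nonneg (V.m : ℝ)
      have h7 := le_abs_self M
      nlinarith
    have hMc : |M| ≤ (⌈|M|⌉ : ℝ) := Int.le_ceil _
    have hg : |(V.m : ℝ) * gam| ≤ |(V.m : ℝ)| := by
      rw [abs_mul]
      have : |gam| ≤ 1 := by
        unfold gam
        rw [abs_le]
        constructor <;> linarith
      nlinarith [abs_nonneg (V.m : ℝ)]
    have hg1 := abs_le.mp hg
    have hm2 := abs_le.mp hm1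
    have hN : V.N = V.n + V.m * gam := rfl
    have hKr : (K : ℝ) = (⌈|M|⌉ : ℝ) + 2 := by rw [hK]; push_cast; ring
    refine ⟨?_, ?_⟩
    · show n ∈ Icc (-K) K
      rw [← hn]
      constructor
      · have : ((-K : ℤ) : ℝ) ≤ (V.n : ℝ) := by push_cast; rw [hKr]; linarith [hg1.1, hg1.2]
        exact_mod_cast this
      · have : (V.n : ℝ) ≤ (K : ℝ) := by rw [hKr]; linarith [hg1.1, hg1.2]
        exact_mod_cast this
    · show m ∈ Icc (-K) K
      rw [← hm]
      constructor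
      · have : ((-K : ℤ) : ℝ) ≤ (V.m : ℝ) := by push_cast; rw [hKr]; linarith [hm2.1, hm2.2]
        exact_mod_cast this
      · have : (V.m : ℝ) ≤ (K : ℝ) := by rw [hKr]; linarith [hm2.1, hm2.2]
        exact_mod_cast this
  · intro a b hab h x hx
    have h1 : Nf cd a = Nf cd b := (h b ⟨hab.le, le_rfl⟩).symm
    exact v_pos cd (inner cd hP3 hab h1 x hx)

end

end Pool.Agent.Helper8.CV.P2
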