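import Pool.Agent.Helper36.CV.StmtsP

set_option autoImplicit false

namespace Pool.Agent.Helper8.CV.P3

open Complex Filter Topology MeasureTheory Set
open Pool.Agent.Helper36.CV

noncomputable section

/-- the principal square root -/
def sq (z : ℂ) : ℂ := z ^ (1 / 2 : ℂ)

lemma sq_norm (z : ℂ) : ‖sq z‖ = Real.sqrt ‖z‖ := by
  unfold sq
  by_cases hz : z = 0
  · subst hz
    rw [Complex.zero_cpow (by norm_num)]
    simp
  · rw [Complex.norm_cpow_of_ne_zero hz]
    have h1 : ((1 / 2 : ℂ)).re = 1 / 2 := by norm_num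
    have h2 : ((1 / 2 : ℂ)).im = 0 := by norm_num
    rw [h1, h2, mul_zero, Real.exp_zero, div_one, Real.sqrt_eq_rpow]

lemma sq_pos {x : ℝ} (hx : 0 ≤ x) : sq (x : ℂ) = (Real.sqrt x : ℂ) := by
  unfold sq
  rw [Real.sqrt_eq_rpow, Complex.ofReal_cpow hx]
  norm_num

lemma sq_neg {x : ℝ} (hx : x < 0) : sq (x : ℂ) = I * (Real.sqrt (-x) : ℂ) := by
  unfold sq
  have hne : (x : ℂ) ≠ 0 := by exact_mod_cast hx.ne
  rw [Complex.ofReal_cpow_of_nonpos hx.le]
  have h1 : (-(x : ℂ)) ^ (1 / 2 : ℂ) = (Real.sqrt (-x) : ℂ) := by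
    have := sq_pos (x := -x) (by linarith)
    unfold sq at this
    rw [← this]
    push_cast
    rfl
  have h2 : Complex.exp ((Real.pi : ℂ) * I * (1 / 2)) = I := by
    have : (Real.pi : ℂ) * I * (1 / 2) = (Real.pi / 2 : ℂ) * I := by ring
    rw [this, Complex.exp_pi_div_two_mul_I]
  rw [h1, h2]
  ring

lemma sq_cont : ContinuousOn sq {z : ℂ | 0 ≤ z.im} := by
  intro z hz
  by_cases hs : z ∈ slitPlane
  · have : ContinuousAt sq z := by
      unfold sq
      exact continuousAt_id.cpow continuousAt_const hs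
    exact this.continuousWithinAt
  · by_cases h0 : z = 0
    · subst h0
      have h : sq 0 = 0 := by unfold sq; exact Complex.zero_cpow (by norm_num)
      have hA : ContinuousAt sq 0 := by
        rw [ContinuousAt, h, tendsto_zero_iff_norm_tendsto_zero]
        have h2 : Tendsto (fun z : ℂ => Real.sqrt ‖z‖) (𝓝 0) (𝓝 (Real.sqrt ‖(0 : ℂ)‖)) :=
          (Real.continuous_sqrt.comp continuous_norm).continuousAt
        rw [norm_zero, Real.sqrt_zero] at h2
        exact h2.congr (fun z => (sq_norm z).symm)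
      exact hA.continuousWithinAt
    · have hre : z.re < 0 ∧ z.im = 0 := by
        rw [Complex.mem_slitPlane_iff] at hs
        push Not at hs
        obtain ⟨h1, h2⟩ := hs
        refine ⟨lt_of_le_of_ne h1 ?_, h2⟩
        intro h3
        exact h0 (Complex.ext h3 h2)
      have hl := Complex.continuousWithinAt_log_of_re_neg_of_im_zero hre.1 hre.2
      have hE : ContinuousWithinAt (fun z : ℂ => Complex.exp (Complex.log z * (1 / 2))) {z : ℂ | 0 ≤ z.im} z := by
        exact (Complex.continuous_exp.continuousAt.comp_continuousWithinAt (hl.mul_const _))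
      have hev : sq =ᶠ[𝓝[{z : ℂ | 0 ≤ z.im}] z] (fun z : ℂ => Complex.exp (Complex.log z * (1 / 2))) := by
        have : ∀ᶠ w in 𝓝[{z : ℂ | 0 ≤ z.im}] z, w ≠ 0 := by
          exact (eventually_ne_nhds h0).filter_mono nhdsWithin_le_nhds
        filter_upwards [this] with w hw
        unfold sq
        rw [Complex.cpow_def_of_ne_zero hw]
      exact hE.congr_of_eventuallyEq hev (by unfold sq; rw [Complex.cpow_def_of_ne_zero h0])

lemma qc_eq (a b : ℝ) (z : ℂ) : qc a b z = sq (z - a) * sq (z - b) := rfl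

lemma qc_norm (a b : ℝ) (z : ℂ) : ‖qc a b z‖ = Real.sqrt ‖z - a‖ * Real.sqrt ‖z - b‖ := by
  rw [qc_eq, norm_mul, sq_norm, sq_norm]

lemma qc_cont (a b : ℝ) : ContinuousOn (qc a b) {z : ℂ | 0 ≤ z.im} := by
  have h : ∀ c : ℝ, ContinuousOn (fun z : ℂ => sq (z - c)) {z : ℂ | 0 ≤ z.im} := by
    intro c
    exact sq_cont.comp (continuous_id.sub continuous_const).continuousOn (by
      intro z hz
      simpa using hz)
  exact (h a).mul (h b)

lemma qc_ne (a b : ℝ) {z : ℂ} (ha : z ≠ a) (hb : z ≠ b) : qc a b z ≠ 0 := by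
  rw [← norm_ne_zero_iff, qc_norm]
  have h1 : 0 < Real.sqrt ‖z - a‖ := Real.sqrt_pos.mpr (norm_pos_iff.mpr (sub_ne_zero.mpr ha))
  have h2 : 0 < Real.sqrt ‖z - b‖ := Real.sqrt_pos.mpr (norm_pos_iff.mpr (sub_ne_zero.mpr hb))
  positivity

lemma ne_real {z : ℂ} (hz : 0 < z.im) (a : ℝ) : z ≠ (a : ℂ) := by
  intro h
  rw [h] at hz
  simp at hz

lemma qc_diff (a b : ℝ) : DifferentiableOn ℂ (qc a b) {z : ℂ | 0 < z.im} := by
  intro z hz
  have h : ∀ c : ℝ, DifferentiableAt ℂ (fun z : ℂ => (z - c) ^ (1 / 2 : ℂ)) z := by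
    intro c
    refine DifferentiableAt.cpow_const ?_ ?_
    · exact differentiableAt_id.sub (differentiableAt_const _)
    · rw [Complex.mem_slitPlane_iff]
      right
      have : (z - (c : ℂ)).im = z.im := by simp
      rw [this]
      exact ne_of_gt hz
  exact ((h a).mul (h b)).differentiableWithinAt

/-- values of qc on the line -/
lemma qc_left {a b t : ℝ} (hab : a < b) (ht : t < a) : qc a b (t : ℂ) = (qr a b t : ℂ) := by
  rw [qc_eq]
  have h1 : ((t : ℂ) - (a : ℂ)) = ((t - a : ℝ) : ℂ) := by push_cast; rfl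
  have h2 : ((t : ℂ) - (b : ℂ)) = ((t - b : ℝ) : ℂ) := by push_cast; rfl
  rw [h1, h2, sq_neg (by linarith), sq_neg (by linarith)]
  unfold qr
  rw [if_neg (by linarith)]
  have : (t - a) * (t - b) = (-(t - a)) * (-(t - b)) := by ring
  rw [this, Real.sqrt_mul (by linarith)]
  push_cast
  have hI : I * I = -1 := Complex.I_mul_I
  linear_combination ((Real.sqrt (-(t - a)) : ℝ) : ℂ) * ((Real.sqrt (-(t - b)) : ℝ) : ℂ) * hI

lemma qc_right {a b t : ℝ} (hab : a < b) (ht : b ≤ t) : qc a b (t : ℂ) = (qr a b t : ℂ) := by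
  rw [qc_eq]
  have h1 : ((t : ℂ) - (a : ℂ)) = ((t - a : ℝ) : ℂ) := by push_cast; rfl
  have h2 : ((t : ℂ) - (b : ℂ)) = ((t - b : ℝ) : ℂ) := by push_cast; rfl
  rw [h1, h2, sq_pos (by linarith), sq_pos (by linarith)]
  unfold qr
  rw [if_pos ht, Real.sqrt_mul (by linarith)]
  push_cast
  rfl

lemma qc_mid {a b t : ℝ} (ht1 : a ≤ t) (ht2 : t < b) :
    qc a b (t : ℂ) = I * (Real.sqrt ((t - a) * (b - t)) : ℂ) := by
  rw [qc_eq]
  have h1 : ((t : ℂ) - (a : ℂ)) = ((t - a : ℝ) : ℂ) := by push_cast; rfl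
  have h2 : ((t : ℂ) - (b : ℂ)) = ((t - b : ℝ) : ℂ) := by push_cast; rfl
  rw [h1, h2, sq_pos (by linarith), sq_neg (by linarith), Real.sqrt_mul (by linarith)]
  have : -(t - b) = b - t := by ring
  rw [this]
  push_cast
  ring

lemma qr_mid {a b t : ℝ} (ht1 : a ≤ t) (ht2 : t ≤ b) : qr a b t = 0 := by
  unfold qr
  have h : (t - a) * (t - b) ≤ 0 := mul_nonpos_of_nonneg_of_nonpos (by linarith) (by linarith)
  rw [Real.sqrt_eq_zero_of_nonpos h]
  simp

lemma qr_meas (a b : ℝ) : Measurable (qr a b) := by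
  unfold qr
  refine Measurable.ite measurableSet_Ici ?_ ?_
  · exact (Real.continuous_sqrt.comp (by fun_prop)).measurable
  · exact (Real.continuous_sqrt.comp (by fun_prop)).neg.measurable

/-- the amplitude function -/
def G {Hm Hp : ℝ} {C : Set ℝ} (cd : CD Hm Hp C) (a b N : ℝ) (z : ℂ) : ℂ := (cd.f z - N) / qc a b z

lemma G_im {Hm Hp : ℝ} {C : Set ℝ} (cd : CD Hm Hp C) (a b N : ℝ) (hab : a < b)
    (hN : ∀ t ∈ Icc a b, Nf cd t = N) (t : ℝ) : (G cd a b N t).im = vf cd t / qr a b t := by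
  unfold G
  by_cases h1 : t < a
  · rw [qc_left hab h1, Complex.div_ofReal_im]
    simp [vf]
  · push Not at h1
    by_cases h2 : b ≤ t
    · rw [qc_right hab h2, Complex.div_ofReal_im]
      simp [vf]
    · push Not at h2
      rw [qr_mid h1 h2.le, div_zero, qc_mid h1 h2]
      have hf : cd.f t - N = I * (vf cd t : ℂ) := by
        have h3 := hN t ⟨h1, h2.le⟩
        apply Complex.ext
        · simp [vf]
          unfold Nf at h3
          linarith
        · simp [vf]
      rw [hf, mul_div_mul_left _ _ Complex.I_ne_zero, ← Complex.ofReal_div]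
      exact Complex.ofReal_im _

lemma G_mid {Hm Hp : ℝ} {C : Set ℝ} (cd : CD Hm Hp C) (a b N : ℝ)
    (hN : ∀ t ∈ Icc a b, Nf cd t = N) {t : ℝ} (h1 : a < t) (h2 : t < b) :
    G cd a b N t = ((vf cd t / Real.sqrt ((t - a) * (b - t)) : ℝ) : ℂ) := by
  unfold G
  rw [qc_mid h1.le h2]
  have hf : cd.f t - N = I * (vf cd t : ℂ) := by
    have h3 := hN t ⟨h1.le, h2.le⟩
    apply Complex.ext
    · simp [vf]
      unfold Nf at h3
      linarith
    · simp [vf]
  rw [hf, mul_div_mul_left _ _ Complex.I_ne_zero, ← Complex.ofReal_div]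

lemma one_side {a b : ℝ} (hab : a < b) {u w n : ℝ} (hu : 0 < u) (huw : u ≤ w) (h1 : b - a ≤ u + w)
    (h2 : n ≤ |b| + w) (hn : 0 ≤ n) :
    1 / (Real.sqrt u * Real.sqrt w) ≤
      (1 + 2 * (1 + |b|) / (b - a)) * ((1 + n) ^ (-(1 / 2) : ℝ) * u ^ (-(1 / 2) : ℝ)) := by
  have hw : 0 < w := lt_of_lt_of_le hu huw
  have hba : 0 < b - a := by linarith
  set K : ℝ := 1 + 2 * (1 + |b|) / (b - a) with hK
  have hb0 : 0 ≤ |b| := abs_nonneg b
  have hK1 : 1 ≤ K := by
    rw [hK]
    have : 0 ≤ 2 * (1 + |b|) / (b - a) := by positivity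
    linarith
  have h3 : 1 + n ≤ K * w := by
    have h4 : (b - a) / 2 ≤ w := by linarith
    have h5 : 1 + |b| ≤ 2 * (1 + |b|) / (b - a) * w := by
      rw [div_mul_eq_mul_div, le_div_iff₀ hba]
      nlinarith
    rw [hK]
    linarith [h5]
  have h6 : (1 + n) ^ (-(1 / 2) : ℝ) = 1 / Real.sqrt (1 + n) := by
    rw [Real.rpow_neg (by linarith), Real.sqrt_eq_rpow, one_div]
    norm_num
  have h7 : u ^ (-(1 / 2) : ℝ) = 1 / Real.sqrt u := by
    rw [Real.rpow_neg hu.le, Real.sqrt_eq_rpow, one_div]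
    norm_num
  rw [h6, h7]
  have hsu : 0 < Real.sqrt u := Real.sqrt_pos.mpr hu
  have hsw : 0 < Real.sqrt w := Real.sqrt_pos.mpr hw
  have hsn : 0 < Real.sqrt (1 + n) := Real.sqrt_pos.mpr (by linarith)
  have h8 : Real.sqrt (1 + n) ≤ K * Real.sqrt w := by
    have : Real.sqrt (1 + n) ≤ Real.sqrt (K * w) := Real.sqrt_le_sqrt h3
    rw [Real.sqrt_mul (by linarith)] at this
    have h9 : Real.sqrt K ≤ K := by
      rw [Real.sqrt_le_left (by linarith)]
      nlinarith
    nlinarith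
  rw [div_mul_div_comm, one_mul, mul_one_div, div_le_div_iff₀ (by positivity) (by positivity)]
  nlinarith [mul_pos hsu hsw, mul_pos hsn hsu]

lemma G_bound {Hm Hp : ℝ} {C : Set ℝ} (cd : CD Hm Hp C) (a b N : ℝ) (hab : a < b) :
    ∃ A : ℝ, ∀ z ∈ Ucm {a, b}, ‖G cd a b N z‖ ≤
      A * (1 + Real.log (1 + ‖z‖)) * (1 + ‖z‖) ^ (-(1 / 2) : ℝ) * wS {a, b} z := by
  obtain ⟨A0, hA0⟩ := cd.growth
  have hab' : a ≠ b := hab.ne
  have hba : 0 < b - a := by linarith
  set K : ℝ := 1 + 2 * (1 + |b| + |a|) / (b - a) with hK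
  have hK0 : 0 ≤ 2 * (1 + |b| + |a|) / (b - a) := by positivity
  refine ⟨(|A0| + |N| + 1) * K, ?_⟩
  intro z hz
  obtain ⟨hz0, hzS⟩ := hz
  have hza : z ≠ (a : ℂ) := hzS a (by simp)
  have hzb : z ≠ (b : ℂ) := hzS b (by simp)
  have hu : 0 < ‖z - a‖ := norm_pos_iff.mpr (sub_ne_zero.mpr hza)
  have hw : 0 < ‖z - b‖ := norm_pos_iff.mpr (sub_ne_zero.mpr hzb)
  have hlog : 0 ≤ Real.log (1 + ‖z‖) := Real.log_nonneg (by linarith [norm_nonneg z])
  have hnum : ‖cd.f z - N‖ ≤ (|A0| + |N| + 1) * (1 + Real.log (1 + ‖z‖)) := by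
    have h1 : ‖cd.f z - N‖ ≤ ‖cd.f z‖ + ‖(N : ℂ)‖ := norm_sub_le _ _
    have h2 : ‖(N : ℂ)‖ = |N| := by rw [Complex.norm_real, Real.norm_eq_abs]
    have h3 := hA0 z hz0
    have h4 : A0 ≤ |A0| := le_abs_self A0
    have h5 : 0 ≤ |A0| := abs_nonneg _
    have h6 : 0 ≤ |N| := abs_nonneg _
    rw [h2] at h1
    nlinarith [mul_nonneg h5 hlog, mul_nonneg h6 hlog]
  have hw1 : wS {a, b} z = 1 + (‖z - a‖ ^ (-(1 / 2) : ℝ) + ‖z - b‖ ^ (-(1 / 2) : ℝ)) := by
    unfold wS
    rw [Finset.sum_pair hab']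
  have hua : 0 ≤ ‖z - a‖ ^ (-(1 / 2) : ℝ) := Real.rpow_nonneg hu.le _
  have hwb : 0 ≤ ‖z - b‖ ^ (-(1 / 2) : ℝ) := Real.rpow_nonneg hw.le _
  have hn0 : 0 ≤ (1 + ‖z‖) ^ (-(1 / 2) : ℝ) := Real.rpow_nonneg (by positivity) _
  have hsum : b - a ≤ ‖z - a‖ + ‖z - b‖ := by
    have h1 : ‖((b : ℂ) - (a : ℂ))‖ ≤ ‖z - a‖ + ‖z - b‖ := by
      have : (b : ℂ) - (a : ℂ) = (z - a) - (z - b) := by ring
      rw [this]
      exact norm_sub_le _ _
    have h2 : ‖((b : ℂ) - (a : ℂ))‖ = |b - a| := by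
      rw [← Complex.ofReal_sub, Complex.norm_real, Real.norm_eq_abs]
    rw [h2] at h1
    exact le_trans (le_abs_self _) h1
  have hza' : ‖z‖ ≤ |a| + ‖z - a‖ := by
    have : z = (a : ℂ) + (z - a) := by ring
    calc ‖z‖ = ‖(a : ℂ) + (z - a)‖ := by rw [← this]
      _ ≤ ‖(a : ℂ)‖ + ‖z - a‖ := norm_add_le _ _
      _ = |a| + ‖z - a‖ := by rw [Complex.norm_real, Real.norm_eq_abs]
  have hzb' : ‖z‖ ≤ |b| + ‖z - b‖ := by
    have : z = (b : ℂ) + (z - b) := by ring
    calc ‖z‖ = ‖(b : ℂ) + (z - b)‖ := by rw [← this]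
      _ ≤ ‖(b : ℂ)‖ + ‖z - b‖ := norm_add_le _ _
      _ = |b| + ‖z - b‖ := by rw [Complex.norm_real, Real.norm_eq_abs]
  have hden : 1 / ‖qc a b z‖ ≤ K * ((1 + ‖z‖) ^ (-(1 / 2) : ℝ) * wS {a, b} z) := by
    rw [qc_norm, hw1]
    rcases le_total ‖z - a‖ ‖z - b‖ with h | h
    · have h1 := one_side hab hu h hsum hzb' (norm_nonneg z)
      refine le_trans h1 ?_
      have h2 : 1 + 2 * (1 + |b|) / (b - a) ≤ K := by
        rw [hK]
        have : 2 * (1 + |b|) / (b - a) ≤ 2 * (1 + |b| + |a|) / (b - a) := by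
          apply div_le_div_of_nonneg_right _ hba.le
          linarith [abs_nonneg a]
        linarith
      have h3 : (1 + ‖z‖) ^ (-(1 / 2) : ℝ) * ‖z - a‖ ^ (-(1 / 2) : ℝ) ≤
          (1 + ‖z‖) ^ (-(1 / 2) : ℝ) * (1 + (‖z - a‖ ^ (-(1 / 2) : ℝ) + ‖z - b‖ ^ (-(1 / 2) : ℝ))) := by
        apply mul_le_mul_of_nonneg_left _ hn0
        linarith
      have h4 : 0 ≤ (1 + ‖z‖) ^ (-(1 / 2) : ℝ) * ‖z - a‖ ^ (-(1 / 2) : ℝ) := mul_nonneg hn0 hua
      have h5 : 0 ≤ K := by rw [hK]; linarith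
      exact mul_le_mul h2 h3 h4 h5
    · have hsum' : (-a) - (-b) ≤ ‖z - b‖ + ‖z - a‖ := by linarith
      have hza'' : ‖z‖ ≤ |(-a)| + ‖z - a‖ := by rw [abs_neg]; exact hza'
      have h1 := one_side (a := -b) (b := -a) (by linarith) hw h hsum' hza'' (norm_nonneg z)
      rw [mul_comm (Real.sqrt ‖z - a‖)]
      refine le_trans h1 ?_
      have h2 : 1 + 2 * (1 + |(-a)|) / (-a - -b) ≤ K := by
        rw [hK, abs_neg]
        have h0 : -a - -b = b - a := by ring
        rw [h0]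
        have : 2 * (1 + |a|) / (b - a) ≤ 2 * (1 + |b| + |a|) / (b - a) := by
          apply div_le_div_of_nonneg_right _ hba.le
          linarith [abs_nonneg b]
        linarith
      have h3 : (1 + ‖z‖) ^ (-(1 / 2) : ℝ) * ‖z - b‖ ^ (-(1 / 2) : ℝ) ≤
          (1 + ‖z‖) ^ (-(1 / 2) : ℝ) * (1 + (‖z - a‖ ^ (-(1 / 2) : ℝ) + ‖z - b‖ ^ (-(1 / 2) : ℝ))) := by
        apply mul_le_mul_of_nonneg_left _ hn0
        linarith
      have h4 : 0 ≤ (1 + ‖z‖) ^ (-(1 / 2) : ℝ) * ‖z - b‖ ^ (-(1 / 2) : ℝ) := mul_nonneg hn0 hwb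
      have h5 : 0 ≤ K := by rw [hK]; linarith
      exact mul_le_mul h2 h3 h4 h5
  unfold G
  rw [norm_div, div_eq_mul_one_div]
  calc ‖cd.f z - N‖ * (1 / ‖qc a b z‖)
      ≤ ((|A0| + |N| + 1) * (1 + Real.log (1 + ‖z‖))) *
        (K * ((1 + ‖z‖) ^ (-(1 / 2) : ℝ) * wS {a, b} z)) := by
        apply mul_le_mul hnum hden (by positivity)
        have := abs_nonneg A0
        have := abs_nonneg N
        positivity
    _ = _ := by ring

lemma G_cont {Hm Hp : ℝ} {C : Set ℝ} (cd : CD Hm Hp C) (a b N : ℝ) :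
    ContinuousOn (G cd a b N) (Ucm {a, b}) := by
  unfold G
  refine ContinuousOn.div ?_ ?_ ?_
  · refine ContinuousOn.sub ?_ continuousOn_const
    exact cd.cont.mono (fun z hz => hz.1)
  · exact (qc_cont a b).mono (fun z hz => hz.1)
  · intro z hz
    exact qc_ne a b (hz.2 a (by simp)) (hz.2 b (by simp))

lemma G_diff {Hm Hp : ℝ} {C : Set ℝ} (cd : CD Hm Hp C) (a b N : ℝ) :
    DifferentiableOn ℂ (G cd a b N) Uo := by
  unfold G
  refine DifferentiableOn.div ?_ ?_ ?_
  · exact cd.ana.sub (differentiableOn_const _)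
  · exact qc_diff a b
  · intro z hz
    exact qc_ne a b (ne_real hz a) (ne_real hz b)

theorem second (hA3 : ST_A3) {Hm Hp : ℝ} {C : Set ℝ} (cd : CD Hm Hp C) (a b N : ℝ) (hab : a < b)
    (hN : ∀ t ∈ Icc a b, Nf cd t = N) :
    ∀ z ∈ Uo, Integrable (fun t : ℝ => ((vf cd t / qr a b t : ℝ) : ℂ) / ((t : ℂ) - z)) ∧
      G cd a b N z = (1 / Real.pi : ℝ) * ∫ t : ℝ, ((vf cd t / qr a b t : ℝ) : ℂ) / ((t : ℂ) - z) := by
  obtain ⟨A, hA⟩ := G_bound cd a b N hab
  intro z hz
  have h := hA3 (G cd a b N) {a, b} A (G_cont cd a b N) (G_diff cd a b N) hA z hz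
  have he : (fun t : ℝ => (((G cd a b N t).im : ℝ) : ℂ) / ((t : ℂ) - z)) =
      (fun t : ℝ => ((vf cd t / qr a b t : ℝ) : ℂ) / ((t : ℂ) - z)) := by
    funext t
    rw [G_im cd a b N hab hN t]
  rw [he] at h
  exact h

lemma vf_cont {Hm Hp : ℝ} {C : Set ℝ} (cd : CD Hm Hp C) : Continuous (vf cd) := by
  unfold vf
  have h : Continuous (fun t : ℝ => cd.f (t : ℂ)) := by
    have := cd.cont.comp_continuous Complex.continuous_ofReal (by intro t; simp)
    exact this
  exact Complex.continuous_im.comp h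

lemma vf_nonneg {Hm Hp : ℝ} {C : Set ℝ} (cd : CD Hm Hp C) (t : ℝ) : 0 ≤ vf cd t := cd.im_nonneg t

lemma norm_sub_line (t x y : ℝ) : ‖(t : ℂ) - ((x : ℂ) + (y : ℂ) * I)‖ = Real.sqrt ((t - x) ^ 2 + y ^ 2) := by
  have : (t : ℂ) - ((x : ℂ) + (y : ℂ) * I) = ((t - x : ℝ) : ℂ) + ((-y : ℝ) : ℂ) * I := by
    push_cast; ring
  rw [this, Complex.norm_add_mul_I]
  congr 1
  ring

/-- the kernel is the same as the signed kernel -/
lemma kern {Hm Hp : ℝ} {C : Set ℝ} (cd : CD Hm Hp C) {a b x : ℝ} (hx : x ∈ Ioo a b) (t : ℝ) :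
    vf cd t / (|qr a b t| * |t - x|) = vf cd t / qr a b t / (t - x) := by
  by_cases h1 : t < a
  · have h2 : qr a b t ≤ 0 := by
      unfold qr
      rw [if_neg (by linarith [hx.1, hx.2])]
      have := Real.sqrt_nonneg ((t - a) * (t - b))
      linarith
    rw [abs_of_nonpos h2, abs_of_neg (by linarith [hx.1]), div_div]
    congr 1
    ring
  · push Not at h1
    by_cases h2 : b ≤ t
    · have h3 : 0 ≤ qr a b t := by
        unfold qr
        rw [if_pos h2]
        exact Real.sqrt_nonneg _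
      rw [abs_of_nonneg h3, abs_of_pos (by linarith [hx.2]), div_div]
    · push Not at h2
      rw [qr_mid h1 h2.le]
      simp

lemma kern_int (hA3 : ST_A3) {Hm Hp : ℝ} {C : Set ℝ} (cd : CD Hm Hp C) (a b N : ℝ) (hab : a < b)
    (hN : ∀ t ∈ Icc a b, Nf cd t = N) {x : ℝ} (hx : x ∈ Ioo a b) :
    Integrable (fun t => vf cd t / (|qr a b t| * |t - x|)) := by
  have h := (second hA3 cd a b N hab hN ((x : ℂ) + ((1 : ℝ) : ℂ) * I) (by
    show 0 < ((x : ℂ) + ((1 : ℝ) : ℂ) * I).im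
    simp)).1
  set c : ℝ := min (x - a) (b - x) with hc
  have hc0 : 0 < c := lt_min (by linarith [hx.1]) (by linarith [hx.2])
  have hd := (h.norm).const_mul (1 + 1 / c)
  refine hd.mono' ?_ ?_
  · refine Measurable.aestronglyMeasurable ?_
    refine (vf_cont cd).measurable.div ?_
    refine Measurable.mul ?_ ?_
    · exact (qr_meas a b).abs
    · exact (measurable_id.sub_const x).abs
  · refine ae_of_all _ (fun t => ?_)
    rw [Real.norm_eq_abs, abs_div, abs_of_nonneg (vf_nonneg cd t), abs_mul, abs_abs, abs_abs]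
    rw [norm_div, norm_sub_line, Complex.norm_real, Real.norm_eq_abs, abs_div, abs_of_nonneg (vf_nonneg cd t)]
    by_cases hq : qr a b t = 0
    · rw [hq]; simp
    · have ht : c ≤ |t - x| := by
        by_cases h1 : t < a
        · rw [abs_of_neg (by linarith [hx.1])]
          have : c ≤ x - a := min_le_left _ _
          linarith
        · push Not at h1
          by_cases h2 : b < t
          · rw [abs_of_pos (by linarith [hx.2])]
            have : c ≤ b - x := min_le_right _ _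
            linarith
          · push Not at h2
            exact absurd (qr_mid h1 h2) hq
      have hq' : 0 < |qr a b t| := abs_pos.mpr hq
      have htx : 0 < |t - x| := lt_of_lt_of_le hc0 ht
      rw [← div_div]
      have h1 : 1 / |t - x| ≤ (1 + 1 / c) * (1 / Real.sqrt ((t - x) ^ 2 + 1 ^ 2)) := by
        have hs : Real.sqrt ((t - x) ^ 2 + 1 ^ 2) ≤ (1 + 1 / c) * |t - x| := by
          rw [Real.sqrt_le_left (by positivity)]
          have h3 : 1 ≤ (1 / c) * |t - x| := by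
            rw [div_mul_eq_mul_div, one_mul, le_div_iff₀ hc0]
            linarith
          have h4 : (t - x) ^ 2 = |t - x| ^ 2 := (sq_abs _).symm
          rw [h4]
          nlinarith [mul_nonneg (by positivity : (0 : ℝ) ≤ 1 / c) htx.le]
        have hs0 : 0 < Real.sqrt ((t - x) ^ 2 + 1 ^ 2) := Real.sqrt_pos.mpr (by positivity)
        rw [mul_one_div, div_le_div_iff₀ htx hs0]
        linarith
      have h0 : 0 ≤ vf cd t / |qr a b t| := div_nonneg (vf_nonneg cd t) hq'.le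
      calc vf cd t / |qr a b t| / |t - x| = (vf cd t / |qr a b t|) * (1 / |t - x|) := by ring
        _ ≤ (vf cd t / |qr a b t|) * ((1 + 1 / c) * (1 / Real.sqrt ((t - x) ^ 2 + 1 ^ 2))) :=
            mul_le_mul_of_nonneg_left h1 h0
        _ = _ := by ring

lemma KI_eq (hA3 : ST_A3) {Hm Hp : ℝ} {C : Set ℝ} (cd : CD Hm Hp C) (a b N : ℝ) (hab : a < b)
    (hN : ∀ t ∈ Icc a b, Nf cd t = N) {x : ℝ} (hx : x ∈ Ioo a b) :
    vf cd x = Real.sqrt ((x - a) * (b - x)) * KI cd a b x := by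
  have hi := kern_int hA3 cd a b N hab hN hx
  -- the approach z = x + i / (n+1)
  set zz : ℕ → ℂ := fun n => (x : ℂ) + ((1 / ((n : ℝ) + 1) : ℝ) : ℂ) * I with hzz
  have hzim : ∀ n, 0 < (zz n).im := by
    intro n
    simp only [hzz]
    have : ((x : ℂ) + ((1 / ((n : ℝ) + 1) : ℝ) : ℂ) * I).im = 1 / ((n : ℝ) + 1) := by
      rw [Complex.add_im, Complex.ofReal_im, Complex.im_ofReal_mul, Complex.I_im]
      ring
    rw [this]
    positivity
  have hzt : Tendsto zz atTop (𝓝 (x : ℂ)) := by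
    have h1 : Tendsto (fun n : ℕ => (1 / ((n : ℝ) + 1) : ℝ)) atTop (𝓝 0) :=
      tendsto_one_div_add_atTop_nhds_zero_nat
    have h2 : Tendsto (fun n : ℕ => (x : ℂ) + ((1 / ((n : ℝ) + 1) : ℝ) : ℂ) * I) atTop
        (𝓝 ((x : ℂ) + ((0 : ℝ) : ℂ) * I)) := by
      refine tendsto_const_nhds.add ?_
      exact ((Complex.continuous_ofReal.tendsto 0).comp h1).mul_const I
    have h3 : (x : ℂ) + ((0 : ℝ) : ℂ) * I = x := by simp
    rw [h3] at h2
    exact h2
  have hxa : (x : ℂ) ≠ (a : ℂ) := by exact_mod_cast hx.1.ne'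
  have hxb : (x : ℂ) ≠ (b : ℂ) := by exact_mod_cast hx.2.ne
  have hmem : (x : ℂ) ∈ Ucm {a, b} := by
    refine ⟨by simp, ?_⟩
    intro s hs
    simp only [Finset.mem_insert, Finset.mem_singleton] at hs
    rcases hs with rfl | rfl
    · exact hxa
    · exact hxb
  have hL : Tendsto (fun n => G cd a b N (zz n)) atTop (𝓝 (G cd a b N x)) := by
    have hc := (G_cont cd a b N) (x : ℂ) hmem
    refine hc.tendsto.comp ?_
    rw [tendsto_nhdsWithin_iff]
    refine ⟨hzt, Filter.Eventually.of_forall (fun n => ?_)⟩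
    exact ⟨(hzim n).le, fun s _ => ne_real (hzim n) s⟩
  have hR : Tendsto (fun n => ∫ t : ℝ, ((vf cd t / qr a b t : ℝ) : ℂ) / ((t : ℂ) - zz n)) atTop
      (𝓝 (∫ t : ℝ, ((vf cd t / qr a b t : ℝ) : ℂ) / ((t : ℂ) - x))) := by
    refine tendsto_integral_of_dominated_convergence (fun t => vf cd t / (|qr a b t| * |t - x|)) ?_ hi ?_ ?_
    · intro n
      exact (second hA3 cd a b N hab hN (zz n) (hzim n)).1.aestronglyMeasurable
    · intro n
      refine ae_of_all _ (fun t => ?_)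
      rw [norm_div, Complex.norm_real, Real.norm_eq_abs, abs_div, abs_of_nonneg (vf_nonneg cd t)]
      simp only [hzz]
      rw [norm_sub_line]
      by_cases htx : t = x
      · subst htx
        rw [qr_mid hx.1.le hx.2.le]
        simp
      · have h1 : 0 < |t - x| := abs_pos.mpr (sub_ne_zero.mpr htx)
        rw [← div_div]
        apply div_le_div_of_nonneg_left
        · exact div_nonneg (vf_nonneg cd t) (abs_nonneg _)
        · exact h1
        · rw [← Real.sqrt_sq_eq_abs]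
          apply Real.sqrt_le_sqrt
          have := sq_nonneg (1 / ((n : ℝ) + 1))
          linarith
    · refine ae_of_all _ (fun t => ?_)
      by_cases htx : t = x
      · subst htx
        rw [qr_mid hx.1.le hx.2.le]
        simp
      · refine Tendsto.div tendsto_const_nhds (tendsto_const_nhds.sub hzt) ?_
        rw [sub_ne_zero]
        exact_mod_cast htx
  have hE : ∀ n, G cd a b N (zz n) =
      (1 / Real.pi : ℝ) * ∫ t : ℝ, ((vf cd t / qr a b t : ℝ) : ℂ) / ((t : ℂ) - zz n) := by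
    intro n
    exact (second hA3 cd a b N hab hN (zz n) (hzim n)).2
  have hR' : Tendsto (fun n => G cd a b N (zz n)) atTop
      (𝓝 ((1 / Real.pi : ℝ) * ∫ t : ℝ, ((vf cd t / qr a b t : ℝ) : ℂ) / ((t : ℂ) - x))) := by
    have := hR.const_mul ((1 / Real.pi : ℝ) : ℂ)
    exact this.congr (fun n => (hE n).symm)
  have hU := tendsto_nhds_unique hL hR'
  rw [G_mid cd a b N hN hx.1 hx.2] at hU
  have hI : (∫ t : ℝ, ((vf cd t / qr a b t : ℝ) : ℂ) / ((t : ℂ) - x)) =
      ((∫ t : ℝ, vf cd t / (|qr a b t| * |t - x|) : ℝ) : ℂ) := by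
    rw [← integral_complex_ofReal]
    congr 1
    funext t
    rw [kern cd hx t]
    push_cast
    rfl
  rw [hI, ← Complex.ofReal_mul] at hU
  have hU' := Complex.ofReal_injective hU
  have hs : 0 < Real.sqrt ((x - a) * (b - x)) :=
    Real.sqrt_pos.mpr (mul_pos (by linarith [hx.1]) (by linarith [hx.2]))
  unfold KI
  rw [← hU']
  field_simp

lemma KI_pos (hA3 : ST_A3) (hP1 : ST_P1) {Hm Hp : ℝ} {C : Set ℝ} (cd : CD Hm Hp C) (a b N : ℝ) (hab : a < b)
    (hN : ∀ t ∈ Icc a b, Nf cd t = N) {x : ℝ} (hx : x ∈ Ioo a b) : 0 < KI cd a b x := by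
  have hi := kern_int hA3 cd a b N hab hN hx
  have hnn : ∀ t, 0 ≤ vf cd t / (|qr a b t| * |t - x|) := fun t =>
    div_nonneg (vf_nonneg cd t) (by positivity)
  have h0 : 0 ≤ ∫ t : ℝ, vf cd t / (|qr a b t| * |t - x|) := integral_nonneg hnn
  rcases h0.lt_or_eq with h | h
  · unfold KI
    have := Real.pi_pos
    positivity
  · exfalso
    have hz : (fun t => vf cd t / (|qr a b t| * |t - x|)) =ᵐ[volume] 0 :=
      (integral_eq_zero_iff_of_nonneg hnn hi).mp h.symm
    have hxne : ∀ᵐ t : ℝ, t ≠ x := by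
      rw [ae_iff]
      simp
    have hane : ∀ᵐ t : ℝ, t ≠ a := by
      rw [ae_iff]
      simp
    have hbne : ∀ᵐ t : ℝ, t ≠ b := by
      rw [ae_iff]
      simp
    have hK : ∀ y ∈ Ioo a b, KI cd a b y = 0 := by
      intro y hy
      unfold KI
      have : (∫ t : ℝ, vf cd t / (|qr a b t| * |t - y|)) = 0 := by
        rw [← integral_zero ℝ ℝ]
        apply integral_congr_ae
        filter_upwards [hz, hxne] with t ht htx
        simp only [Pi.zero_apply] at ht
        rcases div_eq_zero_iff.mp ht with h1 | h1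
        · rw [h1, zero_div]
        · rcases mul_eq_zero.mp h1 with h2 | h2
          · rw [h2]; simp
          · exact absurd (sub_eq_zero.mp (abs_eq_zero.mp h2)) htx
      rw [this, mul_zero]
    have hv : ∀ᵐ t : ℝ, vf cd t = 0 := by
      filter_upwards [hz, hxne, hane, hbne] with t ht htx hta htb
      by_cases hin : a < t ∧ t < b
      · rw [KI_eq hA3 cd a b N hab hN (x := t) ⟨hin.1, hin.2⟩, hK t ⟨hin.1, hin.2⟩, mul_zero]
      · simp only [Pi.zero_apply] at ht
        rcases div_eq_zero_iff.mp ht with h1 | h1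
        · exact h1
        · rcases mul_eq_zero.mp h1 with h2 | h2
          · exfalso
            have hq : qr a b t = 0 := abs_eq_zero.mp h2
            unfold qr at hq
            have hpos : 0 < (t - a) * (t - b) := by
              by_cases h3 : a < t
              · have h4 : ¬ t < b := fun h4 => hin ⟨h3, h4⟩
                push Not at h4
                have h5 : b < t := lt_of_le_of_ne h4 (Ne.symm htb)
                exact mul_pos (by linarith) (by linarith)
              · push Not at h3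
                have h5 : t < a := lt_of_le_of_ne h3 hta
                exact mul_pos_of_neg_of_neg (by linarith) (by linarith)
            have hs := Real.sqrt_pos.mpr hpos
            split_ifs at hq <;> linarith
          · exact absurd (sub_eq_zero.mp (abs_eq_zero.mp h2)) htx
    obtain ⟨hp1, -, hp3, -⟩ := hP1 Hm Hp C cd
    have hY := (hp1 0 1 one_pos).2
    have hY0 := (hp3 0 1 1 one_pos le_rfl).1
    have : (∫ t : ℝ, vf cd t * (1 / ((t - 0) ^ 2 + 1 ^ 2))) = 0 := by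
      rw [← integral_zero ℝ ℝ]
      apply integral_congr_ae
      filter_upwards [hv] with t ht
      rw [ht, zero_mul]
    rw [this, mul_zero] at hY
    linarith

lemma third (hA3 : ST_A3) {Hm Hp : ℝ} {C : Set ℝ} (cd : CD Hm Hp C) (a b N : ℝ) (hab : a < b)
    (hN : ∀ t ∈ Icc a b, Nf cd t = N) {r : ℝ} (hr : 0 < r) :
    ‖cd.f (((a + b) / 2 : ℝ) + (r : ℂ) * I) - N‖ ≤
    Real.sqrt (r ^ 2 + (b - a) ^ 2 / 4) * KI cd a b ((a + b) / 2) := by
  set c : ℝ := (a + b) / 2 with hc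
  have hx : c ∈ Ioo a b := ⟨by rw [hc]; linarith, by rw [hc]; linarith⟩
  have hi := kern_int hA3 cd a b N hab hN hx
  set z : ℂ := (c : ℂ) + (r : ℂ) * I with hz
  have hzim : 0 < z.im := by
    rw [hz]; simp [hr]
  obtain ⟨h1, h2⟩ := second hA3 cd a b N hab hN z hzim
  have hq := qc_ne a b (ne_real hzim a) (ne_real hzim b)
  have hf : cd.f z - N = qc a b z * G cd a b N z := by
    unfold G
    field_simp
  have hGn : ‖G cd a b N z‖ ≤ KI cd a b c := by
    rw [h2, norm_mul, Complex.norm_real, Real.norm_eq_abs, abs_of_pos (by have := Real.pi_pos; positivity)]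
    unfold KI
    apply mul_le_mul_of_nonneg_left _ (by have := Real.pi_pos; positivity)
    refine norm_integral_le_of_norm_le hi ?_
    refine ae_of_all _ (fun t => ?_)
    rw [norm_div, Complex.norm_real, Real.norm_eq_abs, abs_div, abs_of_nonneg (vf_nonneg cd t), hz,
      norm_sub_line]
    by_cases htx : t = c
    · rw [htx, qr_mid hx.1.le hx.2.le]
      simp
    · have h1 : 0 < |t - c| := abs_pos.mpr (sub_ne_zero.mpr htx)
      rw [← div_div]
      apply div_le_div_of_nonneg_left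
      · exact div_nonneg (vf_nonneg cd t) (abs_nonneg _)
      · exact h1
      · rw [← Real.sqrt_sq_eq_abs]
        apply Real.sqrt_le_sqrt
        have := sq_nonneg r
        linarith
  have hqn : ‖qc a b z‖ = Real.sqrt (r ^ 2 + (b - a) ^ 2 / 4) := by
    rw [qc_norm]
    have e1 : ‖z - a‖ = Real.sqrt (r ^ 2 + (b - a) ^ 2 / 4) := by
      have : z - a = (((b - a) / 2 : ℝ) : ℂ) + (r : ℂ) * I := by
        rw [hz, hc]; push_cast; ring
      rw [this, Complex.norm_add_mul_I]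
      congr 1
      ring
    have e2 : ‖z - b‖ = Real.sqrt (r ^ 2 + (b - a) ^ 2 / 4) := by
      have : z - b = ((-((b - a) / 2) : ℝ) : ℂ) + (r : ℂ) * I := by
        rw [hz, hc]; push_cast; ring
      rw [this, Complex.norm_add_mul_I]
      congr 1
      ring
    rw [e1, e2, Real.mul_self_sqrt (Real.sqrt_nonneg _)]
  rw [hf, norm_mul, hqn]
  exact mul_le_mul_of_nonneg_left hGn (Real.sqrt_nonneg _)

theorem st_P3 (hA3 : ST_A3) (hP1 : ST_P1) : ST_P3 := by
  intro Hm Hp C cd a b N hab hN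
  refine ⟨?_, ?_, ?_⟩
  · intro x hx
    exact ⟨kern_int hA3 cd a b N hab hN hx, KI_pos hA3 hP1 cd a b N hab hN hx,
      KI_eq hA3 cd a b N hab hN hx⟩
  · intro z hz
    obtain ⟨h1, h2⟩ := second hA3 cd a b N hab hN z hz
    refine ⟨h1, ?_⟩
    rw [← h2]
    unfold G
    have hq := qc_ne a b (ne_real hz a) (ne_real hz b)
    field_simp
  · intro r hr
    exact third hA3 cd a b N hab hN hr

end

end Pool.Agent.Helper8.CV.P3
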