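import Pool.Agent.Helper8.CV.R15C

set_option autoImplicit false

namespace Pool.Agent.Helper8.CV.R15

open Complex Filter Topology MeasureTheory Set
open Pool.Agent.Helper36.CV
open Pool.Agent.Helper8.CV.R16

noncomputable section

/-- sizes of the end gaps against the distance -/
lemma szL {ε K cK ρ d cl s : ℝ} (hε : 0 < ε) (hε1 : ε ≤ 1 / 10 ^ 20) (hρ : 0 < ρ) (hcK : 0 ≤ cK) (hcKK : cK ≤ K)
    (hKε : K * ε ≤ 1 / 10 ^ 4) (hd : d - (1 - ε) * ρ ≤ K * ε ^ 2 * ρ)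
    (hcl : ε * (1 + 2 * ε) * ρ - cK * ε ^ 3 * ρ ≤ cl) (hs : (1 - 26 / 10 * ε) * cl ≤ s) : ε * d ≤ s := by
  have hE : 0 < ε ^ 2 * ρ := by positivity
  have h1 : (1 - 26 / 10 * ε) * (ε * (1 + 2 * ε) * ρ - cK * ε ^ 3 * ρ) ≤ (1 - 26 / 10 * ε) * cl :=
    mul_le_mul_of_nonneg_left hcl (by linarith)
  have h2 : ε * d ≤ ε * ((1 - ε) * ρ + K * ε ^ 2 * ρ) := mul_le_mul_of_nonneg_left (by linarith) hε.le
  have h3 : cK * ε * (ε ^ 2 * ρ) ≤ 1 / 10 ^ 4 * (ε ^ 2 * ρ) := by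
    have : cK * ε ≤ 1 / 10 ^ 4 := le_trans (mul_le_mul_of_nonneg_right hcKK hε.le) hKε
    exact mul_le_mul_of_nonneg_right this hE.le
  have h4 : K * ε * (ε ^ 2 * ρ) ≤ 1 / 10 ^ 4 * (ε ^ 2 * ρ) := mul_le_mul_of_nonneg_right hKε hE.le
  have h5 : ε * (ε ^ 2 * ρ) ≤ 1 / 10 ^ 20 * (ε ^ 2 * ρ) := mul_le_mul_of_nonneg_right hε1 hE.le
  have h6 : 0 ≤ ε * (cK * ε * (ε ^ 2 * ρ)) := by positivity
  have e1 : (1 - 26 / 10 * ε) * (ε * (1 + 2 * ε) * ρ - cK * ε ^ 3 * ρ) =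
      ε * ρ - 6 / 10 * (ε ^ 2 * ρ) - 52 / 10 * (ε * (ε ^ 2 * ρ)) - cK * ε * (ε ^ 2 * ρ) +
        26 / 10 * (ε * (cK * ε * (ε ^ 2 * ρ))) := by ring
  have e2 : ε * ((1 - ε) * ρ + K * ε ^ 2 * ρ) = ε * ρ - ε ^ 2 * ρ + K * ε * (ε ^ 2 * ρ) := by ring
  rw [e1] at h1
  rw [e2] at h2
  linarith

lemma szR {ε K cK ρ d cl s : ℝ} (hε : 0 < ε) (hε1 : ε ≤ 1 / 10 ^ 20) (hρ : 0 < ρ) (hcK : 0 ≤ cK) (hcKK : cK ≤ K)
    (hKε : K * ε ≤ 1 / 10 ^ 4) (hd : d - (1 - ε) * ρ ≤ K * ε ^ 2 * ρ)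
    (hcl : ε * (1 - 2 * ε) * ρ - cK * ε ^ 3 * ρ ≤ cl) (hs : (1 - 26 / 10 * ε) * cl ≤ s) :
    ε * d * (1 + 98 * ε) ≤ (1 + 102 * ε) * s := by
  have hE : 0 < ε ^ 2 * ρ := by positivity
  have h1 : (1 - 26 / 10 * ε) * (ε * (1 - 2 * ε) * ρ - cK * ε ^ 3 * ρ) ≤ (1 - 26 / 10 * ε) * cl :=
    mul_le_mul_of_nonneg_left hcl (by linarith)
  have h2 : ε * d ≤ ε * ((1 - ε) * ρ + K * ε ^ 2 * ρ) := mul_le_mul_of_nonneg_left (by linarith) hε.le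
  have h3 : cK * ε * (ε ^ 2 * ρ) ≤ 1 / 10 ^ 4 * (ε ^ 2 * ρ) := by
    have : cK * ε ≤ 1 / 10 ^ 4 := le_trans (mul_le_mul_of_nonneg_right hcKK hε.le) hKε
    exact mul_le_mul_of_nonneg_right this hE.le
  have h4 : K * ε * (ε ^ 2 * ρ) ≤ 1 / 10 ^ 4 * (ε ^ 2 * ρ) := mul_le_mul_of_nonneg_right hKε hE.le
  have h5 : ε * (ε ^ 2 * ρ) ≤ 1 / 10 ^ 20 * (ε ^ 2 * ρ) := mul_le_mul_of_nonneg_right hε1 hE.le
  have h50 : 0 < ε * (ε ^ 2 * ρ) := by positivity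
  have h6 : 0 ≤ ε * (cK * ε * (ε ^ 2 * ρ)) := by positivity
  have e1 : (1 - 26 / 10 * ε) * (ε * (1 - 2 * ε) * ρ - cK * ε ^ 3 * ρ) =
      ε * ρ - 46 / 10 * (ε ^ 2 * ρ) + 52 / 10 * (ε * (ε ^ 2 * ρ)) - cK * ε * (ε ^ 2 * ρ) +
        26 / 10 * (ε * (cK * ε * (ε ^ 2 * ρ))) := by ring
  have e2 : ε * ((1 - ε) * ρ + K * ε ^ 2 * ρ) = ε * ρ - ε ^ 2 * ρ + K * ε * (ε ^ 2 * ρ) := by ring
  rw [e1] at h1
  rw [e2] at h2
  have h7 : ε * ρ - 461 / 100 * (ε ^ 2 * ρ) ≤ s := by linarith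
  have h8 : ε * d ≤ ε * ρ - 99 / 100 * (ε ^ 2 * ρ) := by linarith
  have h9 : (1 + 102 * ε) * (ε * ρ - 461 / 100 * (ε ^ 2 * ρ)) ≤ (1 + 102 * ε) * s :=
    mul_le_mul_of_nonneg_left h7 (by linarith)
  have h10 : ε * d * (1 + 98 * ε) ≤ (ε * ρ - 99 / 100 * (ε ^ 2 * ρ)) * (1 + 98 * ε) :=
    mul_le_mul_of_nonneg_right h8 (by linarith)
  have e3 : (1 + 102 * ε) * (ε * ρ - 461 / 100 * (ε ^ 2 * ρ)) =
      ε * ρ + (102 - 461 / 100) * (ε ^ 2 * ρ) - 102 * (461 / 100) * (ε * (ε ^ 2 * ρ)) := by ring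
  have e4 : (ε * ρ - 99 / 100 * (ε ^ 2 * ρ)) * (1 + 98 * ε) =
      ε * ρ + (98 - 99 / 100) * (ε ^ 2 * ρ) - 98 * (99 / 100) * (ε * (ε ^ 2 * ρ)) := by ring
  rw [e3] at h9
  rw [e4] at h10
  linarith

/-- the label of V0 times the distances of the labels -/
lemma m0b {ε h kk s mu NL NR N0 : ℝ} (hε : 0 < ε) (hε1 : ε ≤ 1 / 10 ^ 20) (hh : h = s / 2) (hh0 : 0 < h) (hkk : 0 ≤ kk)
    (hmu : 0 ≤ mu) (hQ : mu * kk * s ≤ ε / 2 * (1 + 98 * ε))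
    (hL : |NL - N0| ≤ 7 * Real.sqrt ((115 / 100 * h) ^ 2 + s ^ 2 / 4) * kk)
    (hR : |NR - N0| ≤ 7 * Real.sqrt ((115 / 100 * h) ^ 2 + s ^ 2 / 4) * kk) :
    mu * ((NL - N0) + (NR - N0)) ≤ 6 * ε := by
  have hsq : Real.sqrt ((115 / 100 * h) ^ 2 + s ^ 2 / 4) ≤ 153 / 100 * h := by
    rw [Real.sqrt_le_left (by positivity)]
    have : s = 2 * h := by rw [hh]; ring
    rw [this]
    nlinarith [mul_pos hh0 hh0]
  have h1 : 7 * Real.sqrt ((115 / 100 * h) ^ 2 + s ^ 2 / 4) * kk ≤ 7 * (153 / 100 * h) * kk :=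
    mul_le_mul_of_nonneg_right (by linarith) hkk
  have h2 := le_abs_self (NL - N0)
  have h3 := le_abs_self (NR - N0)
  have h4 : (NL - N0) + (NR - N0) ≤ 2 * (7 * (153 / 100 * h) * kk) := by linarith
  have h5 := mul_le_mul_of_nonneg_left h4 hmu
  have h6 : mu * (2 * (7 * (153 / 100 * h) * kk)) = 1071 / 100 * (mu * kk * s) := by rw [hh]; ring
  rw [h6] at h5
  have h7 : ε * ε ≤ 1 / 10 ^ 20 * ε := mul_le_mul_of_nonneg_right hε1 hε.le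
  linarith

theorem st_R15 (hP1 : ST_P1) (hQ4 : ST_Q4) (hR0 : ST_R0) (hR2 : ST_R2) (hR3 : ST_R3)
    (hN0 : ST_N0) (hL1 : ST_L1) (hL2 : ST_L2) (hP3 : ST_P3) (hR11 : ST_R11) (hR14 : ST_R14) : ST_R15 := by
  intro cK hcK
  obtain ⟨eR0, heR0, hR0⟩ := hR0
  obtain ⟨eR2, heR2, hR2⟩ := hR2 cK hcK
  obtain ⟨eR3, heR3, hR3⟩ := hR3 cK hcK
  obtain ⟨eR11, heR11, hR11⟩ := hR11 cK hcK
  obtain ⟨K14, eR14, hK14, heR14, hR14⟩ := hR14 cK hcK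
  obtain ⟨K, hK⟩ : ∃ K, K = 2 + 2 * K14 + 2 * cK + 31 := ⟨_, rfl⟩
  have hK1 : 31 ≤ K := by rw [hK]; linarith
  have hKp : 0 < K := by linarith
  obtain ⟨δ0, hδ0⟩ : ∃ δ0 : ℝ, δ0 = 1 / (10 ^ 4 * K) := ⟨_, rfl⟩
  have hδ0p : 0 < δ0 := by rw [hδ0]; positivity
  refine ⟨min (min eR0 (min eR2 eR3)) (min (min eR11 eR14) (δ0 ^ 100)), ?_, ?_⟩
  · have : 0 < δ0 ^ 100 := by positivity
    simp only [lt_min_iff]
    exact ⟨⟨heR0, heR2, heR3⟩, ⟨heR11, heR14⟩, this⟩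
  intro ε Hm Hp C cd hPar hε
  simp only [le_min_iff] at hε
  obtain ⟨⟨lR0, lR2, lR3⟩, ⟨lR11, lR14⟩, lδ⟩ := hε
  intro x ρ D τ0 l r l0 r0 l1 r1 l2 r2 k0 s0 k1 s1 k2 s2 V0 VL VR P0 c hCI
  have hε0 : 0 < ε := hPar.1
  obtain ⟨δ, hδ⟩ : ∃ δ : ℝ, δ = ε ^ (1 / 100 : ℝ) := ⟨_, rfl⟩
  have hδp : 0 < δ := by rw [hδ]; exact Real.rpow_pos_of_pos hε0 _
  have hε : ε = δ ^ 100 := by
    rw [hδ, ← rp hε0 100 1 (by norm_num), Real.rpow_one]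
  have hδle : δ ≤ δ0 := by
    rw [hε] at lδ
    exact (pow_le_pow_iff_left₀ hδp.le hδ0p.le (by norm_num)).mp lδ
  have hKδ : K * δ ≤ 1 / 10 ^ 4 := by
    calc K * δ ≤ K * δ0 := mul_le_mul_of_nonneg_left hδle hKp.le
      _ = 1 / 10 ^ 4 := by rw [hδ0]; field_simp
  have h31 : 31 * δ ≤ 1 / 10 ^ 4 := le_trans (mul_le_mul_of_nonneg_right hK1 hδp.le) hKδ
  have hδ1 : δ ≤ 1 / 10 ^ 4 := by linarith
  have hS : Sm δ ε K := ⟨hδp, hδ1, hKp.le, hKδ, hε⟩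
  have hε1 := hS.e1
  -- powers
  have r59 : ε ^ (59 / 100 : ℝ) = δ ^ 59 := by rw [hδ]; exact rp hε0 59 _ (by norm_num)
  have r10 : ε ^ (1 / 10 : ℝ) = δ ^ 10 := by rw [hδ]; exact rp hε0 10 _ (by norm_num)
  have r65 : ε ^ (65 / 100 : ℝ) = δ ^ 65 := by rw [hδ]; exact rp hε0 65 _ (by norm_num)
  have r114 : ε ^ (114 / 100 : ℝ) = δ ^ 114 := by rw [hδ]; exact rp hε0 114 _ (by norm_num)
  have r116 : ε ^ (116 / 100 : ℝ) = δ ^ 116 := by rw [hδ]; exact rp hε0 116 _ (by norm_num)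
  have r120 : ε ^ (6 / 5 : ℝ) = δ ^ 120 := by rw [hδ]; exact rp hε0 120 _ (by norm_num)
  obtain ⟨e23, he23⟩ : ∃ e23, e23 = ε ^ (2 / 3 : ℝ) := ⟨_, rfl⟩
  have he230 : 0 ≤ e23 := by rw [he23]; exact Real.rpow_nonneg hε0.le _
  have he231 : 31 * e23 ≤ 1 / 10 ^ 4 * δ ^ 65 := by
    have h1 : e23 ≤ δ ^ 66 := by
      have h2 : ε ^ (66 / 100 : ℝ) = δ ^ 66 := by rw [hδ]; exact rp hε0 66 _ (by norm_num)
      rw [he23, ← h2]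
      exact Real.rpow_le_rpow_of_exponent_ge hε0 (le_trans hε1 (by norm_num)) (by norm_num)
    have h3 : δ ^ 66 = δ * δ ^ 65 := by ring
    have h4 : 31 * δ * δ ^ 65 ≤ 1 / 10 ^ 4 * δ ^ 65 := mul_le_mul_of_nonneg_right h31 (by positivity)
    rw [h3] at h1
    linarith
  -- data
  have hx := hCI.hx
  have hρe := hCI.hρ
  have hpair := hCI.pair
  have hkids := hpair.kids
  have hρ : 0 < ρ := by rw [hρe]; linarith [hkids.lt]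
  have hlaw := hCI.law
  have hDd := hlaw.dD
  have hP0 := hlaw.p0
  have hcc := hlaw.cc
  rw [r114] at hcc
  have f2 := hR2 ε Hm Hp C cd hPar lR2 1 l2 r2 k0 s0 k1 s1 k2 s2 VL VR hpair
  have f3 := hR3 ε Hm Hp C cd hPar lR3 1 l2 r2 k0 s0 k1 s1 k2 s2 VL VR hpair
  rw [← hx, ← hρe] at f2 f3
  obtain ⟨-, hJ4, hJ12, -, -, hJε⟩ := f2
  obtain ⟨fV, -, fsL, fsR, -, -⟩ := f3
  obtain ⟨p, hp⟩ : ∃ p, p = VR.N - VL.N := ⟨_, rfl⟩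
  rw [← hp] at hJ4 hJ12
  obtain ⟨J, hJ⟩ : ∃ J, J = Yf cd x ρ := ⟨_, rfl⟩
  have hJ0 : 0 < J := by
    rw [hJ]
    exact ((hP1 Hm Hp C cd).2.2.1 x ρ ρ hρ le_rfl).1
  rw [← hJ] at hJ4 hJ12 hJε
  have hp0 : 0 < p := by linarith
  have hp3 : p ≤ 12 * ε ^ 3 := by linarith
  -- R11
  have f11 := hR11 ε Hm Hp C cd hPar lR11 τ0 l r l0 r0 l1 r1 l2 r2 k0 s0 k1 s1 k2 s2 V0 hCI.c1 x ρ D hx hρe hDd
  obtain ⟨g1, goff, g3, g4, g5, g6, -, -, -, -, g11⟩ := f11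
  have hdist := fV V0 g11
  have hV0lt := V0.lt
  have hD1 : 7 / 5 * ρ ≤ D := by
    have h1 : V0.dist x ≤ D := by
      unfold Gap.dist
      refine max_le (by linarith) (max_le ?_ (by linarith))
      linarith
    linarith
  have hD0 : 0 < D := by linarith
  obtain ⟨h, hh⟩ : ∃ h, h = V0.s / 2 := ⟨_, rfl⟩
  obtain ⟨τ, hτ⟩ : ∃ τ, τ = x - V0.c := ⟨_, rfl⟩
  have hs0 : 0 < V0.s := by unfold Gap.s; linarith
  have hh0 : 0 < h := by rw [hh]; linarith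
  have hDτ : D = τ - h := by
    rw [hDd, hτ, hh, b_eq V0]; ring
  have hsh : V0.s = 2 * h := by rw [hh]; ring
  rw [← hτ, ← hh] at goff
  rw [hsh, ← he23] at g4
  rw [hsh] at g5 g6
  -- R14
  have f14 := hR14 ε Hm Hp C cd hPar lR14 x ρ D τ0 l r l0 r0 l1 r1 l2 r2 k0 s0 k1 s1 k2 s2 V0 VL VR P0 c hCI
  obtain ⟨hunit, hcL, hcR, hnL, hnR⟩ := f14
  rw [r120, ← hJ] at hnL hnR
  -- N0
  obtain ⟨n1, n2, -, -, n5, n6, -, -, -⟩ := hN0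
  obtain ⟨y, hy⟩ := n5 (VR.n - VL.n, VR.m - VL.m) hunit (VL.n - V0.n, VL.m - V0.m)
  refine ⟨y, hy, ?_⟩
  intro u t w hu ht hw
  rw [← hτ] at hw
  have hzv : ∀ V W : Gap cd, zv (V.n - W.n, V.m - W.m) = V.N - W.N := by
    intro V W
    unfold zv Gap.N
    push_cast
    ring
  have hzc : ∀ V W : Gap cd, zc (V.n - W.n, V.m - W.m) = (V.N - V.mu) - (W.N - W.mu) := by
    intro V W
    rw [(n6 cd V).2, (n6 cd W).2]
    unfold zc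
    push_cast
    ring
  have hpy : p * zv y = VL.N - V0.N := by
    have h1 := (n1 (VR.n - VL.n, VR.m - VL.m) y).1
    rw [hy, hzv, hzv] at h1
    rw [hp]
    exact h1.symm
  have hup : u * p = (VL.N - V0.N) + (VR.N - V0.N) := by
    have h2 : u * p = p + 2 * (p * zv y) := by rw [hu]; ring
    rw [h2, hpy, hp]; ring
  obtain ⟨σ, hσ⟩ : ∃ σ : ℝ, σ = (zn (VR.n - VL.n, VR.m - VL.m) : ℝ) := ⟨_, rfl⟩
  have hσ1 : σ = 1 ∨ σ = -1 := by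
    rcases (abs_eq (by norm_num : (0 : ℤ) ≤ 1)).mp hunit with h1 | h1
    · left; rw [hσ, h1]; norm_num
    · right; rw [hσ, h1]; norm_num
  have hconj : σ = p * (p - (VR.mu - VL.mu)) := by
    have h1 := n2 (VR.n - VL.n, VR.m - VL.m)
    rw [hzv, hzc] at h1
    rw [hσ, ← h1, hp]; ring
  have hσ2 : σ ^ 2 = 1 := by rcases hσ1 with h | h <;> rw [h] <;> norm_num
  have hzy : zc y = σ * p * ((VL.N - V0.N) - VL.mu + V0.mu) := by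
    have h1 := (n1 (VR.n - VL.n, VR.m - VL.m) y).2.1
    rw [hy, hzc, hzc] at h1
    have h2 : (VL.N - V0.N) - VL.mu + V0.mu = (p - (VR.mu - VL.mu)) * zc y := by
      rw [hp]
      linarith
    rw [h2]
    have h3 : σ * p * ((p - (VR.mu - VL.mu)) * zc y) = σ * (p * (p - (VR.mu - VL.mu))) * zc y := by ring
    rw [h3, ← hconj]
    linear_combination -hσ2 * zc y
  have hQ : (zn (1 + 2 * y.1, 2 * y.2) : ℝ) = u * (1 + 2 * (σ * p * ((VL.N - V0.N) - VL.mu + V0.mu))) := by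
    rw [← hzy, hu, ← n2]
    unfold zv zc
    push_cast
    ring
  -- geometry
  have hcK0 : 0 ≤ cK := by linarith
  have hε1' : ε ≤ 1 := le_trans hε1 (by norm_num)
  obtain ⟨q1, q2, -⟩ := geo (K := K) (K14 := K14) (cG := x) hε0 hε1' hρ hcK0 (by rw [hK]; linarith)
    hx hρe hkids hcL hcR
  have hke := hS.ke
  have hkee := kee hke hε0 hρ
  have hερ0 : 0 < ε * ρ := by positivity
  have hερ : ε * ρ ≤ 1 / 10 ^ 20 * ρ := mul_le_mul_of_nonneg_right hε1 hρ.le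
  have q1b := abs_le.mp q1
  have q2b := abs_le.mp q2
  rw [r59] at fsL fsR
  have h59 := hS.p8 (n := 59) (by norm_num)
  have h59ρ : δ ^ 59 * ρ ≤ 1 / 10 ^ 8 * ρ := mul_le_mul_of_nonneg_right h59 hρ.le
  have hXL : |VL.c - x| ≤ 51 / 100 * ρ := by
    rw [abs_le]; constructor <;> linarith only [q1b.1, q1b.2, q2b.1, q2b.2, hkee, hερ, hερ0, hρ]
  have hXR : |VR.c - x| ≤ 51 / 100 * ρ := by
    rw [abs_le]; constructor <;> linarith only [q1b.1, q1b.2, q2b.1, q2b.2, hkee, hερ, hερ0, hρ]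
  -- sizes
  have hn0 := abs_le.mp hkids.n0
  have hn2 := abs_le.mp hkids.n2
  rw [← hρe] at hn0 hn2
  have hcKK : cK ≤ K := by rw [hK]; linarith
  have hc3 : cK * ε ^ 3 * ρ ≤ 1 / 10 ^ 4 * (ε ^ 2 * ρ) := by
    have h1 : cK * ε ≤ 1 / 10 ^ 4 := le_trans (mul_le_mul_of_nonneg_right hcKK hε0.le) hke
    have h2 : cK * ε ^ 3 * ρ = (cK * ε) * (ε ^ 2 * ρ) := by ring
    rw [h2]
    exact mul_le_mul_of_nonneg_right h1 (by positivity)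
  have hE2 : ε ^ 2 * ρ ≤ 1 / 10 ^ 20 * (ε * ρ) := by
    have h2 : ε ^ 2 * ρ = ε * (ε * ρ) := by ring
    rw [h2]
    exact mul_le_mul_of_nonneg_right hε1 hερ0.le
  have hE20 : 0 < ε ^ 2 * ρ := by positivity
  have hk0s0 : k0 < s0 := by linarith only [hn0.1, hc3, hE2, hE20, hερ0]
  have hk2s2 : k2 < s2 := by linarith only [hn2.1, hc3, hE2, hE20, hερ0]
  obtain ⟨-, f0L⟩ := hR0 ε VL.a VL.b k0 s0 hε0 lR0 VL.lt hk0s0
  obtain ⟨-, f0R⟩ := hR0 ε VR.a VR.b k2 s2 hε0 lR0 VR.lt hk2s2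
  have wL1 := (f0L hpair.wL).1
  have wR1 := (f0R hpair.wR).1
  have eLs : VL.b - VL.a = VL.s := rfl
  have eRs : VR.b - VR.a = VR.s := rfl
  rw [eLs] at wL1
  rw [eRs] at wR1
  have hsL := szL (d := (VR.c - x) - (VL.c - x)) hε0 hε1 hρ hcK0 hcKK hke q2b.2
    (by linarith only [hn0.1] : ε * (1 + 2 * ε) * ρ - cK * ε ^ 3 * ρ ≤ s0 - k0) wL1
  have hsR := szR (d := (VR.c - x) - (VL.c - x)) hε0 hε1 hρ hcK0 hcKK hke q2b.2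
    (by linarith only [hn2.1] : ε * (1 - 2 * ε) * ρ - cK * ε ^ 3 * ρ ≤ s2 - k2) wR1
  -- kappa
  obtain ⟨κ, hκ⟩ : ∃ κ, κ = (D + 3 / 5 * ρ) / (D - ρ) := ⟨_, rfl⟩
  obtain ⟨hκ1, hκ5⟩ := kap hρ hD1 hκ
  obtain ⟨hκπ0, hκπ, hκπ1⟩ := kpi hκ1 hκ5
  have hK14' : K14 * δ ^ 120 * J ≤ 1 / 1000 * (δ ^ 116 * p) := by
    have h5 : K14 * δ ≤ 1 / 10 ^ 4 := le_trans (mul_le_mul_of_nonneg_right (by rw [hK]; linarith) hδp.le) hKδ
    have h6 : K14 * δ ^ 120 = (K14 * δ) * δ ^ 119 := by ring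
    have h7 : δ ^ 119 ≤ δ ^ 116 := pw hδp hδ1 (by norm_num)
    have h8 : K14 * δ ^ 120 ≤ 1 / 10 ^ 4 * δ ^ 116 := by
      rw [h6]
      exact mul_le_mul h5 h7 (by positivity) (by norm_num)
    have h9 : K14 * δ ^ 120 * J ≤ 1 / 10 ^ 4 * δ ^ 116 * (4 * p) :=
      mul_le_mul h8 hJ4 hJ0.le (by positivity)
    have h10 : 0 < δ ^ 116 * p := by positivity
    linarith
  have hsmallJ : δ ^ 116 * J ≤ 4 * (δ ^ 116 * p) := by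
    have := mul_le_mul_of_nonneg_left hJ4 (show 0 ≤ δ ^ 116 by positivity)
    linarith
  have lawV : ∀ V : Gap cd, V.s ≤ δ ^ 59 * ρ → |V.c - x| ≤ 51 / 100 * ρ → nn x ρ V ≤ K14 * δ ^ 120 * J →
      |V.N - V0.N - P0 * (Real.sqrt ((τ + (V.c - x)) ^ 2 - h ^ 2) * (1 + c * (V.c - x)))| ≤ 5 * δ ^ 116 * p ∧
      P0 * ((τ + (V.c - x)) / Real.sqrt ((τ + (V.c - x)) ^ 2 - h ^ 2) * (1 + c * (V.c - x)) +
        Real.sqrt ((τ + (V.c - x)) ^ 2 - h ^ 2) * c) - 11 * δ ^ 116 * p / ρ ≤ V.kk := by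
    intro V hVs hVx hVn
    have hb := abs_le.mp hVx
    have hva := a_eq V
    have hvb := b_eq V
    have hl := hlaw.law V (by linarith only [hva, hb.1, hVs, h59ρ, hρ]) (by linarith only [hvb, hb.2, hVs, h59ρ, hρ])
      (by rw [r59]; exact hVs)
    rw [UU_eq, UD_eq, r116, ← hJ, ← hτ, ← hh, ← hκ] at hl
    obtain ⟨hl1, hl2⟩ := hl
    have hA : |V.N - V0.N - P0 * (Real.sqrt ((τ + (V.c - x)) ^ 2 - h ^ 2) * (1 + c * (V.c - x)))| ≤ 5 * δ ^ 116 * p := by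
      refine le_trans hl1 ?_
      have h1 : κ / Real.pi * nn x ρ V ≤ 160 / 100 * (K14 * δ ^ 120 * J) :=
        mul_le_mul hκπ hVn (nn_nonneg x ρ V) (by norm_num)
      have h2 : 0 < δ ^ 116 * p := by positivity
      linarith only [h1, h2, hK14', hsmallJ]
    refine ⟨hA, ?_⟩
    refine le_trans ?_ hl2
    have h1 : 5 / 4 * |V.N - V0.N - P0 * (Real.sqrt ((τ + (V.c - x)) ^ 2 - h ^ 2) * (1 + c * (V.c - x)))| / ρ +
        δ ^ 116 * J / ρ ≤ 11 * δ ^ 116 * p / ρ := by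
      rw [← add_div]
      apply div_le_div_of_nonneg_right _ hρ.le
      have h2 : 0 < δ ^ 116 * p := by positivity
      linarith only [hA, hsmallJ, h2]
    linarith only [h1]
  obtain ⟨lL, kL⟩ := lawV VL fsL hXL hnL
  obtain ⟨lR, kR⟩ := lawV VR fsR hXR hnR
  -- Q4
  obtain ⟨Q41, Q42, -⟩ := hQ4 ε Hm Hp C cd hPar (le_trans hε1 (by norm_num))
  have hkk0 : 0 ≤ V0.kk := by
    obtain ⟨h1, -, -⟩ := hP3 Hm Hp C cd V0.a V0.b V0.N V0.lt V0.lab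
    have h2 : V0.c ∈ Ioo V0.a V0.b := by
      unfold Gap.c
      exact ⟨by linarith, by linarith⟩
    exact (h1 V0.c h2).2.1.le
  have hXLb := abs_le.mp hXL
  have hXRb := abs_le.mp hXR
  obtain ⟨h16, -⟩ := wb (w := w) hε0 hh0 hDτ hD0 g3 g4 g5 (by
    have := hS.p8 (n := 65) (by norm_num)
    linarith only [this, he231]) hw
  have hρh : ρ ≤ 1 / 1000 * h := by
    have h1 : ε * h ≤ 1 / 10 ^ 20 * h := mul_le_mul_of_nonneg_right hε1 hh0.le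
    linarith only [g5, h1, hh0]
  have NcL : |VL.N - V0.N| ≤ 7 * Real.sqrt ((115 / 100 * h) ^ 2 + V0.s ^ 2 / 4) * V0.kk := by
    rw [← Nc VL]
    apply Q41 V0 (115 / 100 * h) VL.c (by positivity)
    have e : VL.c - V0.c = τ + (VL.c - x) := by rw [hτ]; ring
    rw [e, abs_le]
    constructor <;> linarith only [hXLb.1, hXLb.2, h16, hρh, hDτ, hD0, hh0, hρ]
  have NcR : |VR.N - V0.N| ≤ 7 * Real.sqrt ((115 / 100 * h) ^ 2 + V0.s ^ 2 / 4) * V0.kk := by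
    rw [← Nc VR]
    apply Q41 V0 (115 / 100 * h) VR.c (by positivity)
    have e : VR.c - V0.c = τ + (VR.c - x) := by rw [hτ]; ring
    rw [e, abs_le]
    constructor <;> linarith only [hXRb.1, hXRb.2, h16, hρh, hDτ, hD0, hh0, hρ]
  have hm0 : |V0.mu| * (u * p) ≤ 6 * ε := by
    rw [hup]
    exact m0b hε0 hε1 hh hh0 hkk0 (abs_nonneg _) (Q42 V0) NcL NcR
  have hsLp : 0 < VL.s := by unfold Gap.s; linarith [VL.lt]
  have hsRp : 0 < VR.s := by unfold Gap.s; linarith [VR.lt]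
  have fin := core hL1 hL2 hS hρ hh0 hDτ hD1 goff g3 g4 g5 g6 he230 he231 hw ht q1 q2 hcc hP0
    (by rw [hp]; ring : p = (VR.N - V0.N) - (VL.N - V0.N)) hp0 hup lL lR kL kR hsLp hsRp hsL hsR
    (Q42 VL) (Q42 VR) hp3 hm0 hσ1 hconj hQ
  rw [r65, r10, ← hp]
  exact fin

end

end Pool.Agent.Helper8.CV.R15
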