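import Pool.Agent.Helper8.CV.R16C

set_option autoImplicit false

namespace Pool.Agent.Helper8.CV.R16

open Complex Filter Topology MeasureTheory Set
open Pool.Agent.Helper36.CV

noncomputable section

lemma nn_nonneg {Hm Hp : ℝ} {C : Set ℝ} {cd : CD Hm Hp C} (x ρ : ℝ) (V : Gap cd) : 0 ≤ nn x ρ V := by
  unfold nn
  refine setIntegral_nonneg measurableSet_Icc (fun t _ => ?_)
  exact div_nonneg (cd.im_nonneg t) (abs_nonneg _)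

lemma UU_eq {Hm Hp : ℝ} {C : Set ℝ} {cd : CD Hm Hp C} (V0 : Gap cd) (x P0 c t : ℝ) :
    UU V0 x P0 (P0 * c) t =
      P0 * (Real.sqrt ((x - V0.c + (t - x)) ^ 2 - (V0.s / 2) ^ 2) * (1 + c * (t - x))) := by
  unfold UU
  have : x - V0.c + (t - x) = t - V0.c := by ring
  rw [this]
  ring

lemma UD_eq {Hm Hp : ℝ} {C : Set ℝ} {cd : CD Hm Hp C} (V0 : Gap cd) (x P0 c t : ℝ) :
    UD V0 x P0 (P0 * c) t =
      P0 * ((x - V0.c + (t - x)) / Real.sqrt ((x - V0.c + (t - x)) ^ 2 - (V0.s / 2) ^ 2) * (1 + c * (t - x)) +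
        Real.sqrt ((x - V0.c + (t - x)) ^ 2 - (V0.s / 2) ^ 2) * c) := by
  unfold UD
  have : x - V0.c + (t - x) = t - V0.c := by ring
  rw [this]
  ring

lemma Nc {Hm Hp : ℝ} {C : Set ℝ} {cd : CD Hm Hp C} (V : Gap cd) : Nf cd V.c = V.N := by
  have h := V.lt
  exact V.lab V.c ⟨by unfold Gap.c; linarith, by unfold Gap.c; linarith⟩

lemma a_eq {Hm Hp : ℝ} {C : Set ℝ} {cd : CD Hm Hp C} (V : Gap cd) : V.a = V.c - V.s / 2 := by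
  unfold Gap.c Gap.s; ring

lemma b_eq {Hm Hp : ℝ} {C : Set ℝ} {cd : CD Hm Hp C} (V : Gap cd) : V.b = V.c + V.s / 2 := by
  unfold Gap.c Gap.s; ring

/-- geometry of the children -/
lemma geo {ε cK K K14 x ρ l2 r2 k0 s0 k1 s1 k2 s2 cL cR cG : ℝ} (hε : 0 < ε) (hε1 : ε ≤ 1) (hρ : 0 < ρ)
    (hcK : 0 ≤ cK)
    (hK : 2 + 2 * K14 + 2 * cK ≤ K) (hx : x = (l2 + r2) / 2) (hr : ρ = r2 - l2)
    (hk : Kids ε cK 1 l2 r2 k0 s0 k1 s1 k2 s2)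
    (hL : |cL - (k0 + s0) / 2| ≤ K14 * ε ^ 2 * ρ) (hR : |cR - (k2 + s2) / 2| ≤ K14 * ε ^ 2 * ρ) :
    |(cL - x) + (cR - x)| ≤ K * ε ^ 2 * ρ ∧ |(cR - x) - (cL - x) - (1 - ε) * ρ| ≤ K * ε ^ 2 * ρ ∧
    |(cG - x) - ((cL - x) + (cR - x)) / 2 - (cG - (k1 + s1) / 2) - 3 / 4 * ε * ρ| ≤ K * ε ^ 2 * ρ := by
  have h0 := abs_le.mp hk.n0
  have h2 := abs_le.mp hk.n2
  have hc := abs_le.mp hk.c1
  have hL' := abs_le.mp hL
  have hR' := abs_le.mp hR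
  rw [← hr] at h0 h2 hc
  have e0 := hk.e0
  have e2 := hk.e2
  have h3 : cK * ε ^ 3 * ρ ≤ cK * ε ^ 2 * ρ := by
    have : ε ^ 3 ≤ ε ^ 2 := pow_le_pow_of_le_one hε.le hε1 (by norm_num)
    have h4 : cK * ε ^ 3 ≤ cK * ε ^ 2 := mul_le_mul_of_nonneg_left this hcK
    exact mul_le_mul_of_nonneg_right h4 hρ.le
  have hE : 0 < ε ^ 2 * ρ := by positivity
  have hKK : (2 + 2 * K14 + 2 * cK) * (ε ^ 2 * ρ) ≤ K * (ε ^ 2 * ρ) := mul_le_mul_of_nonneg_right hK hE.le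
  have hcKE : 0 ≤ cK * (ε ^ 2 * ρ) := by positivity
  have hk0 : k0 = x - ρ / 2 := by rw [e0, hx, hr]; ring
  have hs2 : s2 = x + ρ / 2 := by rw [e2, hx, hr]; ring
  have hxx : (r2 + l2) / 2 = x := by rw [hx]; ring
  rw [hxx] at hc
  obtain ⟨h01, h02⟩ := h0
  obtain ⟨h21, h22⟩ := h2
  obtain ⟨hc1, hc2⟩ := hc
  obtain ⟨hL1, hL2⟩ := hL'
  obtain ⟨hR1, hR2⟩ := hR'
  refine ⟨?_, ?_, ?_⟩
  · rw [abs_le]; constructor <;> nlinarith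
  · rw [abs_le]; constructor <;> nlinarith
  · rw [abs_le]; constructor <;> nlinarith

lemma part5full {δ ε K ρ h τ D c XL XR XG P0 NL NR NG J nG κ u w p kk mu s : ℝ}
    (hS : Sm δ ε K)
    (hρ : 0 < ρ) (hh0 : 0 ≤ h) (hD : D = τ - h) (hD1 : 7 / 5 * ρ ≤ D) (h6 : 6 * D ≤ h)
    (hw : w = ρ / (2 * ε * τ)) (hw1 : 87 / 100 ≤ w) (hw2 : w ≤ 115 / 100) (hu0 : 0 < u)
    (q1 : |XL + XR| ≤ K * ε ^ 2 * ρ) (q2 : |XR - XL - (1 - ε) * ρ| ≤ K * ε ^ 2 * ρ)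
    (hXG : |XG| ≤ δ ^ 50 * ρ) (hXL : |XL| ≤ 51 / 100 * ρ) (hXR : |XR| ≤ 51 / 100 * ρ)
    (hc : |c| * ρ ≤ δ ^ 114)
    (hP0 : 0 < P0) (hp : p = NR - NL) (hp0 : 0 < p)
    (hκπ : κ / Real.pi ≤ 160 / 100) (hJ : J ≤ 4 * p) (hnG0 : 0 ≤ nG) (hnG1 : nG ≤ δ ^ 19 * p)
    (hLL : |NL - P0 * (Real.sqrt ((τ + XL) ^ 2 - h ^ 2) * (1 + c * XL))| ≤ 5 * δ ^ 116 * p)
    (hRR : |NR - P0 * (Real.sqrt ((τ + XR) ^ 2 - h ^ 2) * (1 + c * XR))| ≤ 5 * δ ^ 116 * p)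
    (hGG : |NG - P0 * (Real.sqrt ((τ + XG) ^ 2 - h ^ 2) * (1 + c * XG))| ≤ κ / Real.pi * nG + δ ^ 116 * J)
    (lGk : P0 * ((τ + XG) / Real.sqrt ((τ + XG) ^ 2 - h ^ 2) * (1 + c * XG) +
        Real.sqrt ((τ + XG) ^ 2 - h ^ 2) * c) -
        5 / 4 * |NG - P0 * (Real.sqrt ((τ + XG) ^ 2 - h ^ 2) * (1 + c * XG))| / ρ -
        δ ^ 116 * J / ρ ≤ kk)
    (hu8 : u ≤ 4 * (D / ρ + 3 / 5) * (1 + δ ^ 10)) (hmu : 0 ≤ mu) (hs : 0 ≤ s)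
    (hQ : mu * kk * s ≤ ε / 2 * (1 + 98 * ε)) :
    p * mu * s ≤ ε / 2 * ρ * (1 + 2 / u ^ 2 + δ ^ 10 + 4 * (nG / p)) := by
  have hε0 := hS.e0
  have hε1 := hS.e1
  have hδp := hS.p
  have hδ1 := hS.d1
  have hD0 : 0 < D := by linarith
  have hτ0 : 0 < τ := by linarith
  obtain ⟨hτ1, hτ2⟩ := tau1 hε0 hτ0 hw hw1 hw2
  have hτ3 := tau2 hε1 hτ0 hτ1
  have hcτ := ctau hδp hS.e hτ2 hc
  obtain ⟨hd1, hd2⟩ := dd1 hS.ke hε0 hρ q2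
  have hkee := kee hS.ke hε0 hρ
  have hερ0 : 0 < ε * ρ := by positivity
  have hερ : ε * ρ ≤ 1 / 10 ^ 20 * ρ := mul_le_mul_of_nonneg_right hε1 hρ.le
  have hd0 : 0 < XR - XL := by linarith
  obtain ⟨v, hv⟩ : ∃ v, v = ρ / D := ⟨_, rfl⟩
  have hv1 : v ≤ 5 / 7 := by rw [hv, div_le_iff₀ hD0]; linarith
  have hv0 : 0 < v := by rw [hv]; positivity
  have hz1 : v ^ 2 ≤ 25 / 49 := by nlinarith
  have hmb := mbound hS hρ q1 hXG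
  have h50 := hS.p8 (n := 50) (by norm_num)
  have h50ρ : δ ^ 50 * ρ ≤ 1 / 10 ^ 8 * ρ := mul_le_mul_of_nonneg_right h50 hρ.le
  have hXLb := abs_le.mp hXL
  have hXRb := abs_le.mp hXR
  have hXGb := abs_le.mp hXG
  have q1b := abs_le.mp q1
  have hXL0 : 0 < τ + XL - h := by linarith
  have hsqL : 0 ≤ (τ + XL) ^ 2 - h ^ 2 := by
    have : (τ + XL) ^ 2 - h ^ 2 = (τ + XL - h) * (τ + XL + h) := by ring
    rw [this]
    exact mul_nonneg hXL0.le (by linarith)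
  have hsqR : 0 ≤ (τ + XR) ^ 2 - h ^ 2 := by
    have : (τ + XR) ^ 2 - h ^ 2 = (τ + XR - h) * (τ + XR + h) := by ring
    rw [this]
    exact mul_nonneg (by linarith) (by linarith)
  have hsqG : 0 < (τ + XG) ^ 2 - h ^ 2 := by
    have : (τ + XG) ^ 2 - h ^ 2 = (τ + XG - h) * (τ + XG + h) := by ring
    rw [this]
    exact mul_pos (by linarith) (by linarith)
  have hLR : Real.sqrt ((τ + XL) ^ 2 - h ^ 2) ≤ Real.sqrt ((τ + XR) ^ 2 - h ^ 2) := by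
    apply Real.sqrt_le_sqrt
    have : (τ + XL) ^ 2 ≤ (τ + XR) ^ 2 := pow_le_pow_left₀ (by linarith) (by linarith) 2
    linarith
  have a1 : (1 - 1 / 10 ^ 6) * D ≤ τ + (XL + XR) / 2 - h := by linarith [q1b.1, q1b.2]
  have a2 : τ + (XL + XR) / 2 - h ≤ 101 / 100 * D := by linarith [q1b.1, q1b.2]
  have a3 : |τ + (XL + XR) / 2 - τ| ≤ 1 / 100 * ρ := by
    rw [abs_le]; constructor <;> linarith [q1b.1, q1b.2]
  have a4 : |τ + XG - (τ + (XL + XR) / 2)| ≤ 102 / 100 * δ ^ 50 * ρ := by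
    have e : τ + XG - (τ + (XL + XR) / 2) = XG - (XL + XR) / 2 := by ring
    rw [e]; exact hmb
  have a5 : |XL| ≤ ρ := by linarith
  have a6 : |XR| ≤ ρ := by linarith
  have a7 : |XG| ≤ ρ := by linarith
  have b1 : Real.sqrt ((τ + XL) ^ 2 - h ^ 2) ^ 2 = (τ + (XL + XR) / 2 - (XR - XL) / 2) ^ 2 - h ^ 2 := by
    rw [Real.sq_sqrt hsqL]; ring
  have b2 : Real.sqrt ((τ + XR) ^ 2 - h ^ 2) ^ 2 = (τ + (XL + XR) / 2 + (XR - XL) / 2) ^ 2 - h ^ 2 := by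
    rw [Real.sq_sqrt hsqR]; ring
  have sl := slope2 (c := c) hδp hδ1 hρ hD1 h6 hτ3 a1 a2 hd0 hd2 hv rfl a3 a4
    (Real.sqrt_nonneg _) hLR (Real.sqrt_pos.mpr hsqG) b1 b2 (Real.sq_sqrt hsqG.le)
    rfl rfl a5 a6 a7 hcτ
  have hLLb := abs_le.mp hLL
  have hRRb := abs_le.mp hRR
  obtain ⟨n, hn⟩ : ∃ n, n = nG / p := ⟨_, rfl⟩
  have hn0 : 0 ≤ n := by rw [hn]; exact div_nonneg hnG0 hp0.le
  have hn1' : n ≤ δ ^ 19 := by rw [hn, div_le_iff₀ hp0]; exact hnG1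
  have hnp : n * p = nG := by rw [hn]; field_simp
  have c1 : p * (1 - 10 * δ ^ 116) ≤ P0 * (Real.sqrt ((τ + XR) ^ 2 - h ^ 2) * (1 + c * XR) -
      Real.sqrt ((τ + XL) ^ 2 - h ^ 2) * (1 + c * XL)) := by
    have e : P0 * (Real.sqrt ((τ + XR) ^ 2 - h ^ 2) * (1 + c * XR) -
      Real.sqrt ((τ + XL) ^ 2 - h ^ 2) * (1 + c * XL)) =
      P0 * (Real.sqrt ((τ + XR) ^ 2 - h ^ 2) * (1 + c * XR)) -
      P0 * (Real.sqrt ((τ + XL) ^ 2 - h ^ 2) * (1 + c * XL)) := by ring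
    rw [e]
    have e2 : p * (1 - 10 * δ ^ 116) = (NR - NL) - 5 * δ ^ 116 * p - 5 * δ ^ 116 * p := by rw [← hp]; ring
    rw [e2]
    linarith only [hLLb.1, hLLb.2, hRRb.1, hRRb.2]
  have c2 : P0 * ((τ + XG) / Real.sqrt ((τ + XG) ^ 2 - h ^ 2) * (1 + c * XG) +
        Real.sqrt ((τ + XG) ^ 2 - h ^ 2) * c) - 5 / 4 * (κ / Real.pi * nG + δ ^ 116 * J) / ρ - δ ^ 116 * J / ρ ≤ kk := by
    refine le_trans ?_ lGk
    have h1 : 5 / 4 * |NG - P0 * (Real.sqrt ((τ + XG) ^ 2 - h ^ 2) * (1 + c * XG))| / ρ ≤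
        5 / 4 * (κ / Real.pi * nG + δ ^ 116 * J) / ρ := by
      apply div_le_div_of_nonneg_right _ hρ.le
      linarith only [hGG]
    linarith only [h1]
  have hlow := kklow hδp
    (hS.p8 (by norm_num)) (hS.p8 (by norm_num)) hρ hp0 hP0 (sq_nonneg v) hz1
    c1 sl c2 hJ hκπ hnp hn0
  have hub := ubound hρ hD1 hv hu0 (by positivity) (hS.p8 (n := 10) (by norm_num)) hu8
  have P5 := part5 hS hρ rfl hz1 hn0 hn1' hub hmu hs hlow hQ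
  rw [hn] at P5
  exact P5

theorem st_R16 (hP1 : ST_P1) (hQ4 : ST_Q4) (hQ8 : ST_Q8) (hR0 : ST_R0) (hR2 : ST_R2) (hR3 : ST_R3)
    (hR4 : ST_R4) (hN0 : ST_N0) (hL4 : ST_L4) (hR11 : ST_R11) (hR14 : ST_R14) (hR15 : ST_R15) : ST_R16 := by
  intro cK hcK
  obtain ⟨eQ8, heQ8, hQ8⟩ := hQ8
  obtain ⟨eR0, heR0, hR0⟩ := hR0
  obtain ⟨eR2, heR2, hR2⟩ := hR2 cK hcK
  obtain ⟨eR3, heR3, hR3⟩ := hR3 cK hcK
  obtain ⟨K4, eR4, hK4, heR4, hR4⟩ := hR4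
  obtain ⟨eR11, heR11, hR11⟩ := hR11 cK hcK
  obtain ⟨K14, eR14, hK14, heR14, hR14⟩ := hR14 cK hcK
  obtain ⟨eR15, heR15, hR15⟩ := hR15 cK hcK
  obtain ⟨K, hK⟩ : ∃ K, K = 2 + 2 * K14 + 2 * cK + K4 := ⟨_, rfl⟩
  have hK1 : 1 ≤ K := by rw [hK]; linarith
  have hKp : 0 < K := by linarith
  obtain ⟨δ0, hδ0⟩ : ∃ δ0 : ℝ, δ0 = 1 / (10 ^ 4 * K) := ⟨_, rfl⟩
  have hδ0p : 0 < δ0 := by rw [hδ0]; positivity
  refine ⟨min (min (min eQ8 eR0) (min eR2 eR3)) (min (min (min eR4 eR11) (min eR14 eR15)) (δ0 ^ 100)), ?_, ?_⟩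
  · have : 0 < δ0 ^ 100 := by positivity
    simp only [lt_min_iff]
    exact ⟨⟨⟨heQ8, heR0⟩, heR2, heR3⟩, ⟨⟨heR4, heR11⟩, heR14, heR15⟩, this⟩
  intro ε Hm Hp C cd hPar hε
  simp only [le_min_iff] at hε
  obtain ⟨⟨⟨lQ8, lR0⟩, lR2, lR3⟩, ⟨⟨lR4, lR11⟩, lR14, lR15⟩, lδ⟩ := hε
  intro x ρ D τ0 l r l0 r0 l1 r1 l2 r2 k0 s0 k1 s1 k2 s2 V0 VL VR P0 c hCI G hW u t w p α hp hup ht hw hαp
  have hε0 : 0 < ε := hPar.1
  obtain ⟨δ, hδ⟩ : ∃ δ : ℝ, δ = ε ^ (1 / 100 : ℝ) := ⟨_, rfl⟩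
  have hδp : 0 < δ := by rw [hδ]; exact Real.rpow_pos_of_pos hε0 _
  have hε : ε = δ ^ 100 := by
    rw [hδ, ← rp hε0 100 1 (by norm_num), Real.rpow_one]
  have hδle : δ ≤ δ0 := by
    rw [hε] at lδ
    exact (pow_le_pow_iff_left₀ hδp.le hδ0p.le (by norm_num)).mp lδ
  have hKδ : K * δ ≤ 1 / 10 ^ 4 := by
    calc K * δ ≤ K * δ0 := mul_le_mul_of_nonneg_left hδle hKp.le
      _ = 1 / 10 ^ 4 := by rw [hδ0]; field_simp
  have hδ1 : δ ≤ 1 / 10 ^ 4 := by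
    refine le_trans ?_ hKδ
    nlinarith
  have hS : Sm δ ε K := ⟨hδp, hδ1, hKp.le, hKδ, hε⟩
  have hε1 := hS.e1
  -- powers
  have r59 : ε ^ (59 / 100 : ℝ) = δ ^ 59 := by rw [hδ]; exact rp hε0 59 _ (by norm_num)
  have r12 : ε ^ (12 / 100 : ℝ) = δ ^ 12 := by rw [hδ]; exact rp hε0 12 _ (by norm_num)
  have r50 : ε ^ (1 / 2 : ℝ) = δ ^ 50 := by rw [hδ]; exact rp hε0 50 _ (by norm_num)
  have r10 : ε ^ (1 / 10 : ℝ) = δ ^ 10 := by rw [hδ]; exact rp hε0 10 _ (by norm_num)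
  have r114 : ε ^ (114 / 100 : ℝ) = δ ^ 114 := by rw [hδ]; exact rp hε0 114 _ (by norm_num)
  have r116 : ε ^ (116 / 100 : ℝ) = δ ^ 116 := by rw [hδ]; exact rp hε0 116 _ (by norm_num)
  have r120 : ε ^ (6 / 5 : ℝ) = δ ^ 120 := by rw [hδ]; exact rp hε0 120 _ (by norm_num)
  -- data
  have hx := hCI.hx
  have hρe := hCI.hρ
  have hpair := hCI.pair
  have hkids := hpair.kids
  have hρ : 0 < ρ := by rw [hρe]; linarith [hkids.lt]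
  have hlaw := hCI.law
  have hDd := hlaw.dD
  have hP0 := hlaw.p0
  have hcc := hlaw.cc
  rw [r114] at hcc
  -- R2, R3
  have f2 := hR2 ε Hm Hp C cd hPar lR2 1 l2 r2 k0 s0 k1 s1 k2 s2 VL VR hpair
  have f3 := hR3 ε Hm Hp C cd hPar lR3 1 l2 r2 k0 s0 k1 s1 k2 s2 VL VR hpair
  rw [← hx, ← hρe] at f2 f3
  obtain ⟨-, hJ4, -⟩ := f2
  obtain ⟨fV, fReg, fsL, fsR, -, -⟩ := f3
  rw [← hp] at hJ4
  obtain ⟨J, hJ⟩ : ∃ J, J = Yf cd x ρ := ⟨_, rfl⟩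
  have hJ0 : 0 < J := by
    rw [hJ]
    exact ((hP1 Hm Hp C cd).2.2.1 x ρ ρ hρ le_rfl).1
  rw [← hJ] at hJ4
  have hp0 : 0 < p := by linarith
  -- R11
  have f11 := hR11 ε Hm Hp C cd hPar lR11 τ0 l r l0 r0 l1 r1 l2 r2 k0 s0 k1 s1 k2 s2 V0 hCI.c1 x ρ D hx hρe hDd
  obtain ⟨g1, -, g3, -, g5, -, -, -, -, -, g11⟩ := f11
  have hdist := fV V0 g11
  have hV0lt := V0.lt
  have hD1 : 7 / 5 * ρ ≤ D := by
    have h1 : V0.dist x ≤ D := by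
      unfold Gap.dist
      refine max_le (by linarith) (max_le ?_ (by linarith))
      linarith
    linarith
  have hD0 : 0 < D := by linarith
  obtain ⟨h, hh⟩ : ∃ h, h = V0.s / 2 := ⟨_, rfl⟩
  obtain ⟨τ, hτ⟩ : ∃ τ, τ = x - V0.c := ⟨_, rfl⟩
  have hs0 : 0 < V0.s := by unfold Gap.s; linarith
  have hh0 : 0 < h := by rw [hh]; linarith
  have hDτ : D = τ - h := by
    rw [hDd, hτ, hh, b_eq V0]; ring
  have h6 : 6 * D ≤ h := by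
    have h1 : D * (16 * ε) ≤ ρ := by
      rw [le_div_iff₀ (by positivity)] at g3
      exact g3
    have h2 : D * (16 * ε) ≤ 115 / 100 * (ε * (2 * h)) := by
      refine le_trans h1 (le_trans g5 (le_of_eq ?_))
      rw [hh]; ring
    have h3 : (16 * D) * ε ≤ (23 / 10 * h) * ε := by linarith
    have h4 := le_of_mul_le_mul_right h3 hε0
    linarith
  -- R14
  have f14 := hR14 ε Hm Hp C cd hPar lR14 x ρ D τ0 l r l0 r0 l1 r1 l2 r2 k0 s0 k1 s1 k2 s2 V0 VL VR P0 c hCI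
  obtain ⟨-, hcL, hcR, hnL, hnR⟩ := f14
  rw [r120, ← hJ] at hnL hnR
  -- R15
  have f15 := hR15 ε Hm Hp C cd hPar lR15 x ρ D τ0 l r l0 r0 l1 r1 l2 r2 k0 s0 k1 s1 k2 s2 V0 VL VR P0 c hCI
  obtain ⟨y, hy, f15⟩ := f15
  obtain ⟨n1, -, -, -, -, n6, -, -, -⟩ := hN0
  have hzv : ∀ V W : Gap cd, zv (V.n - W.n, V.m - W.m) = V.N - W.N := by
    intro V W
    unfold zv Gap.N
    push_cast
    ring
  have hpy : p * zv y = VL.N - V0.N := by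
    have h1 := (n1 (VR.n - VL.n, VR.m - VL.m) y).1
    rw [hy, hzv, hzv] at h1
    rw [hp]
    exact h1.symm
  have huy : u = 1 + 2 * zv y := by
    have h1 : u * p = (1 + 2 * zv y) * p := by
      have h2 : (1 + 2 * zv y) * p = p + 2 * (p * zv y) := by ring
      rw [hup, h2, hpy, hp]; ring
    exact mul_right_cancel₀ hp0.ne' h1
  obtain ⟨-, -, hu5, hw1, hw2, -, -, hu8, -⟩ := f15 u t w huy ht hw
  rw [r10] at hu8
  rw [← hτ] at hw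
  have hu0 : 0 < u := by linarith
  -- geometry
  have hcK0 : 0 ≤ cK := by linarith
  have hε1' : ε ≤ 1 := le_trans hε1 (by norm_num)
  obtain ⟨q1, q2, q3⟩ := geo (K := K) (K14 := K14) (cG := G.c) hε0 hε1' hρ hcK0 (by rw [hK]; linarith)
    hx hρe hkids hcL hcR
  have hke := hS.ke
  have hkee := kee hke hε0 hρ
  have hερ0 : 0 < ε * ρ := by positivity
  have hερ : ε * ρ ≤ 1 / 10 ^ 20 * ρ := mul_le_mul_of_nonneg_right hε1 hρ.le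
  have hcKε : cK * ε ≤ 1 / 10 ^ 4 := by
    refine le_trans (mul_le_mul_of_nonneg_right ?_ hε0.le) hke
    rw [hK]; linarith
  -- size of the middle child
  have hn1' := abs_le.mp hkids.n1
  rw [← hρe] at hn1'
  have hE2 : 0 < ε ^ 2 * ρ := by positivity
  have hcK3 : cK * ε ^ 3 * ρ ≤ 1 / 10 ^ 4 * (ε ^ 2 * ρ) := by
    have : cK * ε ^ 3 * ρ = (cK * ε) * (ε ^ 2 * ρ) := by ring
    rw [this]
    exact mul_le_mul_of_nonneg_right hcKε hE2.le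
  have hsk1 : 39999 / 10000 * (ε ^ 2 * ρ) ≤ s1 - k1 := by linarith [hn1'.1]
  have hsk2 : s1 - k1 ≤ 40001 / 10000 * (ε ^ 2 * ρ) := by linarith [hn1'.2]
  have hk1s1 : k1 < s1 := by linarith
  obtain ⟨-, f0⟩ := hR0 ε G.a G.b k1 s1 hε0 lR0 G.lt hk1s1
  obtain ⟨w1, w2, w3, -⟩ := f0 hW
  have hGs : 39 / 10 * ε ^ 2 * ρ ≤ G.s := by
    have h1 : (1 - 26 / 10 * ε) * (39999 / 10000 * (ε ^ 2 * ρ)) ≤ (1 - 26 / 10 * ε) * (s1 - k1) :=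
      mul_le_mul_of_nonneg_left hsk1 (by linarith)
    have h2 : ε * (ε ^ 2 * ρ) ≤ 1 / 10 ^ 20 * (ε ^ 2 * ρ) := mul_le_mul_of_nonneg_right hε1 hE2.le
    have h3 : G.s = G.b - G.a := rfl
    rw [h3]
    linarith
  have hsmall : (s1 - k1) / (16 * ε) ≤ 3 / 10 * (ε * ρ) := by
    rw [div_le_iff₀ (by positivity)]
    have : 3 / 10 * (ε * ρ) * (16 * ε) = 48 / 10 * (ε ^ 2 * ρ) := by ring
    rw [this]; linarith
  have hc1 := abs_le.mp hkids.c1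
  rw [← hρe] at hc1
  have hxx : (r2 + l2) / 2 = x := by rw [hx]; ring
  have hkk1 : (s1 + k1) / 2 = (k1 + s1) / 2 := by ring
  rw [hxx, hkk1] at hc1
  have hcK2 : cK * ε ^ 2 * ρ ≤ 1 / 10 ^ 4 * (ε * ρ) := by
    have : cK * ε ^ 2 * ρ = (cK * ε) * (ε * ρ) := by ring
    rw [this]
    exact mul_le_mul_of_nonneg_right hcKε hερ0.le
  have hGa : G.a ≤ x + 2 * (ε * ρ) := by linarith [hc1.2]
  have hGb : x - 2 * (ε * ρ) ≤ G.b := by linarith [hc1.1]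
  have hmeet : G.Meets x ρ := ⟨by linarith, by linarith⟩
  have hρρ : ρ ≤ ε ^ (-(21 / 20) : ℝ) * ρ := by
    have h1 : 1 ≤ ε ^ (-(21 / 20) : ℝ) := Real.one_le_rpow_of_pos_of_le_one_of_nonpos hε0 hε1' (by norm_num)
    have := mul_le_mul_of_nonneg_right h1 hρ.le
    linarith
  have f8 := hQ8 ε Hm Hp C cd hPar lQ8 x ρ ρ ρ hρ le_rfl le_rfl hρρ fReg
  have hGs2 := f8.2.1 G hmeet
  have hGs2' := hGs2
  rw [r59] at hGs2 fsL fsR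
  have e59 : δ ^ 59 ≤ 1 / 10 ^ 4 * δ ^ 50 := pw1 hδp hδ1 (by norm_num)
  have e100 : ε ≤ 1 / 10 ^ 4 * δ ^ 50 := by rw [hε]; exact pw1 hδp hδ1 (by norm_num)
  have e59ρ : δ ^ 59 * ρ ≤ 1 / 10 ^ 4 * (δ ^ 50 * ρ) := by
    have := mul_le_mul_of_nonneg_right e59 hρ.le
    linarith
  have e100ρ : ε * ρ ≤ 1 / 10 ^ 4 * (δ ^ 50 * ρ) := by
    have := mul_le_mul_of_nonneg_right e100 hρ.le
    linarith
  have h50 := hS.p8 (n := 50) (by norm_num)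
  have h50ρ : δ ^ 50 * ρ ≤ 1 / 10 ^ 8 * ρ := mul_le_mul_of_nonneg_right h50 hρ.le
  have h50ρ0 : 0 < δ ^ 50 * ρ := by positivity
  have hXG : |G.c - x| ≤ δ ^ 50 * ρ := by
    have h1 := a_eq G
    have h2 := b_eq G
    rw [abs_le]; constructor <;> linarith
  have hXGb := abs_le.mp hXG
  -- mass of G
  obtain ⟨nG, hnG⟩ : ∃ nG, nG = nn x ρ G := ⟨_, rfl⟩
  have hnG0 : 0 ≤ nG := by rw [hnG]; exact nn_nonneg x ρ G
  have hGs0 : 0 < G.s := by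
    have : 0 < 39 / 10 * ε ^ 2 * ρ := by positivity
    linarith
  have hnG1 : nG ≤ δ ^ 19 * p := by
    have f4 := hR4 ε Hm Hp C cd hPar lR4 x ρ G hρ fReg (by linarith [hXG]) (by linarith) hGs2'
    rw [← hnG, r120, ← hJ] at f4
    have h1 : ε * ρ / G.s ≤ 1 / (39 / 10 * ε) := by
      rw [div_le_div_iff₀ hGs0 (by positivity)]
      have : ε * ρ * (39 / 10 * ε) = 39 / 10 * ε ^ 2 * ρ := by ring
      rw [this]; linarith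
    have h2 : δ ^ 120 * (1 + ε * ρ / G.s) ≤ δ ^ 20 := by
      have h3 : δ ^ 120 * (1 + ε * ρ / G.s) ≤ δ ^ 120 * (1 + 1 / (39 / 10 * ε)) :=
        mul_le_mul_of_nonneg_left (by linarith) (by positivity)
      have h4 : δ ^ 120 * (1 + 1 / (39 / 10 * ε)) = δ ^ 120 + 10 / 39 * δ ^ 20 := by
        rw [hε]; field_simp
      have h5 : δ ^ 120 ≤ 1 / 10 ^ 4 * δ ^ 20 := pw1 hδp hδ1 (by norm_num)
      have h6 : 0 < δ ^ 20 := by positivity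
      linarith
    have h3 : K4 * δ ^ 120 * (1 + ε * ρ / G.s) ≤ K4 * δ ^ 20 := by
      have := mul_le_mul_of_nonneg_left h2 (show 0 ≤ K4 by linarith)
      linarith
    have h4 : K4 * δ ^ 20 ≤ 1 / 10 ^ 4 * δ ^ 19 := by
      have h5 : K4 * δ ≤ 1 / 10 ^ 4 := le_trans (mul_le_mul_of_nonneg_right (by rw [hK]; linarith) hδp.le) hKδ
      have h6 : K4 * δ ^ 20 = (K4 * δ) * δ ^ 19 := by ring
      rw [h6]
      exact mul_le_mul_of_nonneg_right h5 (by positivity)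
    have h5 : nG ≤ (1 / 10 ^ 4 * δ ^ 19) * J := by
      refine le_trans f4 ?_
      exact mul_le_mul_of_nonneg_right (le_trans h3 h4) hJ0.le
    have h6 : δ ^ 19 * J ≤ δ ^ 19 * (4 * p) := mul_le_mul_of_nonneg_left hJ4 (by positivity)
    have h7 : 0 < δ ^ 19 * p := by positivity
    linarith
  -- kappa
  obtain ⟨κ, hκ⟩ : ∃ κ, κ = (D + 3 / 5 * ρ) / (D - ρ) := ⟨_, rfl⟩
  obtain ⟨hκ1, hκ5⟩ := kap hρ hD1 hκ
  obtain ⟨hκπ0, hκπ, hκπ1⟩ := kpi hκ1 hκ5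
  -- positions
  have q1b := abs_le.mp q1
  have q2b := abs_le.mp q2
  have hXL : |VL.c - x| ≤ 51 / 100 * ρ ∧ VL.c - x ≤ -(49 / 100 * ρ) := by
    constructor
    · rw [abs_le]; constructor <;> linarith [q1b.1, q1b.2, q2b.1, q2b.2]
    · linarith [q1b.1, q1b.2, q2b.1, q2b.2]
  have hXR : |VR.c - x| ≤ 51 / 100 * ρ ∧ 49 / 100 * ρ ≤ VR.c - x := by
    constructor
    · rw [abs_le]; constructor <;> linarith [q1b.1, q1b.2, q2b.1, q2b.2]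
    · linarith [q1b.1, q1b.2, q2b.1, q2b.2]
  have hXLb := abs_le.mp hXL.1
  have hXRb := abs_le.mp hXR.1
  -- laws
  have hsmallJ : δ ^ 116 * J ≤ 4 * (δ ^ 116 * p) := by
    have := mul_le_mul_of_nonneg_left hJ4 (show 0 ≤ δ ^ 116 by positivity)
    linarith
  have hK14' : K14 * δ ^ 120 * J ≤ 1 / 1000 * (δ ^ 116 * p) := by
    have h5 : K14 * δ ≤ 1 / 10 ^ 4 := le_trans (mul_le_mul_of_nonneg_right (by rw [hK]; linarith) hδp.le) hKδ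
    have h6 : K14 * δ ^ 120 = (K14 * δ) * δ ^ 119 := by ring
    have h7 : δ ^ 119 ≤ δ ^ 116 := pw hδp hδ1 (by norm_num)
    have h8 : K14 * δ ^ 120 ≤ 1 / 10 ^ 4 * δ ^ 116 := by
      rw [h6]
      exact mul_le_mul h5 h7 (by positivity) (by norm_num)
    have h9 : K14 * δ ^ 120 * J ≤ 1 / 10 ^ 4 * δ ^ 116 * (4 * p) :=
      mul_le_mul h8 hJ4 hJ0.le (by positivity)
    have h10 : 0 < δ ^ 116 * p := by positivity
    linarith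
  have h116p : 0 < δ ^ 116 * p := by positivity
  have lawV : ∀ V : Gap cd, V.s ≤ δ ^ 59 * ρ → |V.c - x| ≤ 51 / 100 * ρ →
      |V.N - V0.N - P0 * (Real.sqrt ((τ + (V.c - x)) ^ 2 - h ^ 2) * (1 + c * (V.c - x)))| ≤
        κ / Real.pi * nn x ρ V + δ ^ 116 * J ∧
      P0 * ((τ + (V.c - x)) / Real.sqrt ((τ + (V.c - x)) ^ 2 - h ^ 2) * (1 + c * (V.c - x)) +
        Real.sqrt ((τ + (V.c - x)) ^ 2 - h ^ 2) * c) -
        5 / 4 * |V.N - V0.N - P0 * (Real.sqrt ((τ + (V.c - x)) ^ 2 - h ^ 2) * (1 + c * (V.c - x)))| / ρ -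
        δ ^ 116 * J / ρ ≤ V.kk := by
    intro V hVs hVx
    have hb := abs_le.mp hVx
    have hva := a_eq V
    have hvb := b_eq V
    have hl := hlaw.law V (by linarith) (by linarith) (by rw [r59]; exact hVs)
    rw [UU_eq, UD_eq, r116, ← hJ, ← hτ, ← hh, ← hκ] at hl
    exact hl
  obtain ⟨lL, -⟩ := lawV VL fsL hXL.1
  obtain ⟨lR, -⟩ := lawV VR fsR hXR.1
  obtain ⟨lG, lGk⟩ := lawV G hGs2 (by linarith [hXG])
  rw [← hnG] at lG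
  have hLL : |VL.N - V0.N - P0 * (Real.sqrt ((τ + (VL.c - x)) ^ 2 - h ^ 2) * (1 + c * (VL.c - x)))| ≤
      5 * δ ^ 116 * p := by
    refine le_trans lL ?_
    have h1 : κ / Real.pi * nn x ρ VL ≤ 160 / 100 * (K14 * δ ^ 120 * J) :=
      mul_le_mul hκπ hnL (nn_nonneg x ρ VL) (by norm_num)
    linarith
  have hRR : |VR.N - V0.N - P0 * (Real.sqrt ((τ + (VR.c - x)) ^ 2 - h ^ 2) * (1 + c * (VR.c - x)))| ≤
      5 * δ ^ 116 * p := by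
    refine le_trans lR ?_
    have h1 : κ / Real.pi * nn x ρ VR ≤ 160 / 100 * (K14 * δ ^ 120 * J) :=
      mul_le_mul hκπ hnR (nn_nonneg x ρ VR) (by norm_num)
    linarith
  have hNG : G.N - V0.N ≤ VR.N - V0.N := by
    have h1 : Nf cd G.c ≤ Nf cd VR.c := cd.re_mono G.c VR.c (by linarith [hXGb.2, hXR.2])
    rw [Nc, Nc] at h1
    linarith
  have P1 := part1 hL4 (D := D) (XL := VL.c - x) (XR := VR.c - x) (XG := G.c - x) (g := G.c - (k1 + s1) / 2)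
    (NL := VL.N - V0.N) (NR := VR.N - V0.N) (NG := G.N - V0.N) (J := J) (nG := nG) (κ := κ) (u := u) (t := t)
    (w := w) (p := p) (α := α) (P0 := P0) (c := c) (h := h) (τ := τ)
    hS hρ hh0.le hDτ hD1 hw hw1 hw2 hu5 ht q1 q2 q3 hXG hcc hP0 (by rw [hp]; ring) hp0
    (by rw [hup]; ring) hαp hNG hκ hJ4 hnG0 hnG1 hLL hRR lG
  refine ⟨?_, hGs, hGs2', by rw [r50]; exact hXG, ?_⟩
  · rw [r12, ← hnG, ← hκ]
    exact P1
  · -- part 5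
    rw [r10, ← hnG]
    have e : 4 * nG / p = 4 * (nG / p) := by ring
    rw [e]
    have hQ := (hQ4 ε Hm Hp C cd hPar (le_trans hε1 (by norm_num))).2.1 G
    exact part5full hS hρ hh0.le hDτ hD1 h6 hw hw1 hw2 hu0 q1 q2 hXG hXL.1 hXR.1 hcc hP0 (by rw [hp]; ring) hp0
      hκπ hJ4 hnG0 hnG1 hLL hRR lG lGk hu8 (abs_nonneg _) hGs0.le hQ

end

end Pool.Agent.Helper8.CV.R16
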