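import Pool.Agent.Helper8.CV.R16

set_option autoImplicit false

namespace Pool.Agent.Helper8.CV.R15

open Complex Filter Topology MeasureTheory Set
open Pool.Agent.Helper36.CV
open Pool.Agent.Helper8.CV.R16

noncomputable section

/-- bounds of w -/
lemma wb {ε ρ h τ D w e23 : ℝ} (hε : 0 < ε) (hh : 0 < h) (hD : D = τ - h) (hD0 : 0 < D)
    (g3 : D ≤ ρ / (16 * ε)) (g4 : (1 - 31 * e23) * (ε * (2 * h)) ≤ ρ) (g5 : ρ ≤ 115 / 100 * (ε * (2 * h)))
    (he : 31 * e23 ≤ 1 / 1000) (hw : w = ρ / (2 * ε * τ)) :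
    16 * D ≤ 23 / 10 * h ∧ 874 / 1000 ≤ h / τ ∧ h / τ ≤ 1 ∧ 87 / 100 ≤ w ∧ w ≤ 115 / 100 ∧
      (1 - 31 * e23) * (h / τ) ≤ w := by
  have hτ : 0 < τ := by linarith
  have h16 : 16 * D ≤ 23 / 10 * h := by
    have h1 : D * (16 * ε) ≤ ρ := by
      rw [le_div_iff₀ (by positivity)] at g3
      exact g3
    have h3 : (16 * D) * ε ≤ (23 / 10 * h) * ε := by linarith
    exact le_of_mul_le_mul_right h3 hε
  have hs1 : 874 / 1000 ≤ h / τ := by
    rw [le_div_iff₀ hτ]; linarith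
  have hs2 : h / τ ≤ 1 := by
    rw [div_le_one hτ]; linarith
  have hw3 : (1 - 31 * e23) * (h / τ) ≤ w := by
    rw [hw, ← mul_div_assoc, div_le_div_iff₀ hτ (by positivity)]
    have : (1 - 31 * e23) * h * (2 * ε * τ) = ((1 - 31 * e23) * (ε * (2 * h))) * τ := by ring
    rw [this]
    exact mul_le_mul_of_nonneg_right g4 hτ.le
  refine ⟨h16, hs1, hs2, ?_, ?_, hw3⟩
  · have h1 : (999 / 1000) * (874 / 1000) ≤ (1 - 31 * e23) * (h / τ) :=
      mul_le_mul (by linarith) hs1 (by norm_num) (by linarith)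
    have h2 : (87 : ℝ) / 100 ≤ (999 / 1000) * (874 / 1000) := by norm_num
    linarith
  · rw [hw, div_le_iff₀ (by positivity)]
    have h1 : ε * h ≤ ε * τ := mul_le_mul_of_nonneg_left (by linarith) hε.le
    linarith

/-- the lower bound of u_q -/
lemma uql {T h d D ρ v z qL qR : ℝ} (hρ : 0 < ρ) (hD : 7 / 5 * ρ ≤ D) (h16 : 16 * D ≤ 23 / 10 * h)
    (hT1 : (1 - 1 / 10 ^ 6) * D ≤ T - h) (hT2 : T - h ≤ 101 / 100 * D) (hd0 : 0 < d) (hd : d ≤ ρ)
    (hv : v = ρ / D) (hz : z = v ^ 2) (hL : 0 ≤ qL) (hLR : qL < qR)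
    (hL2 : qL ^ 2 = (T - d / 2) ^ 2 - h ^ 2) (hR2 : qR ^ 2 = (T + d / 2) ^ 2 - h ^ 2) :
    358 / 100 * (D / ρ) ≤ (qL + qR) / (qR - qL) ∧
    (qL + qR) / (qR - qL) ≤ 2 * (T ^ 2 - h ^ 2) / (T * d) + d / (2 * T) := by
  have hD0 : 0 < D := by linarith
  have hv0 : 0 < v := by rw [hv]; positivity
  have hv1 : v ≤ 5 / 7 := by rw [hv, div_le_iff₀ hD0]; linarith
  have hz1 : z ≤ 25 / 49 := by rw [hz]; nlinarith
  have hz0 : 0 ≤ z := by rw [hz]; positivity
  have hh0 : 0 < h := by linarith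
  have hT0 : 0 < T := by linarith
  have hS : 0 < T ^ 2 - h ^ 2 := by
    have : T ^ 2 - h ^ 2 = (T - h) * (T + h) := by ring
    rw [this]
    exact mul_pos (by linarith) (by linarith)
  have hrb := rbound hρ hD (by linarith) hT1 hT2 hd0 hd hv
  have hTd0 : 0 < T * d := by positivity
  have hR : 0 ≤ qR := le_trans hL hLR.le
  have hc := conc (S := T ^ 2 - h ^ 2) (T := T) (d := d) (r := 546 / 1000 * v) (qL := qL) (qR := qR) hS (by positivity)
    (by linarith) hrb hTd0.le hL hR (by rw [hL2]; ring) (by rw [hR2]; ring)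
  have hrz := rz (r := 546 / 1000 * v) (by positivity) hv0.le rfl hz hz1
  have hc2 : 4 * (T ^ 2 - h ^ 2) * (1 - 859 / 10000 * z) ≤ (qL + qR) ^ 2 := by
    refine le_trans ?_ hc
    apply mul_le_mul_of_nonneg_left _ (by positivity)
    linarith
  have hdiff : (qR - qL) * (qL + qR) = 2 * T * d := by
    have : (qR - qL) * (qL + qR) = qR ^ 2 - qL ^ 2 := by ring
    rw [this, hL2, hR2]; ring
  have hq0 : 0 < qR - qL := by linarith
  have hqs : 0 < qL + qR := by linarith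
  have huq : (qL + qR) / (qR - qL) = (qL + qR) ^ 2 / (2 * T * d) := by
    rw [← hdiff]
    field_simp
  rw [huq]
  constructor
  · rw [le_div_iff₀ (by positivity)]
    refine le_trans ?_ hc2
    -- 3.58 (D/ρ) 2 T d ≤ 4 S (1 - .0859 z)
    have h1 : D / ρ * d ≤ D := by
      rw [div_mul_eq_mul_div, div_le_iff₀ hρ]
      exact mul_le_mul_of_nonneg_left hd hD0.le
    have h2 : 1873 / 1000 * T ≤ T + h := by linarith
    have h3 : (1 - 1 / 10 ^ 6) * D * (1873 / 1000 * T) ≤ (T - h) * (T + h) :=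
      mul_le_mul hT1 h2 (by positivity) (by linarith)
    have h4 : 956 / 1000 ≤ 1 - 859 / 10000 * z := by linarith
    have h5 : (1 - 1 / 10 ^ 6) * D * (1873 / 1000 * T) * (956 / 1000) ≤ ((T - h) * (T + h)) * (1 - 859 / 10000 * z) :=
      mul_le_mul h3 h4 (by norm_num) (mul_nonneg (by linarith) (by linarith))
    have h6 : 358 / 100 * (D / ρ) * (2 * T * d) ≤ 358 / 100 * 2 * T * D := by
      have := mul_le_mul_of_nonneg_left h1 (show 0 ≤ 358 / 100 * 2 * T by positivity)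
      linarith
    have h7 : 0 < D * T := by positivity
    have h8 : 4 * (T ^ 2 - h ^ 2) * (1 - 859 / 10000 * z) = 4 * (((T - h) * (T + h)) * (1 - 859 / 10000 * z)) := by ring
    rw [h8]
    nlinarith
  · have h1 : (qL + qR) ^ 2 ≤ 4 * (T ^ 2 - h ^ 2) + d ^ 2 := by
      have h2 : (qL + qR) ^ 2 ≤ 2 * (qL ^ 2 + qR ^ 2) := by nlinarith [sq_nonneg (qL - qR)]
      rw [hL2, hR2] at h2
      nlinarith
    rw [div_le_iff₀ (by positivity)]
    have h2 : (2 * (T ^ 2 - h ^ 2) / (T * d) + d / (2 * T)) * (2 * T * d) = 4 * (T ^ 2 - h ^ 2) + d ^ 2 := by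
      field_simp
      ring
    rw [h2]
    exact h1

/-- from the law to the actual slopes -/
lemma kkV {p P0 WW d DV A η η' ρ kk : ℝ} (hd0 : 0 < d) (hd : d ≤ ρ) (hρ : 0 < ρ) (hDV : 0 < DV)
    (hWW : 0 < WW) (hP0 : 0 < P0) (hp : 0 < p) (hη : 0 ≤ η) (hη' : 0 ≤ η') (hηs : η + η' ≤ 1 / 100)
    (hA : A = WW / (d * DV)) (hA1 : A ≤ 3 / 2) (h1 : p * (1 - 2 * η) ≤ P0 * WW) (h2 : P0 * DV - η' * p / ρ ≤ kk) :
    p ≤ (A + 4 * (η + η')) * (d * kk) := by
  have hA0 : 0 < A := by rw [hA]; positivity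
  have hAd : A * (d * DV) = WW := by rw [hA]; field_simp
  -- A d kk >= P0 WW - η' p A
  have h3 : A * (d * (P0 * DV - η' * p / ρ)) ≤ A * (d * kk) :=
    mul_le_mul_of_nonneg_left (mul_le_mul_of_nonneg_left h2 hd0.le) hA0.le
  have h4 : A * (d * (P0 * DV - η' * p / ρ)) = P0 * (A * (d * DV)) - η' * p * A * (d / ρ) := by field_simp
  rw [h4, hAd] at h3
  have h5 : d / ρ ≤ 1 := by rw [div_le_one hρ]; exact hd
  have h6 : η' * p * A * (d / ρ) ≤ η' * p * A * 1 := mul_le_mul_of_nonneg_left h5 (by positivity)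
  have h7 : p * (1 - 2 * η - η' * A) ≤ A * (d * kk) := by nlinarith
  have h8 : 0 ≤ 1 - 2 * η - η' * A := by nlinarith
  have hX0 : 0 ≤ A * (d * kk) := le_trans (mul_nonneg hp.le h8) h7
  -- (A + 4s) d kk = A d kk (1 + 4 s / A)
  have h9 : (A + 4 * (η + η')) * (d * kk) = (A * (d * kk)) * (1 + 4 * (η + η') / A) := by field_simp
  have h10 : 8 / 3 * (η + η') ≤ 4 * (η + η') / A := by
    rw [le_div_iff₀ hA0]
    nlinarith
  have h11 : 2 * η + η' * A ≤ 2 * (η + η') := by nlinarith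
  rw [h9]
  have h12 : p * 1 ≤ p * ((1 - 2 * η - η' * A) * (1 + 4 * (η + η') / A)) := by
    apply mul_le_mul_of_nonneg_left _ hp.le
    have hs0 : 0 ≤ η + η' := by linarith
    have h13 : (1 - 2 * (η + η')) * (1 + 8 / 3 * (η + η')) ≤ (1 - 2 * η - η' * A) * (1 + 4 * (η + η') / A) :=
      mul_le_mul (by linarith) (by linarith) (by linarith) h8
    nlinarith
  have h13 : (p * (1 - 2 * η - η' * A)) * (1 + 4 * (η + η') / A) ≤ (A * (d * kk)) * (1 + 4 * (η + η') / A) :=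
    mul_le_mul_of_nonneg_right h7 (by positivity)
  linarith

/-- bound for p |mu| -/
lemma muV {p A d kk s mu ε a b : ℝ} (hp : p ≤ A * (d * kk)) (hmu : 0 ≤ mu) (hs : 0 < s) (hA : 0 ≤ A)
    (hd : 0 ≤ d) (hQ : mu * kk * s ≤ ε / 2 * a) (hds : ε * d * a ≤ b * s) : p * mu ≤ b * A / 2 := by
  have h1 : (p * mu) * s ≤ (A * (d * kk)) * (mu * s) := by
    have := mul_le_mul_of_nonneg_right hp (show 0 ≤ mu * s by positivity)
    linarith
  have h2 : (A * (d * kk)) * (mu * s) = A * d * (mu * kk * s) := by ring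
  have h3 : A * d * (mu * kk * s) ≤ A * d * (ε / 2 * a) := mul_le_mul_of_nonneg_left hQ (by positivity)
  have h4 : A * d * (ε / 2 * a) = A / 2 * (ε * d * a) := by ring
  have h5 : A / 2 * (ε * d * a) ≤ A / 2 * (b * s) := mul_le_mul_of_nonneg_left hds (by positivity)
  have h6 : (p * mu) * s ≤ (b * A / 2) * s := by linarith
  exact le_of_mul_le_mul_right h6 hs

/-- algebra of the conjugates -/
lemma qalg {σ p muL muR mu0 NL u Q bL bR : ℝ} (hσ : σ = 1 ∨ σ = -1) (hp : 0 < p)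
    (hconj : σ = p * (p - (muR - muL))) (hup : u * p = 2 * NL + p)
    (hQ : Q = u * (1 + 2 * (σ * p * (NL - muL + mu0)))) (hu : 0 < u)
    (hL : p * |muL| ≤ bL / 2) (hR : p * |muR| ≤ bR / 2) :
    u * (1 - bL - p ^ 2) - (u * p) ^ 2 - 2 * (|mu0| * (u * p)) ≤ Q ∧
    Q ≤ u * (bR - 1 + p ^ 2) + (u * p) ^ 2 + 2 * (|mu0| * (u * p)) ∧
    |muL + muR| * p ≤ max (bL - 1 + p ^ 2) (bR - 1 + p ^ 2) := by
  obtain ⟨S, hS⟩ : ∃ S, S = -σ * p * muL + -σ * p * muR := ⟨_, rfl⟩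
  have hσ2 : σ ^ 2 = 1 := by rcases hσ with h | h <;> rw [h] <;> norm_num
  have hσa : |σ| = 1 := by rcases hσ with h | h <;> rw [h] <;> simp
  have hσb := abs_le.mp hσa.le
  -- w_R - w_L = 1 - σ p²
  have h1 : -σ * p * muR - -σ * p * muL = 1 - σ * p ^ 2 := by
    have : -σ * p * muR - -σ * p * muL = -σ * (p ^ 2 - p * (p - (muR - muL))) := by ring
    rw [this, ← hconj]
    linear_combination hσ2
  have hwL : |-σ * p * muL| ≤ bL / 2 := by
    rw [abs_mul, abs_mul, abs_neg, hσa, one_mul, abs_of_pos hp]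
    exact hL
  have hwR : |-σ * p * muR| ≤ bR / 2 := by
    rw [abs_mul, abs_mul, abs_neg, hσa, one_mul, abs_of_pos hp]
    exact hR
  have hLb := abs_le.mp hwL
  have hRb := abs_le.mp hwR
  have hp2 : 0 ≤ p ^ 2 := sq_nonneg p
  have hσp : |σ * p ^ 2| ≤ p ^ 2 := by rw [abs_mul, hσa, one_mul, abs_of_nonneg hp2]
  have hσpb := abs_le.mp hσp
  have hSlow : 1 - bL - p ^ 2 ≤ S := by rw [hS]; linarith [hLb.1]
  have hSup : S ≤ bR - 1 + p ^ 2 := by rw [hS]; linarith [hRb.2]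
  have hQ2 : Q = u * S + σ * (u * p) ^ 2 + 2 * σ * (mu0 * (u * p)) := by
    rw [hQ, hS]
    have h2 : 2 * NL = u * p - p := by linarith
    have h3 : 2 * (σ * p * (NL - muL + mu0)) = σ * p * (2 * NL) + 2 * (-σ * p * muL) + 2 * (σ * p * mu0) := by ring
    rw [h3, h2]
    have h4 : -σ * p * muR = 1 - σ * p ^ 2 + -σ * p * muL := by linarith
    rw [h4]
    ring
  have h5 : |σ * (u * p) ^ 2| ≤ (u * p) ^ 2 := by rw [abs_mul, hσa, one_mul, abs_of_nonneg (sq_nonneg _)]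
  have h6 : |2 * σ * (mu0 * (u * p))| ≤ 2 * (|mu0| * (u * p)) := by
    rw [abs_mul, abs_mul, abs_mul, hσa, abs_of_pos (by norm_num : (0 : ℝ) < 2), abs_of_pos (mul_pos hu hp)]
    linarith
  have h5b := abs_le.mp h5
  have h6b := abs_le.mp h6
  refine ⟨?_, ?_, ?_⟩
  · have := mul_le_mul_of_nonneg_left hSlow hu.le
    rw [hQ2]; linarith
  · have := mul_le_mul_of_nonneg_left hSup hu.le
    rw [hQ2]; linarith
  · have h7 : |muL + muR| * p = |S| := by
      have : S = -σ * (p * (muL + muR)) := by rw [hS]; ring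
      rw [this, abs_mul, abs_neg, hσa, one_mul, abs_mul, abs_of_pos hp]
      ring
    rw [h7]
    rw [abs_le]
    constructor
    · have := le_max_left (bL - 1 + p ^ 2) (bR - 1 + p ^ 2)
      linarith
    · exact le_trans hSup (le_max_right _ _)

/-- u against u_W -/
lemma uw {u uW p P0 WL WR NL NR η : ℝ} (hp : 0 < p) (hη : 0 ≤ η) (hWW : 0 < WR - WL)
    (huW : uW = (WL + WR) / (WR - WL)) (hu : u * p = NL + NR) (hpe : p = NR - NL)
    (hL : |NL - P0 * WL| ≤ η * p) (hR : |NR - P0 * WR| ≤ η * p) (huW0 : 0 ≤ uW) :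
    |u - uW| ≤ 2 * η * (1 + uW) ∧ p * (1 - 2 * η) ≤ P0 * (WR - WL) := by
  have hLb := abs_le.mp hL
  have hRb := abs_le.mp hR
  have h1 : uW * (WR - WL) = WL + WR := by rw [huW]; field_simp
  have h2 : |p - P0 * (WR - WL)| ≤ 2 * η * p := by
    rw [abs_le]; constructor <;> linarith
  have h2b := abs_le.mp h2
  have h3 : |u * p - P0 * (WL + WR)| ≤ 2 * η * p := by
    rw [hu, abs_le]; constructor <;> linarith
  constructor
  · have h4 : (u - uW) * p = (u * p - P0 * (WL + WR)) + uW * (P0 * (WR - WL) - p) := by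
      rw [← h1]; ring
    have h5 : |(u - uW) * p| ≤ 2 * η * p + uW * (2 * η * p) := by
      rw [h4]
      refine le_trans (abs_add_le _ _) (add_le_add h3 ?_)
      rw [abs_mul, abs_of_nonneg huW0]
      apply mul_le_mul_of_nonneg_left _ huW0
      rw [abs_sub_comm]
      exact h2
    rw [abs_mul, abs_of_pos hp] at h5
    have h6 : |u - uW| * p ≤ (2 * η * (1 + uW)) * p := by linarith
    exact le_of_mul_le_mul_right h6 hp
  · linarith

/-- the final numerical contradiction -/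
lemma tfin {t w s e : ℝ} (he0 : 0 ≤ e) (he : e ≤ 1 / 10 ^ 4) (hw0 : 0 < w) (hw : w ≤ 115 / 100) (hs0 : 0 ≤ s) (hs1 : s ≤ 1)
    (h1 : (1 - e) * s ≤ w) (h2 : 1 - s ^ 2 ≤ w * s ^ 2 / 4) (h3 : t * w ≤ (1 + e) * (1 - s ^ 2) + e) (ht0 : 0 ≤ t) :
    t ≤ 207 / 1000 := by
  by_contra hcon
  push Not at hcon
  have h4 : t * w ≤ (1 + e) * (w * s ^ 2 / 4) + e := by
    have := mul_le_mul_of_nonneg_left h2 (show 0 ≤ 1 + e by linarith)
    linarith
  have h5 : 207 / 1000 * w ≤ (1 + e) * (w * s ^ 2 / 4) + e := by nlinarith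
  have hs87 : 86 / 100 ≤ w ∨ w < 86 / 100 := le_or_gt _ _
  have hs2 : 0 ≤ s ^ 2 := sq_nonneg s
  rcases hs87 with hw8 | hw8
  · -- w ≥ .86
    have h6 : 8265 / 10000 ≤ s ^ 2 := by
      by_contra hc
      push Not at hc
      have h7 : (1 + e) * (w * s ^ 2 / 4) ≤ (1 + 1 / 10 ^ 4) * (w * (8265 / 10000) / 4) := by
        apply mul_le_mul (by linarith) _ (by positivity) (by norm_num)
        have := mul_le_mul_of_nonneg_left hc.le hw0.le
        linarith
      linarith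
    have h7 : 909 / 1000 ≤ s := by
      by_contra hc
      push Not at hc
      nlinarith
    have h8 : t * w ≤ (1 + 1 / 10 ^ 4) * (1735 / 10000) + 1 / 10 ^ 4 := by
      have h9 : (1 + e) * (1 - s ^ 2) ≤ (1 + 1 / 10 ^ 4) * (1735 / 10000) :=
        mul_le_mul (by linarith) (by linarith) (by nlinarith) (by norm_num)
      linarith
    have h9 : (9999 / 10000) * (909 / 1000) ≤ w := by
      refine le_trans ?_ h1
      exact mul_le_mul (by linarith) h7 (by norm_num) (by linarith)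
    have h10 : (207 / 1000) * ((9999 / 10000) * (909 / 1000)) ≤ t * w :=
      mul_le_mul hcon.le h9 (by norm_num) ht0
    norm_num at h8 h10
    linarith
  · -- w < .86, then s is small, contradiction with h2
    have h6 : (9999 / 10000) * s ≤ w := le_trans (mul_le_mul_of_nonneg_right (by linarith) hs0) h1
    have h7 : s < 861 / 1000 := by nlinarith
    have h8 : w * s ^ 2 / 4 ≤ 86 / 100 * (861 / 1000) ^ 2 / 4 := by
      have h9 : s ^ 2 ≤ (861 / 1000) ^ 2 := pow_le_pow_left₀ hs0 h7.le 2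
      have := mul_le_mul hw8.le h9 hs2 (by norm_num)
      linarith
    have h9 : s ^ 2 ≤ (861 / 1000) ^ 2 := pow_le_pow_left₀ hs0 h7.le 2
    norm_num at h8 h9
    linarith

end

end Pool.Agent.Helper8.CV.R15
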