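import Pool.Agent.Helper8.CV.R15A

set_option autoImplicit false

namespace Pool.Agent.Helper8.CV.R15

open Complex Filter Topology MeasureTheory Set
open Pool.Agent.Helper36.CV
open Pool.Agent.Helper8.CV.R16

noncomputable section

lemma ub {u uW uq cD e14 e116 : ℝ} (h14 : e14 ≤ 1 / 10 ^ 8) (h14p : 0 < e14) (h116 : e116 ≤ 1 / 10 ^ 4 * e14)
    (h116p : 0 < e116) (hcD : cD ≤ e14 / 16) (hcD0 : 0 ≤ cD) (h1 : |uW - uq| ≤ 20 * cD * uq)
    (h2 : |u - uW| ≤ 2 * (5 * e116) * (1 + uW)) (huq : 501 / 100 ≤ uq) :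
    5 ≤ uW ∧ uW ≤ 1001 / 1000 * u ∧ |u - uq| ≤ 13 / 10 * e14 * uq ∧ 5 ≤ u := by
  have h1' : |uW - uq| ≤ 125 / 100 * e14 * uq := by
    refine le_trans h1 ?_
    apply mul_le_mul_of_nonneg_right _ (by linarith)
    linarith
  have h1b := abs_le.mp h1'
  have h2b := abs_le.mp h2
  have hx : e14 * uq ≤ 1 / 10 ^ 8 * uq := mul_le_mul_of_nonneg_right h14 (by linarith)
  have hx0 : 0 < e14 * uq := mul_pos h14p (by linarith)
  have hW1 : 5 ≤ uW := by linarith [h1b.1]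
  have hW2 : uW ≤ 101 / 100 * uq := by linarith [h1b.2]
  have h3 : 2 * (5 * e116) * (1 + uW) ≤ 5 / 100 * (e14 * uq) := by
    have h4 : e116 * (1 + uW) ≤ 1 / 10 ^ 4 * e14 * (2 * uq) := mul_le_mul h116 (by linarith) (by linarith) (by positivity)
    linarith
  refine ⟨hW1, ?_, ?_, ?_⟩
  · linarith [h2b.1]
  · rw [abs_le]; constructor <;> linarith [h1b.1, h1b.2, h2b.1, h2b.2]
  · linarith [h2b.1, h1b.1]

/-- bounds for A_L, A_R -/
lemma ab {uW uq AL AR BL BR X Y g2 cD : ℝ} (hW : 5 ≤ uW) (hcD0 : 0 ≤ cD) (hcD : cD ≤ 1 / 10 ^ 9)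
    (h1 : |uW * (1 - AL) - uq * (1 - BL)| ≤ 100 * cD) (h2 : |uW * (AR - 1) - uq * (BR - 1)| ≤ 100 * cD)
    (e1 : uq * (1 - BL) = 1 - X) (e2 : uq * (BR - 1) = 1 - Y) (hX0 : 0 ≤ X) (hX : X ≤ g2) (hY : g2 ≤ Y) (hY1 : Y ≤ 1) :
    1 - g2 - 100 * cD ≤ uW * (1 - AL) ∧ uW * (AR - 1) ≤ 1 + 100 * cD ∧ |1 - AL| ≤ 2001 / 10000 ∧ |AR - 1| ≤ 2001 / 10000 ∧
      AL ≤ 1001 / 1000 := by
  have h1b := abs_le.mp h1
  have h2b := abs_le.mp h2
  rw [e1] at h1b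
  rw [e2] at h2b
  have hg0 : 0 ≤ g2 := le_trans hX0 hX
  have a1 : uW * (1 - AL) ≤ 1 + 100 * cD := by linarith [h1b.2]
  have a2 : -(100 * cD) ≤ uW * (1 - AL) := by linarith [h1b.1]
  have a3 : uW * (AR - 1) ≤ 1 + 100 * cD := by linarith [h2b.2]
  have a4 : -(100 * cD) ≤ uW * (AR - 1) := by linarith [h2b.1]
  have hd : 0 < uW := by linarith
  have b1 : 1 - AL ≤ 2001 / 10000 := by
    by_contra hc
    push Not at hc
    have : 5 * (2001 / 10000) ≤ uW * (1 - AL) := mul_le_mul hW hc.le (by norm_num) hd.le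
    norm_num at this
    linarith
  have b2 : -(1 / 1000) ≤ 1 - AL := by
    by_contra hc
    push Not at hc
    have : 5 * (1 / 1000) ≤ uW * (-(1 - AL)) := mul_le_mul hW (by linarith) (by norm_num) hd.le
    norm_num at this
    linarith
  have b3 : AR - 1 ≤ 2001 / 10000 := by
    by_contra hc
    push Not at hc
    have : 5 * (2001 / 10000) ≤ uW * (AR - 1) := mul_le_mul hW hc.le (by norm_num) hd.le
    norm_num at this
    linarith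
  have b4 : -(1 / 1000) ≤ AR - 1 := by
    by_contra hc
    push Not at hc
    have : 5 * (1 / 1000) ≤ uW * (-(AR - 1)) := mul_le_mul hW (by linarith) (by norm_num) hd.le
    norm_num at this
    linarith
  refine ⟨by linarith [h1b.1], a3, ?_, ?_, by linarith⟩
  · rw [abs_le]; constructor <;> linarith
  · rw [abs_le]; constructor <;> linarith

/-- final numbers for Q -/
lemma qnum {u uW AL AR ε t cD e116 e16 p m Q g2 : ℝ} (hε : 0 < ε) (hε1 : ε ≤ 1 / 10 ^ 20)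
    (ht : t = ε * u) (ht1 : t ≤ 26 / 100) (hu : 5 ≤ u) (hW : 5 ≤ uW) (hWu : uW ≤ 1001 / 1000 * u)
    (hcD : cD ≤ 1 / 10 ^ 9) (hcD0 : 0 ≤ cD)
    (h116 : 0 < e116) (h116u : u * e116 = e16 * t) (h16 : 0 < e16) (h16' : e16 ≤ 1 / 10 ^ 8)
    (hWW : |u - uW| ≤ 2 * (5 * e116) * (1 + uW))
    (h1 : 1 - g2 - 100 * cD ≤ uW * (1 - AL)) (h2 : uW * (AR - 1) ≤ 1 + 100 * cD) (h3 : |1 - AL| ≤ 2001 / 10000)
    (h4 : |AR - 1| ≤ 2001 / 10000) (h5 : AL ≤ 1001 / 1000) (hg2 : g2 ≤ 116 / 100 * t)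
    (hp0 : 0 < p) (hp : p ≤ 12 * ε ^ 3) (hm0 : 0 ≤ m) (hm : m ≤ 6 * ε)
    (q1 : u * (1 - (1 + 98 * ε) * (AL + 64 * e116) - p ^ 2) - (u * p) ^ 2 - 2 * m ≤ Q)
    (q2 : Q ≤ u * ((1 + 102 * ε) * (AR + 64 * e116) - 1 + p ^ 2) + (u * p) ^ 2 + 2 * m) :
    |Q - 1| ≤ 1025 / 10 * t + 1 / 1000 := by
  have hu0 : 0 < u := by linarith
  have ht0 : 0 < t := by rw [ht]; positivity
  have e1 : e16 * t ≤ 1 / 10 ^ 8 := by
    have : e16 * t ≤ 1 / 10 ^ 8 * 1 := mul_le_mul h16' (by linarith) ht0.le (by norm_num)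
    linarith
  have e10 : 0 < e16 * t := by positivity
  -- |u - uW| small
  have h6 : 2 * (5 * e116) * (1 + uW) ≤ 1 / 10 ^ 6 := by
    have : e116 * (1 + uW) ≤ e116 * (2 * u) := mul_le_mul_of_nonneg_left (by linarith) h116.le
    linarith
  have h7 : |(u - uW) * (1 - AL)| ≤ 1 / 10 ^ 6 := by
    rw [abs_mul]
    calc |u - uW| * |1 - AL| ≤ (1 / 10 ^ 6) * 1 := mul_le_mul (le_trans hWW h6) (by linarith) (abs_nonneg _) (by norm_num)
      _ = _ := by ring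
  have h8 : |(u - uW) * (AR - 1)| ≤ 1 / 10 ^ 6 := by
    rw [abs_mul]
    calc |u - uW| * |AR - 1| ≤ (1 / 10 ^ 6) * 1 := mul_le_mul (le_trans hWW h6) (by linarith) (abs_nonneg _) (by norm_num)
      _ = _ := by ring
  have h7b := abs_le.mp h7
  have h8b := abs_le.mp h8
  -- p terms
  have hpt : u * p ≤ 12 * ε ^ 2 * t := by
    have := mul_le_mul_of_nonneg_left hp hu0.le
    rw [ht]
    linarith
  have hε2 : ε ^ 2 ≤ 1 / 10 ^ 20 := by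
    have h9 : ε * ε ≤ (1 / 10 ^ 20) * 1 := mul_le_mul hε1 (le_trans hε1 (by norm_num)) hε.le (by norm_num)
    rw [sq]
    linarith only [h9]
  have hup : u * p ≤ 1 / 10 ^ 10 := by
    have h9 : ε ^ 2 * t ≤ 1 / 10 ^ 20 * 1 := mul_le_mul hε2 (by linarith) ht0.le (by norm_num)
    linarith
  have hup0 : 0 < u * p := by positivity
  have hp1 : p ≤ 1 := by
    have : 1 * p ≤ u * p := mul_le_mul_of_nonneg_right (by linarith) hp0.le
    linarith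
  have hup2 : (u * p) ^ 2 ≤ 1 / 10 ^ 10 := by
    have h9 : (u * p) * (u * p) ≤ (1 / 10 ^ 10) * 1 :=
      mul_le_mul hup (le_trans hup (by norm_num)) hup0.le (by norm_num)
    rw [sq]
    linarith only [h9]
  have hupp : u * p ^ 2 ≤ 1 / 10 ^ 10 := by
    have h10 : u * p ^ 2 = (u * p) * p := by ring
    have h9 : (u * p) * p ≤ (1 / 10 ^ 10) * 1 := mul_le_mul hup hp1 hp0.le (by norm_num)
    rw [h10]
    linarith only [h9]
  have hεu : ε * u = t := ht.symm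
  rw [abs_le]
  constructor
  · have h9 : u * (1 - (1 + 98 * ε) * (AL + 64 * e116) - p ^ 2) =
        (uW * (1 - AL) + (u - uW) * (1 - AL)) - 64 * (u * e116) - 98 * (ε * u) * AL - 98 * 64 * ε * (u * e116) - u * p ^ 2 := by
      ring
    rw [h9, h116u, hεu] at q1
    have h10 : 98 * t * AL ≤ 98 * t * (1001 / 1000) := mul_le_mul_of_nonneg_left h5 (by positivity)
    have h11 : ε * (e16 * t) ≤ 1 * (e16 * t) := mul_le_mul_of_nonneg_right (by linarith) e10.le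
    linarith [h7b.1]
  · have h9 : u * ((1 + 102 * ε) * (AR + 64 * e116) - 1 + p ^ 2) =
        (uW * (AR - 1) + (u - uW) * (AR - 1)) + 64 * (u * e116) + 102 * (ε * u) +
        102 * ε * ((uW * (AR - 1) + (u - uW) * (AR - 1)) + 64 * (u * e116)) + u * p ^ 2 := by
      ring
    rw [h9, h116u, hεu] at q2
    have h10 : 102 * ε * ((uW * (AR - 1) + (u - uW) * (AR - 1)) + 64 * (e16 * t)) ≤ 102 * ε * 2 := by
      apply mul_le_mul_of_nonneg_left _ (by positivity)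
      linarith [h8b.2]
    linarith [h8b.2]

/-- the upper bounds of u_q -/
lemma uqu {ε K ρ D T h d uq : ℝ} (hε : 0 < ε) (hε1 : ε ≤ 1 / 10 ^ 20) (hρ : 0 < ρ) (hh : 0 < h)
    (hD0 : 0 < D) (hTD : |T - h - D| ≤ K * ε ^ 2 * ρ) (hKε : K * ε ≤ 1 / 10 ^ 4) (hT0 : 1000 * ρ ≤ 2 * T) (hTh : h < T)
    (hd1 : (1 - 2 * ε) * ρ ≤ d) (hd2 : d ≤ ρ)
    (hu : uq ≤ 2 * (T ^ 2 - h ^ 2) / (T * d) + d / (2 * T)) :
    uq ≤ 4 * (1 + 3 * ε) * (D / ρ + ε) + 1 / 1000 := by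
  have hd0 : 0 < d := by nlinarith
  have hT : 0 < T := by linarith
  have h1 : 2 * (T ^ 2 - h ^ 2) / (T * d) ≤ 4 * (T - h) / d := by
    rw [div_le_div_iff₀ (by positivity) hd0]
    have h2 : T ^ 2 - h ^ 2 ≤ (T - h) * (2 * T) := by nlinarith
    have := mul_le_mul_of_nonneg_right h2 hd0.le
    nlinarith
  have h2 : 4 * (T - h) / d ≤ 4 * (1 + 3 * ε) * (D / ρ + ε) := by
    have h3 : T - h ≤ D + ε * ρ := by
      have h4 := kee hKε hε hρ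
      have h5 := (abs_le.mp hTD).2
      have : 0 < ε * ρ := by positivity
      linarith
    rw [div_le_iff₀ hd0]
    have h4 : (D / ρ + ε) * ρ = D + ε * ρ := by field_simp
    have h5 : 1 ≤ (1 + 3 * ε) * (1 - 2 * ε) := by nlinarith
    have h6 : 4 * (1 + 3 * ε) * (D / ρ + ε) * ((1 - 2 * ε) * ρ) ≤ 4 * (1 + 3 * ε) * (D / ρ + ε) * d :=
      mul_le_mul_of_nonneg_left hd1 (by positivity)
    have h7 : 4 * (1 + 3 * ε) * (D / ρ + ε) * ((1 - 2 * ε) * ρ) = 4 * ((1 + 3 * ε) * (1 - 2 * ε)) * ((D / ρ + ε) * ρ) := by ring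
    rw [h7, h4] at h6
    have h8 : 1 * (D + ε * ρ) ≤ ((1 + 3 * ε) * (1 - 2 * ε)) * (D + ε * ρ) :=
      mul_le_mul_of_nonneg_right h5 (by positivity)
    linarith
  have h3 : d / (2 * T) ≤ 1 / 1000 := by
    rw [div_le_iff₀ (by positivity)]
    linarith
  linarith

/-- the bound t w -/
lemma tw {ε ρ τ T h d uq u t w s : ℝ} (hε : 0 < ε) (hε1 : ε ≤ 1 / 10 ^ 20) (hρ : 0 < ρ)
    (hτ : 0 < τ) (hτ3 : 1000 * ρ ≤ τ) (hTτ : |T - τ| ≤ 1 / 10 ^ 8 * τ) (hd1 : (1 - 2 * ε) * ρ ≤ d) (hd2 : d ≤ ρ)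
    (hw : w = ρ / (2 * ε * τ)) (hs : s = h / τ) (ht : t = ε * u) (hu : u ≤ (1 + 1 / 10 ^ 7) * uq) (huq0 : 0 < uq)
    (hs1 : s ^ 2 ≤ 1)
    (huq : uq ≤ 2 * (T ^ 2 - h ^ 2) / (T * d) + d / (2 * T)) :
    t * w ≤ (1 + 1 / 10 ^ 4) * (1 - s ^ 2) + 1 / 10 ^ 4 := by
  have hd0 : 0 < d := by nlinarith
  have hTb := abs_le.mp hTτ
  have hT : 0 < T := by linarith
  have h1 : t * w = u * (ρ / (2 * τ)) := by rw [ht, hw]; field_simp
  have h2 : u * (ρ / (2 * τ)) ≤ (1 + 1 / 10 ^ 7) * uq * (ρ / (2 * τ)) := mul_le_mul_of_nonneg_right hu (by positivity)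
  have h3 : uq * (ρ / (2 * τ)) ≤ (2 * (T ^ 2 - h ^ 2) / (T * d) + d / (2 * T)) * (ρ / (2 * τ)) :=
    mul_le_mul_of_nonneg_right huq (by positivity)
  have h4 : (2 * (T ^ 2 - h ^ 2) / (T * d) + d / (2 * T)) * (ρ / (2 * τ)) =
      (T ^ 2 - h ^ 2) * (ρ / (T * d * τ)) + d * ρ / (4 * T * τ) := by
    field_simp
    ring
  have h5 : d * ρ / (4 * T * τ) ≤ 1 / 10 ^ 6 := by
    rw [div_le_iff₀ (by positivity)]
    have h6 : d * ρ ≤ (1 / 1000 * τ) * (1 / 1000 * τ) := mul_le_mul (by linarith) (by linarith) hρ.le (by positivity)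
    have h7 : (99 / 100 * τ) * τ ≤ T * τ := mul_le_mul_of_nonneg_right (by linarith) hτ.le
    have h8 : 0 < τ * τ := by positivity
    linarith
  have h6 : ρ / (T * d * τ) ≤ (1 + 1 / 10 ^ 6) / τ ^ 2 := by
    rw [div_le_div_iff₀ (by positivity) (by positivity)]
    have h7 : (1 - 1 / 10 ^ 8) * τ * ((1 - 2 * ε) * ρ) ≤ T * d :=
      mul_le_mul (by linarith) hd1 (by nlinarith) hT.le
    have h8 : (1 - 1 / 10 ^ 7) * (ρ * τ) ≤ T * d := by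
      refine le_trans ?_ h7
      have : ε * (ρ * τ) ≤ 1 / 10 ^ 20 * (ρ * τ) := mul_le_mul_of_nonneg_right hε1 (by positivity)
      have h9 : 0 < ρ * τ := by positivity
      nlinarith
    have h9 : ρ * τ ≤ (1 + 1 / 10 ^ 6) * (T * d) := by
      have : 0 < ρ * τ := by positivity
      nlinarith
    have := mul_le_mul_of_nonneg_right h9 hτ.le
    nlinarith
  have h7 : T ^ 2 - h ^ 2 ≤ τ ^ 2 * ((1 - s ^ 2) + 1 / 10 ^ 6) := by
    have h8 : τ ^ 2 * (1 - s ^ 2) = τ ^ 2 - h ^ 2 := by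
      rw [hs]; field_simp
    have h9 : T ^ 2 ≤ ((1 + 1 / 10 ^ 8) * τ) ^ 2 := pow_le_pow_left₀ hT.le (by linarith) 2
    have h10 : 0 < τ ^ 2 := by positivity
    have h11 : ((1 + 1 / 10 ^ 8) * τ) ^ 2 ≤ τ ^ 2 + τ ^ 2 * (1 / 10 ^ 6) := by nlinarith
    have h12 : τ ^ 2 * ((1 - s ^ 2) + 1 / 10 ^ 6) = τ ^ 2 * (1 - s ^ 2) + τ ^ 2 * (1 / 10 ^ 6) := by ring
    rw [h12, h8]
    linarith
  have h8 : (T ^ 2 - h ^ 2) * (ρ / (T * d * τ)) ≤ (1 + 1 / 10 ^ 6) * ((1 - s ^ 2) + 1 / 10 ^ 6) := by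
    have h9 : 0 ≤ τ ^ 2 * ((1 - s ^ 2) + 1 / 10 ^ 6) := by
      apply mul_nonneg (by positivity)
      linarith
    calc (T ^ 2 - h ^ 2) * (ρ / (T * d * τ)) ≤ (τ ^ 2 * ((1 - s ^ 2) + 1 / 10 ^ 6)) * ((1 + 1 / 10 ^ 6) / τ ^ 2) :=
          mul_le_mul h7 h6 (by positivity) h9
      _ = _ := by field_simp
  have h9 : uq * (ρ / (2 * τ)) ≤ (1 + 1 / 10 ^ 6) * ((1 - s ^ 2) + 1 / 10 ^ 6) + 1 / 10 ^ 6 := by
    rw [h4] at h3
    linarith
  have h10 : (1 + 1 / 10 ^ 7) * uq * (ρ / (2 * τ)) ≤ (1 + 1 / 10 ^ 7) * ((1 + 1 / 10 ^ 6) * ((1 - s ^ 2) + 1 / 10 ^ 6) + 1 / 10 ^ 6) := by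
    have := mul_le_mul_of_nonneg_left h9 (show (0 : ℝ) ≤ 1 + 1 / 10 ^ 7 by norm_num)
    linarith
  rw [h1]
  have h11 : 0 ≤ 1 - s ^ 2 := by linarith
  linarith

end

end Pool.Agent.Helper8.CV.R15
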