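import Pool.Agent.Helper8.CV.R15B

set_option autoImplicit false

namespace Pool.Agent.Helper8.CV.R15

open Complex Filter Topology MeasureTheory Set
open Pool.Agent.Helper36.CV
open Pool.Agent.Helper8.CV.R16

noncomputable section

lemma cdb {δ ε ρ D c : ℝ} (hδ : 0 < δ) (hε : ε = δ ^ 100) (g3 : D ≤ ρ / (16 * ε)) (hc : |c| * ρ ≤ δ ^ 114) :
    |c| * D ≤ δ ^ 14 / 16 := by
  have hε0 : 0 < ε := by rw [hε]; positivity
  have h1 : |c| * D ≤ |c| * (ρ / (16 * ε)) := mul_le_mul_of_nonneg_left g3 (abs_nonneg c)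
  have h2 : |c| * (ρ / (16 * ε)) = (|c| * ρ) / (16 * ε) := by ring
  have h3 : (|c| * ρ) / (16 * ε) ≤ δ ^ 114 / (16 * ε) := div_le_div_of_nonneg_right hc (by positivity)
  have h4 : δ ^ 114 / (16 * ε) = δ ^ 14 / 16 := by rw [hε]; field_simp
  linarith

lemma w1 {ε ρ h τ D w t u e23 e65 : ℝ} (hε : 0 < ε) (hρ : 0 < ρ) (hh : 0 < h) (hD : D = τ - h) (hD0 : 0 < D)
    (g6 : ρ ≤ (1 + 5 * ε * (D / ρ + 1)) * (ε * (2 * h))) (hτ1 : ρ ≤ 23 / 10 * ε * τ)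
    (hw : w = ρ / (2 * ε * τ)) (ht : t = ε * u) (hu : 35 / 10 * (D / ρ) ≤ u) (hw3 : (1 - 31 * e23) * (h / τ) ≤ w)
    (he0 : 0 ≤ e23) (he : 31 * e23 ≤ 1 / 10 ^ 4 * e65) (he1 : 5 * ε ≤ e65) : |w - 1| ≤ e65 + 5 * t := by
  have hτ : 0 < τ := by linarith
  have hDρ : 0 < D / ρ := by positivity
  have ht1 : 35 / 10 * (ε * (D / ρ)) ≤ t := by
    rw [ht]
    have := mul_le_mul_of_nonneg_left hu hε.le
    linarith
  have hε1 : 0 < ε * (D / ρ) := by positivity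
  have hwτ : w * (2 * ε * τ) = ρ := by rw [hw]; field_simp
  have up : w ≤ 1 + 5 * ε * (D / ρ + 1) := by
    have h1 : w * (2 * ε * τ) ≤ (1 + 5 * ε * (D / ρ + 1)) * (2 * ε * τ) := by
      rw [hwτ]
      refine le_trans g6 ?_
      apply mul_le_mul_of_nonneg_left _ (by positivity)
      have : ε * h ≤ ε * τ := mul_le_mul_of_nonneg_left (by linarith) hε.le
      linarith
    exact le_of_mul_le_mul_right h1 (by positivity)
  have hDτ : D / τ ≤ 23 / 10 * (ε * (D / ρ)) := by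
    rw [div_le_iff₀ hτ]
    have h1 : 23 / 10 * (ε * (D / ρ)) * τ = (D / ρ) * (23 / 10 * ε * τ) := by ring
    rw [h1]
    have h2 : (D / ρ) * ρ ≤ (D / ρ) * (23 / 10 * ε * τ) := mul_le_mul_of_nonneg_left hτ1 hDρ.le
    have h3 : (D / ρ) * ρ = D := by field_simp
    linarith
  have hhτ : h / τ = 1 - D / τ := by
    rw [hD]; field_simp; ring
  have hhτ1 : h / τ ≤ 1 := by
    rw [div_le_one hτ]; linarith
  have lo : 1 - D / τ - 31 * e23 ≤ w := by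
    have h1 : (1 - 31 * e23) * (h / τ) = h / τ - 31 * e23 * (h / τ) := by ring
    have h2 : 31 * e23 * (h / τ) ≤ 31 * e23 * 1 := mul_le_mul_of_nonneg_left hhτ1 (by positivity)
    linarith
  rw [abs_le]
  constructor <;> linarith

lemma offs {ε ρ h τ w s : ℝ} (hε : 0 < ε) (hτ : 0 < τ) (off : 8 * ε * τ * (τ ^ 2 - h ^ 2) ≤ ρ * h ^ 2)
    (hw : w = ρ / (2 * ε * τ)) (hs : s = h / τ) : 1 - s ^ 2 ≤ w * s ^ 2 / 4 := by
  have h1 : 1 - s ^ 2 = (8 * ε * τ * (τ ^ 2 - h ^ 2)) / (8 * ε * τ ^ 3) := by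
    rw [hs]; field_simp
  have h2 : w * s ^ 2 / 4 = (ρ * h ^ 2) / (8 * ε * τ ^ 3) := by
    rw [hs, hw]; field_simp; ring
  rw [h1, h2]
  exact div_le_div_of_nonneg_right off (by positivity)

lemma gsq {ε ρ τ T d uq u t w g2 : ℝ} (hτ : 0 < τ) (hT : 9999 / 10000 * τ ≤ T)
    (hd0 : 0 < d) (hd : d ≤ ρ) (hu0 : 0 < u) (huq : uq ≤ 10001 / 10000 * u) (hwτ : w * (2 * ε * τ) = ρ)
    (hw2 : w ≤ 115 / 100) (ht : t = ε * u) (ht0 : 0 < t) (hg : uq = g2 * (2 * T) / d) : g2 ≤ 116 / 100 * t := by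
  have hT0 : 0 < T := by linarith
  have h1 : g2 * (2 * T) = uq * d := by rw [hg]; field_simp
  have h2 : uq * d ≤ (10001 / 10000 * u) * ρ := by
    calc uq * d ≤ (10001 / 10000 * u) * d := mul_le_mul_of_nonneg_right huq hd0.le
      _ ≤ _ := mul_le_mul_of_nonneg_left hd (by positivity)
  have h3 : (10001 / 10000 * u) * ρ = 10001 / 10000 * (w * (t * (2 * τ))) := by
    rw [← hwτ, ht]; ring
  have h4 : w * (t * (2 * τ)) ≤ 115 / 100 * (t * (2 * τ)) := mul_le_mul_of_nonneg_right hw2 (by positivity)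
  have h5 : g2 * (2 * T) ≤ (116 / 100 * t) * (2 * T) := by
    have h6 : t * (9999 / 10000 * τ) ≤ t * T := mul_le_mul_of_nonneg_left hT ht0.le
    have h7 : 0 < t * τ := by positivity
    rw [h1]
    linarith
  exact le_of_mul_le_mul_right h5 (by linarith)

lemma tcr {ε ρ D u uq t : ℝ} (hε : 0 < ε) (hε1 : ε ≤ 1 / 10 ^ 20) (hρ : 0 < ρ) (hD0 : 0 < D) (g3 : D ≤ ρ / (16 * ε))
    (hu : u ≤ (1 + 1 / 10 ^ 7) * uq) (huq : uq ≤ 4 * (1 + 3 * ε) * (D / ρ + ε) + 1 / 1000) (ht : t = ε * u) :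
    t ≤ 26 / 100 := by
  have h1 : D / ρ ≤ 1 / (16 * ε) := by
    rw [div_le_iff₀ hρ]
    refine le_trans g3 (le_of_eq ?_)
    ring
  have hDρ : 0 < D / ρ := by positivity
  have h2 : ε * (D / ρ) ≤ 1 / 16 := by
    have := mul_le_mul_of_nonneg_left h1 hε.le
    have h3 : ε * (1 / (16 * ε)) = 1 / 16 := by field_simp
    linarith
  have h3 : ε * uq ≤ 4 * (1 + 3 * ε) * (ε * (D / ρ) + ε ^ 2) + ε / 1000 := by
    have := mul_le_mul_of_nonneg_left huq hε.le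
    nlinarith
  have hε2 : ε ^ 2 ≤ 1 / 1000 := by nlinarith
  have h4 : 4 * (1 + 3 * ε) * (ε * (D / ρ) + ε ^ 2) ≤ 4 * (1 + 1 / 1000) * (1 / 16 + 1 / 1000) := by
    apply mul_le_mul _ _ (by positivity) (by norm_num)
    · linarith
    · linarith
  have h5 : ε * u ≤ (1 + 1 / 10 ^ 7) * (ε * uq) := by
    have := mul_le_mul_of_nonneg_left hu hε.le
    linarith
  rw [ht]
  norm_num at h4 h5 ⊢
  linarith

lemma lastb {ε A e p b : ℝ} (hε : 0 < ε) (hε1 : ε ≤ 1 / 10 ^ 20) (hp0 : 0 < p) (hp3 : p ≤ 12 * ε ^ 3)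
    (hA : A ≤ 12001 / 10000) (hA0 : 0 ≤ A) (he0 : 0 < e) (he : e ≤ 1 / 10 ^ 8) (hb0 : 0 ≤ b) (hb : b ≤ 102) :
    (1 + b * ε) * (A + 64 * e) - 1 + p ^ 2 ≤ 24 / 100 := by
  have h1 : ε ^ 3 ≤ 1 / 10 ^ 20 := by
    calc ε ^ 3 ≤ ε ^ 1 := pow_le_pow_of_le_one hε.le (by linarith) (by norm_num)
      _ ≤ _ := by simpa using hε1
  have h2 : p ≤ 1 / 10 ^ 10 := by linarith
  have hp2 : p ^ 2 ≤ 1 / 1000 := by nlinarith
  have h3 : b * ε ≤ 102 * (1 / 10 ^ 20) := mul_le_mul hb hε1 hε.le (by norm_num)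
  have h4 : b * ε * (A + 64 * e) ≤ 102 * (1 / 10 ^ 20) * 2 := mul_le_mul h3 (by linarith) (by linarith) (by norm_num)
  linarith

lemma sq1 {s : ℝ} (h0 : 0 ≤ s) (h1 : s ≤ 1) : s ^ 2 ≤ 1 := by nlinarith

lemma uup {ε ρ D u uq e14 e10 : ℝ} (hε : 0 < ε) (hε1 : ε ≤ 1 / 10 ^ 20) (hDρ : 0 < D / ρ) (h14p : 0 < e14)
    (h14 : e14 ≤ 1 / 10 ^ 4 * e10) (hε10 : ε ≤ 1 / 10 ^ 4 * e10) (h14' : e14 ≤ 1 / 10 ^ 8)
    (hu : u ≤ (1 + 13 / 10 * e14) * uq) (huq : uq ≤ 4 * (1 + 3 * ε) * (D / ρ + ε) + 1 / 1000) :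
    u ≤ 4 * (D / ρ + 3 / 5) * (1 + e10) := by
  have h1 : u ≤ (1 + 13 / 10 * e14) * (4 * (1 + 3 * ε) * (D / ρ + ε) + 1 / 1000) :=
    le_trans hu (mul_le_mul_of_nonneg_left huq (by linarith))
  have h2 : (1 + 13 / 10 * e14) * (1 + 3 * ε) ≤ 1 + e10 := by
    have : e14 * ε ≤ 1 * ε := mul_le_mul_of_nonneg_right (by linarith) hε.le
    nlinarith
  have h3 : (1 + 13 / 10 * e14) * (1 + 3 * ε) * (D / ρ) ≤ (1 + e10) * (D / ρ) := mul_le_mul_of_nonneg_right h2 hDρ.le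
  have h4 : (1 + 13 / 10 * e14) * (1 + 3 * ε) * ε ≤ 1 / 10 := by
    have h5 : (1 + 13 / 10 * e14) * (1 + 3 * ε) ≤ 2 * 2 := mul_le_mul (by linarith) (by linarith) (by linarith) (by norm_num)
    have h6 : (1 + 13 / 10 * e14) * (1 + 3 * ε) * ε ≤ (2 * 2) * (1 / 100) :=
      mul_le_mul h5 (by linarith) hε.le (by norm_num)
    linarith
  have h5 : (1 + 13 / 10 * e14) * (4 * (1 + 3 * ε) * (D / ρ + ε) + 1 / 1000) =
      4 * ((1 + 13 / 10 * e14) * (1 + 3 * ε) * (D / ρ)) + 4 * ((1 + 13 / 10 * e14) * (1 + 3 * ε) * ε) +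
        (1 + 13 / 10 * e14) / 1000 := by ring
  rw [h5] at h1
  have h6 : 4 * (D / ρ + 3 / 5) * (1 + e10) = 4 * ((1 + e10) * (D / ρ)) + 12 / 5 * (1 + e10) := by ring
  rw [h6]
  have h7 : 0 < e10 := by linarith
  linarith

lemma core (hL1 : ST_L1) (hL2 : ST_L2)
    {δ ε K ρ h τ D c XL XR P0 NL NR u t w p kkL kkR sL sR muL muR mu0 σ Q e23 : ℝ}
    (hS : Sm δ ε K) (hρ : 0 < ρ) (hh : 0 < h) (hD : D = τ - h) (hD1 : 7 / 5 * ρ ≤ D)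
    (off : 8 * ε * τ * (τ ^ 2 - h ^ 2) ≤ ρ * h ^ 2) (g3 : D ≤ ρ / (16 * ε))
    (g4 : (1 - 31 * e23) * (ε * (2 * h)) ≤ ρ) (g5 : ρ ≤ 115 / 100 * (ε * (2 * h)))
    (g6 : ρ ≤ (1 + 5 * ε * (D / ρ + 1)) * (ε * (2 * h)))
    (he0 : 0 ≤ e23) (he : 31 * e23 ≤ 1 / 10 ^ 4 * δ ^ 65)
    (hw : w = ρ / (2 * ε * τ)) (ht : t = ε * u)
    (q1 : |XL + XR| ≤ K * ε ^ 2 * ρ) (q2 : |XR - XL - (1 - ε) * ρ| ≤ K * ε ^ 2 * ρ)
    (hc : |c| * ρ ≤ δ ^ 114)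
    (hP0 : 0 < P0) (hp : p = NR - NL) (hp0 : 0 < p) (hup : u * p = NL + NR)
    (hLL : |NL - P0 * (Real.sqrt ((τ + XL) ^ 2 - h ^ 2) * (1 + c * XL))| ≤ 5 * δ ^ 116 * p)
    (hRR : |NR - P0 * (Real.sqrt ((τ + XR) ^ 2 - h ^ 2) * (1 + c * XR))| ≤ 5 * δ ^ 116 * p)
    (kL : P0 * ((τ + XL) / Real.sqrt ((τ + XL) ^ 2 - h ^ 2) * (1 + c * XL) +
        Real.sqrt ((τ + XL) ^ 2 - h ^ 2) * c) - 11 * δ ^ 116 * p / ρ ≤ kkL)
    (kR : P0 * ((τ + XR) / Real.sqrt ((τ + XR) ^ 2 - h ^ 2) * (1 + c * XR) +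
        Real.sqrt ((τ + XR) ^ 2 - h ^ 2) * c) - 11 * δ ^ 116 * p / ρ ≤ kkR)
    (hsL0 : 0 < sL) (hsR0 : 0 < sR)
    (hsL : ε * (XR - XL) ≤ sL) (hsR : ε * (XR - XL) * (1 + 98 * ε) ≤ (1 + 102 * ε) * sR)
    (QL : |muL| * kkL * sL ≤ ε / 2 * (1 + 98 * ε)) (QR : |muR| * kkR * sR ≤ ε / 2 * (1 + 98 * ε))
    (hp3 : p ≤ 12 * ε ^ 3) (hm0 : |mu0| * (u * p) ≤ 6 * ε)
    (hσ : σ = 1 ∨ σ = -1) (hconj : σ = p * (p - (muR - muL)))
    (hQ : Q = u * (1 + 2 * (σ * p * (NL - muL + mu0)))) :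
    |Q - 1| ≤ 1025 / 10 * t + 1 / 1000 ∧ t ≤ 207 / 1000 ∧ 5 / 2 ≤ u ∧
    87 / 100 ≤ w ∧ w ≤ 115 / 100 ∧ |w - 1| ≤ δ ^ 65 + 5 * t ∧
    2 * D / ρ ≤ (1 + δ ^ 10) * u ∧ u ≤ 4 * (D / ρ + 3 / 5) * (1 + δ ^ 10) ∧
    |muL + muR| * p ≤ 24 / 100 := by
  have hε0 := hS.e0
  have hε1 := hS.e1
  have hδ := hS.p
  have hD0 : 0 < D := by linarith
  have hτ : 0 < τ := by linarith
  have h65 := hS.p8 (n := 65) (by norm_num)
  have h65p : 0 < δ ^ 65 := by positivity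
  obtain ⟨h16, hs1, hs2, hw1, hw2, hw3⟩ := wb hε0 hh hD hD0 g3 g4 g5 (by linarith) hw
  obtain ⟨hτ1, hτ2⟩ := tau1 hε0 hτ hw hw1 hw2
  have hτ3 := tau2 hε1 hτ hτ1
  obtain ⟨hd1, hd2⟩ := dd1 hS.ke hε0 hρ q2
  have hkee := kee hS.ke hε0 hρ
  have hερ0 : 0 < ε * ρ := by positivity
  have hερ : ε * ρ ≤ 1 / 10 ^ 20 * ρ := mul_le_mul_of_nonneg_right hε1 hρ.le
  have q1b := abs_le.mp q1
  have hd3 : 99 / 100 * ρ ≤ XR - XL := by linarith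
  have hXLl : -(51 / 100 * ρ) ≤ XL := by linarith [q1b.1]
  have hXLu : XL ≤ -(49 / 100 * ρ) := by linarith [q1b.2]
  have hXRl : 49 / 100 * ρ ≤ XR := by linarith [q1b.1]
  have hXRu : XR ≤ 51 / 100 * ρ := by linarith [q1b.2]
  have hd0 : 0 < XR - XL := by linarith
  have hcD := cdb hδ hS.e g3 hc
  have hcD0 : 0 ≤ |c| * D := by positivity
  obtain ⟨qL, hqL⟩ : ∃ qL, qL = Real.sqrt ((τ + XL) ^ 2 - h ^ 2) := ⟨_, rfl⟩
  obtain ⟨qR, hqR⟩ : ∃ qR, qR = Real.sqrt ((τ + XR) ^ 2 - h ^ 2) := ⟨_, rfl⟩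
  rw [← hqL] at hLL kL
  rw [← hqR] at hRR kR
  obtain ⟨g, hg⟩ : ∃ g, g = (qL + qR) / ((τ + XL) + (τ + XR)) := ⟨_, rfl⟩
  obtain ⟨uq, huq⟩ : ∃ uq, uq = (qL + qR) / (qR - qL) := ⟨_, rfl⟩
  have L1 := hL1 h (τ + XL) (τ + XR) qL qR g uq hh.le (by linarith) (by linarith) hqL hqR hg huq
  have hτd : (τ + XR) - (τ + XL) = XR - XL := by ring
  rw [hτd] at L1
  obtain ⟨l1, l2, -, l4, l5, l6, -, l8, l9, -, l11, l12, -, -⟩ := L1
  have L2 := hL2 h (τ + XL) (τ + XR) qL qR c XL XR ρ D (qL * (1 + c * XL)) (qR * (1 + c * XR))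
    ((τ + XL) / qL * (1 + c * XL) + c * qL) ((τ + XR) / qR * (1 + c * XR) + c * qR) hh.le (by linarith)
    (by linarith) hqL hqR hρ (by linarith) (by linarith) (by linarith)
    (by rw [abs_le]; constructor <;> linarith) (by rw [abs_le]; constructor <;> linarith) hτd.symm
    (by rw [hτd]; linarith) (by
      have := hS.p8 (n := 14) (by norm_num)
      linarith) rfl rfl rfl rfl
  rw [hτd] at L2
  obtain ⟨m1, m2, m3, m4, -, -, -, m8, m9, m10⟩ := L2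
  rw [← huq] at m8 m9 m10
  -- T
  have hTh : |τ + (XL + XR) / 2 - h - D| ≤ K * ε ^ 2 * ρ := by
    have e : τ + (XL + XR) / 2 - h - D = (XL + XR) / 2 := by rw [hD]; ring
    rw [e, abs_div, abs_of_pos (by norm_num : (0 : ℝ) < 2)]
    have := abs_nonneg (XL + XR)
    linarith
  have hThb := abs_le.mp hTh
  have hsqL : 0 ≤ (τ + XL) ^ 2 - h ^ 2 := by
    have : (τ + XL) ^ 2 - h ^ 2 = (τ + XL - h) * (τ + XL + h) := by ring
    rw [this]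
    exact mul_nonneg (by linarith) (by linarith)
  have hsqR : 0 ≤ (τ + XR) ^ 2 - h ^ 2 := by
    have : (τ + XR) ^ 2 - h ^ 2 = (τ + XR - h) * (τ + XR + h) := by ring
    rw [this]
    exact mul_nonneg (by linarith) (by linarith)
  have b1 : qL ^ 2 = (τ + (XL + XR) / 2 - (XR - XL) / 2) ^ 2 - h ^ 2 := by
    rw [hqL, Real.sq_sqrt hsqL]; ring
  have b2 : qR ^ 2 = (τ + (XL + XR) / 2 + (XR - XL) / 2) ^ 2 - h ^ 2 := by
    rw [hqR, Real.sq_sqrt hsqR]; ring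
  obtain ⟨u1, u2⟩ := uql hρ hD1 h16 (T := τ + (XL + XR) / 2) (d := XR - XL) (by linarith [hThb.1]) (by linarith [hThb.2])
    hd0 hd2 rfl rfl l1.le l2 b1 b2
  rw [← huq] at u1 u2
  have hDρ : 7 / 5 ≤ D / ρ := by rw [le_div_iff₀ hρ]; exact hD1
  obtain ⟨uW, huW⟩ : ∃ uW, uW = (qL * (1 + c * XL) + qR * (1 + c * XR)) / (qR * (1 + c * XR) - qL * (1 + c * XL)) := ⟨_, rfl⟩
  rw [← huW] at m8 m9 m10
  have hWW : 0 < qR * (1 + c * XR) - qL * (1 + c * XL) := by linarith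
  have huW0 : 0 ≤ uW := by
    rw [huW]
    exact div_nonneg (by linarith) hWW.le
  obtain ⟨v1, v2⟩ := uw hp0 (by positivity) hWW huW hup hp hLL hRR huW0
  have h14p : 0 < δ ^ 14 := by positivity
  have h116p : 0 < δ ^ 116 := by positivity
  have h14 := hS.p8 (n := 14) (by norm_num)
  have e116 : δ ^ 116 ≤ 1 / 10 ^ 4 * δ ^ 14 := pw1 hδ hS.d1 (by norm_num)
  have m8' : |uW - uq| ≤ 20 * (|c| * D) * uq := by
    refine le_trans m8 (le_of_eq ?_)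
    ring
  obtain ⟨n1, n2, n3, n4⟩ := ub h14 h14p e116 h116p hcD hcD0 m8' v1 (by linarith)
  have hu0 : 0 < u := by linarith
  have ht0 : 0 < t := by rw [ht]; positivity
  have n3b := abs_le.mp n3
  have huq0 : 0 < uq := by linarith
  have hx : δ ^ 14 * uq ≤ 1 / 10 ^ 8 * uq := mul_le_mul_of_nonneg_right h14 huq0.le
  have hx0 : 0 < δ ^ 14 * uq := by positivity
  have huuq : u ≤ (1 + 1 / 10 ^ 7) * uq := by linarith [n3b.2]
  have huqu : uq ≤ 10001 / 10000 * u := by linarith [n3b.1]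
  -- A_L, A_R
  obtain ⟨AL, hAL⟩ : ∃ AL, AL = (qR * (1 + c * XR) - qL * (1 + c * XL)) / ((XR - XL) * ((τ + XL) / qL * (1 + c * XL) + c * qL)) := ⟨_, rfl⟩
  obtain ⟨AR, hAR⟩ : ∃ AR, AR = (qR * (1 + c * XR) - qL * (1 + c * XL)) / ((XR - XL) * ((τ + XR) / qR * (1 + c * XR) + c * qR)) := ⟨_, rfl⟩
  rw [← hAL] at m9
  rw [← hAR] at m10
  have m9' : |uW * (1 - AL) - uq * (1 - (qR - qL) * qL / ((XR - XL) * (τ + XL)))| ≤ 100 * (|c| * D) := by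
    refine le_trans m9 (le_of_eq ?_)
    ring
  have m10' : |uW * (AR - 1) - uq * ((qR - qL) * qR / ((XR - XL) * (τ + XR)) - 1)| ≤ 100 * (|c| * D) := by
    refine le_trans m10 (le_of_eq ?_)
    ring
  have hcD9 : |c| * D ≤ 1 / 10 ^ 9 := by linarith
  obtain ⟨w1', w2', w3', w4', w5'⟩ := ab n1 hcD0 hcD9 m9' m10' l4 l5 l8 l9 l11 l12
  have w3b := abs_le.mp w3'
  have w4b := abs_le.mp w4'
  have hkL : P0 * ((τ + XL) / qL * (1 + c * XL) + c * qL) - 11 * δ ^ 116 * p / ρ ≤ kkL := by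
    refine le_trans (le_of_eq ?_) kL
    ring
  have hkR : P0 * ((τ + XR) / qR * (1 + c * XR) + c * qR) - 11 * δ ^ 116 * p / ρ ≤ kkR := by
    refine le_trans (le_of_eq ?_) kR
    ring
  have pL := kkV (η := 5 * δ ^ 116) (η' := 11 * δ ^ 116) hd0 hd2 hρ m1 hWW hP0 hp0 (by positivity) (by positivity)
    (by linarith) hAL (by linarith) v2 hkL
  have pR := kkV (η := 5 * δ ^ 116) (η' := 11 * δ ^ 116) hd0 hd2 hρ m2 hWW hP0 hp0 (by positivity) (by positivity)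
    (by linarith) hAR (by linarith [w4b.2]) v2 hkR
  have e64 : 4 * (5 * δ ^ 116 + 11 * δ ^ 116) = 64 * δ ^ 116 := by ring
  rw [e64] at pL pR
  have muLb := muV pL (abs_nonneg muL) hsL0 (by linarith [w3b.2]) hd0.le QL (b := 1 + 98 * ε) (by
    have := mul_le_mul_of_nonneg_right hsL (show 0 ≤ 1 + 98 * ε by positivity)
    linarith)
  have muRb := muV pR (abs_nonneg muR) hsR0 (by linarith [w4b.1]) hd0.le QR (b := 1 + 102 * ε) hsR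
  have hup2 : u * p = 2 * NL + p := by rw [hup, hp]; ring
  obtain ⟨z1, z2, z3⟩ := qalg hσ hp0 hconj hup2 hQ hu0 muLb muRb
  -- t crude
  have uqU := uqu hε0 hε1 hρ hh hD0 hTh hS.ke (by linarith [hThb.1]) (by linarith [hThb.1]) hd1 hd2 u2
  have tc := tcr hε0 hε1 hρ hD0 g3 huuq uqU ht
  -- g^2
  have hwτ : w * (2 * ε * τ) = ρ := by rw [hw]; field_simp
  have hg2 : g ^ 2 ≤ 116 / 100 * t := by
    refine gsq (T := τ + (XL + XR) / 2) hτ (by linarith [q1b.1]) hd0 hd2 hu0 huqu hwτ hw2 ht ht0 ?_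
    rw [l6]
    ring
  have h116u : u * δ ^ 116 = δ ^ 16 * t := by rw [ht, hS.e]; ring
  have hQ1 := qnum (m := |mu0| * (u * p)) (e16 := δ ^ 16) hε0 hε1 ht tc n4 n1 n2 hcD9 hcD0 h116p h116u (by positivity)
    (hS.p8 (by norm_num)) v1 w1' w2' w3' w4' w5' hg2 hp0 hp3 (by positivity) hm0 z1 z2
  have hDρ0 : 0 < D / ρ := by positivity
  have hulow : 35 / 10 * (D / ρ) ≤ u := by linarith [n3b.1]
  have e10 : δ ^ 14 ≤ 1 / 10 ^ 4 * δ ^ 10 := pw1 hδ hS.d1 (by norm_num)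
  have ε10 : ε ≤ 1 / 10 ^ 4 * δ ^ 10 := by rw [hS.e]; exact pw1 hδ hS.d1 (by norm_num)
  have ε65 : 5 * ε ≤ δ ^ 65 := by
    have : ε ≤ 1 / 10 ^ 4 * δ ^ 65 := by rw [hS.e]; exact pw1 hδ hS.d1 (by norm_num)
    linarith
  refine ⟨hQ1, ?_, by linarith, hw1, hw2, ?_, ?_, ?_, ?_⟩
  · -- t ≤ 207/1000
    have hTτ : |τ + (XL + XR) / 2 - τ| ≤ 1 / 10 ^ 8 * τ := by
      rw [abs_le]; constructor <;> linarith [q1b.1, q1b.2]
    have hss : (h / τ) ^ 2 ≤ 1 := sq1 (by positivity) hs2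
    have htw := tw hε0 hε1 hρ hτ hτ3 hTτ hd1 hd2 hw rfl ht huuq huq0 hss u2
    have hoff := offs hε0 hτ off hw rfl
    refine tfin (e := 1 / 10 ^ 4) (by norm_num) le_rfl (by linarith) hw2 (by positivity) hs2 ?_ hoff htw ht0.le
    refine le_trans ?_ hw3
    apply mul_le_mul_of_nonneg_right _ (by positivity)
    linarith
  · exact w1 hε0 hρ hh hD hD0 g6 hτ1 hw ht hulow hw3 he0 he ε65
  · have : 2 * D / ρ = 2 * (D / ρ) := by ring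
    rw [this]
    have h10 : 0 < δ ^ 10 * u := by positivity
    linarith
  · exact uup hε0 hε1 hDρ0 h14p e10 ε10 h14 (by linarith [n3b.2]) uqU
  · refine le_trans z3 (max_le ?_ ?_)
    · exact lastb hε0 hε1 hp0 hp3 (by linarith only [w5']) (by linarith only [w3b.2]) h116p
        (hS.p8 (by norm_num)) (by norm_num) (by norm_num)
    · exact lastb hε0 hε1 hp0 hp3 (by linarith only [w4b.2]) (by linarith only [w4b.1]) h116p
        (hS.p8 (by norm_num)) (by norm_num) (by norm_num)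

end

end Pool.Agent.Helper8.CV.R15
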