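import Pool.Agent.Helper36.CV.StmtsR

set_option autoImplicit false

namespace Pool.Agent.Helper8.CV.R16

open Complex Filter Topology MeasureTheory Set
open Pool.Agent.Helper36.CV

noncomputable section

lemma rp {ε : ℝ} (hε : 0 < ε) (n : ℕ) (a : ℝ) (ha : a = n / 100) : ε ^ a = (ε ^ (1 / 100 : ℝ)) ^ n := by
  rw [← Real.rpow_natCast, ← Real.rpow_mul hε.le, ha]
  congr 1
  ring

lemma pw {δ : ℝ} (hδ : 0 < δ) (hδ1 : δ ≤ 1 / 10 ^ 4) {m n : ℕ} (h : m ≤ n) : δ ^ n ≤ δ ^ m :=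
  pow_le_pow_of_le_one hδ.le (by linarith [show (1 : ℝ) / 10 ^ 4 ≤ 1 by norm_num]) h

/-- one power is worth a factor 10^-4 -/
lemma pw1 {δ : ℝ} (hδ : 0 < δ) (hδ1 : δ ≤ 1 / 10 ^ 4) {m n : ℕ} (h : m + 1 ≤ n) : δ ^ n ≤ 1 / 10 ^ 4 * δ ^ m := by
  refine le_trans (pw hδ hδ1 h) ?_
  rw [pow_succ, mul_comm]
  exact mul_le_mul_of_nonneg_right hδ1 (by positivity)

lemma a1 {u ε ρ d m g K : ℝ} (hu : 0 ≤ u) (hε : 0 < ε) (hε1 : ε ≤ 1 / 1000) (hρ : 0 < ρ)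
    (hK : 0 ≤ K)
    (h1 : |m - g - 3 / 4 * ε * ρ| ≤ K * ε ^ 2 * ρ) (h2 : (1 - 2 * ε) * ρ ≤ d) (h3 : d ≤ ρ) :
    |4 * u * m / d - 3 * (ε * u)| ≤ 401 / 100 * u * |g| / ρ + (ε * u) * ((10 + 5 * K) * ε) := by
  have hd : 0 < d := by nlinarith
  have h4 : 4 * u * m / d - 3 * (ε * u) = (4 * u / d) * ((m - g - 3 / 4 * ε * ρ) + (g + 3 / 4 * ε * (ρ - d))) := by
    field_simp
    ring
  have h5 : 4 * u / d ≤ 401 / 100 * u / ρ := by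
    rw [div_le_div_iff₀ hd hρ]
    nlinarith [mul_nonneg hu hρ.le, mul_nonneg hu hε.le, mul_nonneg (mul_nonneg hu hε.le) hρ.le]
  have h6 : |(m - g - 3 / 4 * ε * ρ) + (g + 3 / 4 * ε * (ρ - d))| ≤ K * ε ^ 2 * ρ + (|g| + 3 / 2 * ε ^ 2 * ρ) := by
    refine le_trans (abs_add_le _ _) (add_le_add h1 ?_)
    refine le_trans (abs_add_le _ _) (add_le_add le_rfl ?_)
    rw [abs_of_nonneg (by have : 0 ≤ ρ - d := by linarith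
                          positivity)]
    have : ρ - d ≤ 2 * ε * ρ := by linarith
    nlinarith
  rw [h4, abs_mul, abs_of_nonneg (by positivity)]
  have h7 : 0 ≤ K * ε ^ 2 * ρ + (|g| + 3 / 2 * ε ^ 2 * ρ) := by positivity
  calc 4 * u / d * |(m - g - 3 / 4 * ε * ρ) + (g + 3 / 4 * ε * (ρ - d))|
      ≤ (401 / 100 * u / ρ) * (K * ε ^ 2 * ρ + (|g| + 3 / 2 * ε ^ 2 * ρ)) :=
        mul_le_mul h5 h6 (abs_nonneg _) (by positivity)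
    _ = 401 / 100 * u * |g| / ρ + (ε * u) * ((401 / 100 * K + 401 / 100 * (3 / 2)) * ε) := by
        field_simp
        ring
    _ ≤ _ := by
        have : (401 / 100 * K + 401 / 100 * (3 / 2)) * ε ≤ (10 + 5 * K) * ε := by nlinarith
        have h8 : 0 ≤ ε * u := mul_nonneg hε.le hu
        nlinarith

/-- smallness of the parameters -/
structure Sm (δ ε K : ℝ) : Prop where
  p : 0 < δ
  d1 : δ ≤ 1 / 10 ^ 4
  k0 : 0 ≤ K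
  kd : K * δ ≤ 1 / 10 ^ 4
  e : ε = δ ^ 100

lemma Sm.e0 {δ ε K : ℝ} (h : Sm δ ε K) : 0 < ε := by
  rw [h.e]
  have := h.p
  positivity

lemma Sm.e1 {δ ε K : ℝ} (h : Sm δ ε K) : ε ≤ 1 / 10 ^ 20 := by
  rw [h.e]
  calc δ ^ 100 ≤ δ ^ 5 := pw h.p h.d1 (by norm_num)
    _ ≤ (1 / 10 ^ 4) ^ 5 := pow_le_pow_left₀ h.p.le h.d1 5
    _ = 1 / 10 ^ 20 := by norm_num

lemma Sm.ed {δ ε K : ℝ} (h : Sm δ ε K) : ε ≤ δ := by
  rw [h.e]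
  simpa using pw h.p h.d1 (m := 1) (n := 100) (by norm_num)

lemma Sm.ke {δ ε K : ℝ} (h : Sm δ ε K) : K * ε ≤ 1 / 10 ^ 4 :=
  le_trans (mul_le_mul_of_nonneg_left h.ed h.k0) h.kd

lemma Sm.p8 {δ ε K : ℝ} (h : Sm δ ε K) {n : ℕ} (hn : 2 ≤ n) : δ ^ n ≤ 1 / 10 ^ 8 := by
  calc δ ^ n ≤ δ ^ 2 := pw h.p h.d1 hn
    _ ≤ (1 / 10 ^ 4) ^ 2 := pow_le_pow_left₀ h.p.le h.d1 2
    _ = 1 / 10 ^ 8 := by norm_num

lemma tau1 {ε ρ τ w : ℝ} (hε : 0 < ε) (hτ : 0 < τ) (hw : w = ρ / (2 * ε * τ))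
    (hw1 : 87 / 100 ≤ w) (hw2 : w ≤ 115 / 100) :
    ρ ≤ 23 / 10 * ε * τ ∧ 174 / 100 * ε * τ ≤ ρ := by
  have h0 : 0 < 2 * ε * τ := by positivity
  have h1 : w * (2 * ε * τ) = ρ := by rw [hw]; field_simp
  constructor <;> nlinarith

lemma tau2 {ε ρ τ : ℝ} (hε1 : ε ≤ 1 / 10 ^ 20) (hτ : 0 < τ) (h : ρ ≤ 23 / 10 * ε * τ) : 1000 * ρ ≤ τ := by
  have : ε * τ ≤ 1 / 10 ^ 20 * τ := mul_le_mul_of_nonneg_right hε1 hτ.le
  linarith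

lemma kee {ε K ρ : ℝ} (hKε : K * ε ≤ 1 / 10 ^ 4) (hε : 0 < ε) (hρ : 0 < ρ) :
    K * ε ^ 2 * ρ ≤ 1 / 10 ^ 4 * (ε * ρ) := by
  have : K * ε ^ 2 * ρ = (K * ε) * (ε * ρ) := by ring
  rw [this]
  exact mul_le_mul_of_nonneg_right hKε (by positivity)

lemma dd1 {ε K ρ d : ℝ} (hKε : K * ε ≤ 1 / 10 ^ 4) (hε : 0 < ε) (hρ : 0 < ρ)
    (hd : |d - (1 - ε) * ρ| ≤ K * ε ^ 2 * ρ) : (1 - 2 * ε) * ρ ≤ d ∧ d ≤ ρ := by
  have h1 := kee hKε hε hρ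
  have h2 := abs_le.mp hd
  have h3 : 0 < ε * ρ := by positivity
  constructor <;> linarith [h2.1, h2.2]

lemma ctau {δ ε ρ τ c : ℝ} (hδ : 0 < δ) (hε : ε = δ ^ 100)
    (hτ2 : 174 / 100 * ε * τ ≤ ρ) (hc : |c| * ρ ≤ δ ^ 114) : |c| * τ ≤ 575 / 1000 * δ ^ 14 := by
  have hε0 : 0 < ε := by rw [hε]; positivity
  have h1 : |c| * (174 / 100 * ε * τ) ≤ δ ^ 114 := le_trans (mul_le_mul_of_nonneg_left hτ2 (abs_nonneg c)) hc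
  have h2 : (174 / 100 * (|c| * τ)) * ε ≤ δ ^ 14 * ε := by
    calc (174 / 100 * (|c| * τ)) * ε = |c| * (174 / 100 * ε * τ) := by ring
      _ ≤ δ ^ 114 := h1
      _ = δ ^ 14 * ε := by rw [hε]; ring
  have h3 := le_of_mul_le_mul_right h2 hε0
  have : 0 < δ ^ 14 := by positivity
  linarith

lemma kap {D ρ κ : ℝ} (hρ : 0 < ρ) (hD : 7 / 5 * ρ ≤ D) (hκ : κ = (D + 3 / 5 * ρ) / (D - ρ)) :
    1 ≤ κ ∧ κ ≤ 5 := by
  have hDρ : 0 < D - ρ := by linarith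
  rw [hκ]
  constructor
  · rw [le_div_iff₀ hDρ]
    linarith
  · rw [div_le_iff₀ hDρ]
    linarith

lemma kpi {κ : ℝ} (h1 : 1 ≤ κ) (h5 : κ ≤ 5) : 0 ≤ κ / Real.pi ∧ κ / Real.pi ≤ 160 / 100 ∧ κ / Real.pi ≤ κ := by
  have hπ := Real.pi_gt_d2
  have hπ0 := Real.pi_pos
  refine ⟨by positivity, ?_, ?_⟩
  · rw [div_le_iff₀ hπ0]; linarith
  · rw [div_le_iff₀ hπ0]
    have := mul_le_mul h1 hπ.le (by norm_num) (by linarith)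
    nlinarith

lemma etaG {δ κ n ηG : ℝ} (hδ : 0 < δ) (hδ1 : δ ≤ 1 / 10 ^ 4) (h0 : 0 ≤ κ / Real.pi) (h1 : κ / Real.pi ≤ 160 / 100)
    (hn0 : 0 ≤ n) (hn1 : n ≤ δ ^ 19) (hη : ηG = κ / Real.pi * n + 4 * δ ^ 116) :
    0 ≤ ηG ∧ ηG ≤ 6 * δ ^ 19 := by
  have h2 : δ ^ 116 ≤ δ ^ 19 := pw hδ hδ1 (by norm_num)
  have h3 : κ / Real.pi * n ≤ 160 / 100 * δ ^ 19 := mul_le_mul h1 hn1 hn0 (by norm_num)
  have h4 : 0 < δ ^ 19 := by positivity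
  rw [hη]
  constructor
  · positivity
  · linarith

lemma dv {a b P q e : ℝ} (hP : 0 < P) (h : |a - P * b| ≤ e * q) : |a / P - b| ≤ e * (q / P) := by
  have h1 : a / P - b = (a - P * b) / P := by field_simp
  rw [h1, abs_div, abs_of_pos hP, ← mul_div_assoc]
  exact div_le_div_of_nonneg_right h hP.le

/-- the second term -/
lemma term2 {ε ρ τ d u t w : ℝ} (hε : 0 < ε) (hρ : 0 < ρ) (hτ : 0 < τ) (hu : 0 < u) (ht : t = ε * u)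
    (hw : w = ρ / (2 * ε * τ)) (hw1 : 87 / 100 ≤ w) (hw2 : w ≤ 115 / 100)
    (hd1 : (1 - 2 * ε) * ρ ≤ d) (hd2 : d ≤ ρ) (hd0 : 0 < d) :
    0 ≤ u * d / (2 * τ) ∧ u * d / (2 * τ) ≤ 115 / 100 * t ∧ |t * w - u * d / (2 * τ)| ≤ 3 * ε * t := by
  have hA2 : u * d / (2 * τ) = t * w * (d / ρ) := by
    rw [ht, hw]; field_simp
  have ht0 : 0 < t := by rw [ht]; positivity
  have hr2 : d / ρ ≤ 1 := by rw [div_le_one hρ]; exact hd2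
  have hr2' : 1 - 2 * ε ≤ d / ρ := by rw [le_div_iff₀ hρ]; exact hd1
  have hr20 : 0 < d / ρ := by positivity
  have htw : t * w ≤ 115 / 100 * t := by nlinarith
  have hw0 : 0 < w := by linarith
  have htw0 : 0 < t * w := by positivity
  refine ⟨by positivity, ?_, ?_⟩
  · rw [hA2]
    calc t * w * (d / ρ) ≤ t * w * 1 := mul_le_mul_of_nonneg_left hr2 htw0.le
      _ ≤ _ := by rw [mul_one]; exact htw
  · have h2 : t * w - u * d / (2 * τ) = t * w * (1 - d / ρ) := by rw [hA2]; ring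
    rw [h2, abs_of_nonneg (mul_nonneg htw0.le (by linarith))]
    have h1 : 1 - d / ρ ≤ 2 * ε := by linarith
    calc t * w * (1 - d / ρ) ≤ (115 / 100 * t) * (2 * ε) := mul_le_mul htw h1 (by linarith) (by positivity)
      _ ≤ 3 * ε * t := by nlinarith [mul_pos hε ht0]

lemma mbound {δ ε K ρ XL XR XG : ℝ} (h : Sm δ ε K) (hρ : 0 < ρ) (hs : |XL + XR| ≤ K * ε ^ 2 * ρ)
    (hXG : |XG| ≤ δ ^ 50 * ρ) : |XG - (XL + XR) / 2| ≤ 102 / 100 * δ ^ 50 * ρ := by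
  have h1 : |XG - (XL + XR) / 2| ≤ |XG| + |(XL + XR) / 2| := abs_sub _ _
  have h2 : |(XL + XR) / 2| ≤ 1 / 100 * δ ^ 50 * ρ := by
    rw [abs_div, abs_of_pos (by norm_num : (0 : ℝ) < 2)]
    have h3 : ε ≤ δ ^ 50 := by rw [h.e]; exact pw h.p h.d1 (by norm_num)
    have h4 : ε * ρ ≤ δ ^ 50 * ρ := mul_le_mul_of_nonneg_right h3 hρ.le
    have h5 := kee h.ke h.e0 hρ
    have h6 : 0 < ε * ρ := mul_pos h.e0 hρ
    linarith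
  have h7 : 0 < δ ^ 50 * ρ := by
    have := h.p
    positivity
  linarith

lemma sqq {δ ρ m d : ℝ} (hδ : 0 < δ) (hδ1 : δ ≤ 1 / 10 ^ 4) (hρ : 0 < ρ) (hm : |m| ≤ 102 / 100 * δ ^ 50 * ρ)
    (hd : 99 / 100 * ρ ≤ d) : 5 * m ^ 2 / d ^ 2 ≤ 1 / 10 * δ ^ 14 := by
  have hd0 : 0 < d := by linarith
  rw [div_le_iff₀ (by positivity)]
  have h4 : m ^ 2 ≤ (102 / 100 * δ ^ 50 * ρ) ^ 2 := by
    rw [← sq_abs]
    exact pow_le_pow_left₀ (abs_nonneg _) hm 2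
  have h5 : (99 / 100 * ρ) ^ 2 ≤ d ^ 2 := pow_le_pow_left₀ (by positivity) hd 2
  have h8 : (102 / 100 * δ ^ 50 * ρ) ^ 2 = 10404 / 10000 * (δ ^ 100 * ρ ^ 2) := by ring
  have h7 : δ ^ 100 ≤ 1 / 10 ^ 4 * δ ^ 14 := pw1 hδ hδ1 (by norm_num)
  have h9 : δ ^ 100 * ρ ^ 2 ≤ 1 / 10 ^ 4 * δ ^ 14 * ρ ^ 2 := mul_le_mul_of_nonneg_right h7 (by positivity)
  have h10 : δ ^ 14 * (99 / 100 * ρ) ^ 2 ≤ δ ^ 14 * d ^ 2 := mul_le_mul_of_nonneg_left h5 (by positivity)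
  have h11 : 0 < δ ^ 14 * ρ ^ 2 := by positivity
  have h12 : δ ^ 14 * (99 / 100 * ρ) ^ 2 = 9801 / 10000 * (δ ^ 14 * ρ ^ 2) := by ring
  rw [h12] at h10
  rw [h8] at h4
  linarith

/-- the third term -/
lemma term3 {δ ε K ρ τ c XL XR m d t A : ℝ} (h : Sm δ ε K) (hρ : 0 < ρ) (hτ : 0 < τ) (ht : 0 < t)
    (hτ3 : 1000 * ρ ≤ τ) (hcτ : |c| * τ ≤ 575 / 1000 * δ ^ 14) (hs : |XL + XR| ≤ K * ε ^ 2 * ρ)
    (hm : |m| ≤ 102 / 100 * δ ^ 50 * ρ) (hd : 99 / 100 * ρ ≤ d) (hA : A ≤ 115 / 100 * t) (hA0 : 0 ≤ A) :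
    A * (12 * |c| * τ + 2 * |XL + XR| / τ + 5 * m ^ 2 / d ^ 2) ≤ 9 * δ ^ 14 * t := by
  have hδ := h.p
  have h14 : 0 < δ ^ 14 := by positivity
  have hd0 : 0 < d := by linarith
  have h1 : 12 * |c| * τ ≤ 69 / 10 * δ ^ 14 := by linarith
  have h2 : 2 * |XL + XR| / τ ≤ 1 / 10 * δ ^ 14 := by
    rw [div_le_iff₀ hτ]
    have h3 : ε * ρ ≤ δ ^ 14 * ρ := mul_le_mul_of_nonneg_right (by rw [h.e]; exact pw h.p h.d1 (by norm_num)) hρ.le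
    have h4 : δ ^ 14 * (1000 * ρ) ≤ δ ^ 14 * τ := mul_le_mul_of_nonneg_left hτ3 h14.le
    have h5 : 0 < δ ^ 14 * ρ := by positivity
    have h6 := kee h.ke h.e0 hρ
    have h7 : 0 < ε * ρ := mul_pos h.e0 hρ
    linarith
  have h3 := sqq hδ h.d1 hρ hm hd
  have h4 : 12 * |c| * τ + 2 * |XL + XR| / τ + 5 * m ^ 2 / d ^ 2 ≤ 71 / 10 * δ ^ 14 := by linarith
  have h5 : 0 ≤ 12 * |c| * τ + 2 * |XL + XR| / τ + 5 * m ^ 2 / d ^ 2 := by positivity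
  calc _ ≤ (115 / 100 * t) * (71 / 10 * δ ^ 14) := mul_le_mul hA h4 h5 (by positivity)
    _ ≤ 9 * δ ^ 14 * t := by nlinarith [mul_pos h14 ht]

lemma mdiv {δ ρ m d u : ℝ} (h50 : δ ^ 50 ≤ 1 / 10 ^ 8) (hρ : 0 < ρ) (hu : 0 < u)
    (hm : |m| ≤ 102 / 100 * δ ^ 50 * ρ) (hd : 99 / 100 * ρ ≤ d) : 4 * u * m / d ≤ 1 / 1000 * u := by
  have hd0 : 0 < d := by linarith
  rw [div_le_iff₀ hd0]
  have h1 : m ≤ 102 / 100 * δ ^ 50 * ρ := le_trans (le_abs_self _) hm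
  have h3 : δ ^ 50 * ρ ≤ 1 / 10 ^ 8 * ρ := mul_le_mul_of_nonneg_right h50 hρ.le
  have h4 : 4 * m ≤ 1 / 1000 * d := by linarith
  have := mul_le_mul_of_nonneg_left h4 hu.le
  linarith

/-- the upper bounds of alpha -/
lemma al1 {u p α NL NR NG : ℝ} (hp0 : 0 < p) (hp : p = NR - NL) (hup : u * p = NL + NR) (hαp : α * p = NG)
    (hNG : NG ≤ NR) : α ≤ (u + 1) / 2 := by
  have h1 : 2 * (α * p) ≤ (u + 1) * p := by
    rw [hαp]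
    have : (u + 1) * p = 2 * NR := by rw [add_mul, hup, hp]; ring
    rw [this]; linarith
  have h2 : (2 * α) * p ≤ (u + 1) * p := by linarith
  have := le_of_mul_le_mul_right h2 hp0
  linarith

lemma al2 {u α S : ℝ} (hu : 5 / 2 ≤ u) (h : 4 * α ^ 2 ≤ u ^ 2 + 1 + S) (hS : S ≤ 5 / 1000 * u) : α ≤ 549 / 1000 * u := by
  have hu0 : 0 < u := by linarith
  have h1 : 4 * α ^ 2 ≤ 117 / 100 * u ^ 2 := by nlinarith
  by_contra hcon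
  push Not at hcon
  have h2 : 0 < 549 / 1000 * u := by positivity
  have : (549 / 1000 * u) ^ 2 < α ^ 2 := pow_lt_pow_left₀ hcon h2.le (by norm_num)
  nlinarith [mul_pos hu0 hu0]

lemma et8 {δ ε u t κ n ηG α : ℝ} (hη0 : 0 ≤ ηG) (hη : ηG = κ / Real.pi * n + 4 * δ ^ 116)
    (hα : α ≤ 549 / 1000 * u) (hκ : 1 ≤ κ) (hn : 0 ≤ n) (hu : 0 < u) (h116t : u * δ ^ 116 = δ ^ 16 * t)
    (h16 : 0 < δ ^ 16 * t) :
    8 * α * ηG ≤ 140 / 100 * u * κ * n + 18 * δ ^ 16 * t := by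
  have hπ := Real.pi_gt_d2
  have hπ0 := Real.pi_pos
  have h1 : 8 * α * ηG ≤ 8 * (549 / 1000 * u) * ηG := by
    have := mul_le_mul_of_nonneg_right hα hη0
    linarith
  have h2 : 8 * (549 / 1000 * u) * ηG = 4392 / 1000 / Real.pi * (u * κ * n) + 17568 / 1000 * (u * δ ^ 116) := by
    rw [hη]; field_simp; ring
  have h3 : 4392 / 1000 / Real.pi ≤ 140 / 100 := by
    rw [div_le_iff₀ hπ0]; linarith
  have h4 : 0 ≤ u * κ * n := by positivity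
  have h5 := mul_le_mul_of_nonneg_right h3 h4
  rw [h2, h116t] at h1
  linarith

lemma et12 {δ u t κ n ηG : ℝ} (hη0 : 0 ≤ ηG) (hη1 : ηG ≤ 1 / 10 ^ 6) (hη : ηG = κ / Real.pi * n + 4 * δ ^ 116)
    (hκπ : κ / Real.pi ≤ κ) (hκ : 1 ≤ κ) (hn : 0 ≤ n) (hu : 5 / 2 ≤ u) (h116t : u * δ ^ 116 = δ ^ 16 * t)
    (h116 : 0 < δ ^ 116) :
    12 * ηG ^ 2 ≤ 1 / 100 * u * κ * n + δ ^ 16 * t := by
  have h1 : 12 * ηG ^ 2 ≤ 1 / 100 * ηG := by nlinarith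
  have h3 : κ / Real.pi * n ≤ κ * n := mul_le_mul_of_nonneg_right hκπ hn
  have h4 : 1 * (κ * n) ≤ u * (κ * n) := mul_le_mul_of_nonneg_right (by linarith) (by positivity)
  have h5 : 1 * δ ^ 116 ≤ u * δ ^ 116 := mul_le_mul_of_nonneg_right (by linarith) h116.le
  rw [← h116t]
  rw [hη] at h1 ⊢
  nlinarith

lemma crude {δ ε u t α ηG : ℝ} (hu : 5 / 2 ≤ u) (hη0 : 0 ≤ ηG) (hη1 : ηG ≤ 1 / 10 ^ 6)
    (hα : α ≤ (u + 1) / 2) (h116 : δ ^ 116 ≤ 1 / 10 ^ 8) (h14 : δ ^ 14 ≤ 1 / 10 ^ 8)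
    (h14p : 0 < δ ^ 14) (h116p : 0 < δ ^ 116) (hε : 0 < ε) (hε1 : ε ≤ 1 / 10 ^ 20) (ht : t = ε * u) :
    8 * α * ηG + 12 * ηG ^ 2 + 20 * u * (5 * δ ^ 116) + 9 * δ ^ 14 * t ≤ 4 / 1000 * u := by
  have hu0 : 0 < u := by linarith
  have h1 : α * ηG ≤ (u + 1) / 2 * ηG := mul_le_mul_of_nonneg_right hα hη0
  have h2 : (u + 1) / 2 * ηG ≤ u * (1 / 10 ^ 6) := mul_le_mul (by linarith) hη1 hη0 hu0.le
  have h3 : ηG ^ 2 ≤ 1 / 10 ^ 6 := by nlinarith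
  have h4 : u * δ ^ 116 ≤ u * (1 / 10 ^ 8) := mul_le_mul_of_nonneg_left h116 hu0.le
  have h5 : t ≤ u := by
    rw [ht]
    have := mul_le_mul_of_nonneg_right (show ε ≤ 1 by linarith [show (1 : ℝ) / 10 ^ 20 ≤ 1 by norm_num]) hu0.le
    linarith
  have ht0 : 0 < t := by rw [ht]; positivity
  have h6 : δ ^ 14 * t ≤ 1 / 10 ^ 8 * u := mul_le_mul h14 h5 ht0.le (by norm_num)
  linarith

/-- part (1) -/
lemma part1 (hL4 : ST_L4) {δ ε K ρ h τ D c XL XR XG g P0 NL NR NG J nG κ u t w p α : ℝ}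
    (hS : Sm δ ε K)
    (hρ : 0 < ρ) (hh : 0 ≤ h) (hD : D = τ - h) (hD1 : 7 / 5 * ρ ≤ D)
    (hw : w = ρ / (2 * ε * τ)) (hw1 : 87 / 100 ≤ w) (hw2 : w ≤ 115 / 100) (hu : 5 / 2 ≤ u) (ht : t = ε * u)
    (hs : |XL + XR| ≤ K * ε ^ 2 * ρ) (hd : |XR - XL - (1 - ε) * ρ| ≤ K * ε ^ 2 * ρ)
    (hg : |XG - (XL + XR) / 2 - g - 3 / 4 * ε * ρ| ≤ K * ε ^ 2 * ρ)
    (hXG : |XG| ≤ δ ^ 50 * ρ) (hc : |c| * ρ ≤ δ ^ 114)
    (hP0 : 0 < P0) (hp : p = NR - NL) (hp0 : 0 < p) (hup : u * p = NL + NR) (hαp : α * p = NG) (hNG : NG ≤ NR)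
    (hκ : κ = (D + 3 / 5 * ρ) / (D - ρ)) (hJ : J ≤ 4 * p) (hnG : 0 ≤ nG) (hnG1 : nG ≤ δ ^ 19 * p)
    (hLL : |NL - P0 * (Real.sqrt ((τ + XL) ^ 2 - h ^ 2) * (1 + c * XL))| ≤ 5 * δ ^ 116 * p)
    (hRR : |NR - P0 * (Real.sqrt ((τ + XR) ^ 2 - h ^ 2) * (1 + c * XR))| ≤ 5 * δ ^ 116 * p)
    (hGG : |NG - P0 * (Real.sqrt ((τ + XG) ^ 2 - h ^ 2) * (1 + c * XG))| ≤ κ / Real.pi * nG + δ ^ 116 * J) :
    |4 * α ^ 2 - u ^ 2 - 1 - t * (3 - w)| ≤ δ ^ 12 * t + 401 / 100 * u * |g| / ρ + 3 / 2 * κ * u * nG / p := by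
  have hε0 := hS.e0
  have hε1 := hS.e1
  have hδ := hS.p
  have hτ : 0 < τ := by linarith
  obtain ⟨hτ1, hτ2⟩ := tau1 hε0 hτ hw hw1 hw2
  have hτ3 := tau2 hε1 hτ hτ1
  obtain ⟨hd1, hd2⟩ := dd1 hS.ke hε0 hρ hd
  have hcτ := ctau hδ hS.e hτ2 hc
  obtain ⟨hκ1, hκ5⟩ := kap hρ hD1 hκ
  obtain ⟨hκπ0, hκπ, hκπ1⟩ := kpi hκ1 hκ5
  have hερ : ε * ρ ≤ 1 / 10 ^ 20 * ρ := mul_le_mul_of_nonneg_right hε1 hρ.le
  have hd3 : 99 / 100 * ρ ≤ XR - XL := by linarith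
  have hd0 : 0 < XR - XL := by linarith
  have hu0 : 0 < u := by linarith
  have ht0 : 0 < t := by rw [ht]; positivity
  have h14 := hS.p8 (n := 14) (by norm_num)
  have h19 := hS.p8 (n := 19) (by norm_num)
  have h50 := hS.p8 (n := 50) (by norm_num)
  have h116 := hS.p8 (n := 116) (by norm_num)
  have h14p : 0 < δ ^ 14 := by positivity
  have h116p : 0 < δ ^ 116 := by positivity
  obtain ⟨n, hn⟩ : ∃ n, n = nG / p := ⟨_, rfl⟩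
  obtain ⟨ηG, hηG⟩ : ∃ ηG, ηG = κ / Real.pi * n + 4 * δ ^ 116 := ⟨_, rfl⟩
  have hn0 : 0 ≤ n := by rw [hn]; exact div_nonneg hnG hp0.le
  have hn1 : n ≤ δ ^ 19 := by rw [hn, div_le_iff₀ hp0]; exact hnG1
  have hnp : n * p = nG := by rw [hn]; field_simp
  obtain ⟨hη0, hη1'⟩ := etaG hδ hS.d1 hκπ0 hκπ hn0 hn1 hηG
  have hη1 : ηG ≤ 1 / 10 ^ 6 := by linarith
  have h50ρ : δ ^ 50 * ρ ≤ 1 / 10 ^ 8 * ρ := mul_le_mul_of_nonneg_right h50 hρ.le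
  have hsb := abs_le.mp hs
  have hdb := abs_le.mp hd
  have hkee := kee hS.ke hε0 hρ
  have hερ0 : 0 < ε * ρ := by positivity
  have key := hL4 h τ ρ c XL XR XG (Real.sqrt ((τ + XL) ^ 2 - h ^ 2) * (1 + c * XL))
    (Real.sqrt ((τ + XR) ^ 2 - h ^ 2) * (1 + c * XR)) (Real.sqrt ((τ + XG) ^ 2 - h ^ 2) * (1 + c * XG))
    (NL / P0) (NR / P0) (NG / P0) (p / P0) u α (5 * δ ^ 116) ηG hh hρ (by linarith) hτ3
    (by rw [abs_le]; constructor <;> linarith [hsb.1, hsb.2, hdb.1, hdb.2])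
    (by rw [abs_le]; constructor <;> linarith [hsb.1, hsb.2, hdb.1, hdb.2])
    (by linarith [hXG]) (by linarith) rfl rfl rfl
    (by rw [hp]; ring) (div_pos hp0 hP0) (by rw [← mul_div_assoc, hup]; ring) (by rw [← mul_div_assoc, hαp])
    (by positivity) (by linarith) hη0 (by linarith)
    (dv hP0 hLL) (dv hP0 hRR)
    (dv hP0 (by
      refine le_trans hGG ?_
      have h1 : ηG * p = κ / Real.pi * nG + 4 * δ ^ 116 * p := by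
        rw [hηG, ← hnp]; ring
      rw [h1]
      have := mul_le_mul_of_nonneg_left hJ h116p.le
      linarith))
  obtain ⟨m, hm⟩ : ∃ m, m = XG - (XL + XR) / 2 := ⟨_, rfl⟩
  obtain ⟨d, hdd⟩ : ∃ d, d = XR - XL := ⟨_, rfl⟩
  rw [← hm, ← hdd] at key
  rw [← hdd] at hd1 hd2 hd3 hd0
  rw [← hm] at hg
  have hm1 : |m| ≤ 102 / 100 * δ ^ 50 * ρ := by rw [hm]; exact mbound hS hρ hs hXG
  obtain ⟨hA20, hA2, hA2'⟩ := term2 hε0 hρ hτ hu0 ht hw hw1 hw2 hd1 hd2 hd0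
  have hA1 := a1 (u := u) (K := K) hu0.le hε0 (by linarith) hρ hS.k0 hg hd1 hd2
  have hA3 := term3 (c := c) hS hρ hτ ht0 hτ3 hcτ hs hm1 hd3 hA2 hA20
  have hα1 := al1 hp0 hp hup hαp hNG
  have h116t : u * δ ^ 116 = δ ^ 16 * t := by rw [ht, hS.e]; ring
  have hb := abs_le.mp key
  have hmdn := mdiv h50 hρ hu0 hm1 hd3
  have hcr := crude hu hη0 hη1 hα1 h116 h14 h14p h116p hε0 hε1 ht
  have hα2 : α ≤ 549 / 1000 * u := by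
    refine al2 hu (S := 4 * u * m / d + (9 * δ ^ 14 * t + 8 * α * ηG + 12 * ηG ^ 2 + 20 * u * (5 * δ ^ 116))) ?_ ?_
    · linarith [hb.2]
    · linarith
  have h16 : 0 < δ ^ 16 * t := by positivity
  have hG8 := et8 (ε := ε) hη0 hηG hα2 hκ1 hn0 hu0 h116t h16
  have hG12 := et12 hη0 hη1 hηG hκπ1 hκ1 hn0 hu h116t h116p
  have hE : 20 * u * (5 * δ ^ 116) = 100 * (δ ^ 16 * t) := by rw [← h116t]; ring
  have hdiff : 4 * α ^ 2 - u ^ 2 - 1 - t * (3 - w) =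
      (4 * α ^ 2 - u ^ 2 - 1 - 4 * u * m / d + u * d / (2 * τ)) + (4 * u * m / d - 3 * (ε * u)) +
        (t * w - u * d / (2 * τ)) := by
    rw [ht]; ring
  have htot : |4 * α ^ 2 - u ^ 2 - 1 - t * (3 - w)| ≤
      (9 * δ ^ 14 * t + (140 / 100 * u * κ * n + 18 * δ ^ 16 * t) + (1 / 100 * u * κ * n + δ ^ 16 * t)
        + 100 * (δ ^ 16 * t)) + (401 / 100 * u * |g| / ρ + (ε * u) * ((10 + 5 * K) * ε)) + 3 * ε * t := by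
    rw [hdiff]
    refine le_trans (abs_add_le _ _) (add_le_add (le_trans (abs_add_le _ _) (add_le_add ?_ hA1)) hA2')
    linarith
  refine le_trans htot ?_
  have e1 : 3 / 2 * κ * u * nG / p = 150 / 100 * u * κ * n := by rw [hn]; ring
  rw [e1, ← ht]
  have q16 : δ ^ 16 * t ≤ 1 / 10 ^ 4 * δ ^ 12 * t := mul_le_mul_of_nonneg_right (pw1 hδ hS.d1 (by norm_num)) ht0.le
  have q14 : δ ^ 14 * t ≤ 1 / 10 ^ 4 * δ ^ 12 * t := mul_le_mul_of_nonneg_right (pw1 hδ hS.d1 (by norm_num)) ht0.le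
  have qε : ε * t ≤ 1 / 10 ^ 4 * δ ^ 12 * t := by
    rw [hS.e]
    exact mul_le_mul_of_nonneg_right (pw1 hδ hS.d1 (by norm_num)) ht0.le
  have qK : K * ε * t ≤ 1 / 10 ^ 4 * δ ^ 12 * t := by
    have h1 : K * ε = (K * δ) * (δ ^ 99) := by rw [hS.e]; ring
    have h2 : δ ^ 99 ≤ δ ^ 12 := pw hδ hS.d1 (by norm_num)
    have h3 : K * ε ≤ 1 / 10 ^ 4 * δ ^ 12 := by
      rw [h1]
      exact mul_le_mul hS.kd h2 (by positivity) (by norm_num)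
    exact mul_le_mul_of_nonneg_right h3 ht0.le
  have hun : 0 ≤ u * κ * n := by positivity
  have h12t : 0 < δ ^ 12 * t := by positivity
  have e2 : t * ((10 + 5 * K) * ε) = 10 * (ε * t) + 5 * (K * ε * t) := by ring
  rw [e2]
  linarith

end

end Pool.Agent.Helper8.CV.R16
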