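import Pool.Agent.Helper8.CV.R16A

set_option autoImplicit false

namespace Pool.Agent.Helper8.CV.R16

open Complex Filter Topology MeasureTheory Set
open Pool.Agent.Helper36.CV

noncomputable section

lemma rbound {T h d D ρ v : ℝ} (hρ : 0 < ρ) (hD : 7 / 5 * ρ ≤ D) (hh : 6 * D ≤ h)
    (hT1 : (1 - 1 / 10 ^ 6) * D ≤ T - h) (hT2 : T - h ≤ 101 / 100 * D) (hd0 : 0 < d) (hd : d ≤ ρ)
    (hv : v = ρ / D) : T * d ≤ (546 / 1000 * v) * (T ^ 2 - h ^ 2) := by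
  have hD0 : 0 < D := by linarith
  have hv0 : 0 < v := by rw [hv]; positivity
  have hvD : v * D = ρ := by rw [hv]; field_simp
  have h1 : T ≤ 6 / 11 * (T + h) := by linarith
  have hTh : 0 < T + h := by nlinarith
  have h2 : d ≤ v * (1001 / 1000 * (T - h)) := by
    have : D ≤ 1001 / 1000 * (T - h) := by linarith
    calc d ≤ v * D := by rw [hvD]; exact hd
      _ ≤ _ := mul_le_mul_of_nonneg_left this hv0.le
  have h3 : T * d ≤ (6 / 11 * (T + h)) * (v * (1001 / 1000 * (T - h))) :=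
    mul_le_mul h1 h2 hd0.le (by linarith)
  have h4 : (6 / 11 * (T + h)) * (v * (1001 / 1000 * (T - h))) = (6 / 11 * (1001 / 1000) * v) * (T ^ 2 - h ^ 2) := by ring
  have h5 : 0 < T ^ 2 - h ^ 2 := by
    have : T ^ 2 - h ^ 2 = (T - h) * (T + h) := by ring
    rw [this]
    exact mul_pos (by linarith) hTh
  rw [h4] at h3
  have h6 : 0 < v * (T ^ 2 - h ^ 2) := by positivity
  nlinarith

lemma conc {S T d r qL qR : ℝ} (hS : 0 < S) (hr0 : 0 ≤ r) (hr1 : r ≤ 1) (hTd : T * d ≤ r * S) (hTd0 : 0 ≤ T * d)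
    (hL : 0 ≤ qL) (hR : 0 ≤ qR) (hL2 : qL ^ 2 = S - T * d + d ^ 2 / 4) (hR2 : qR ^ 2 = S + T * d + d ^ 2 / 4) :
    4 * S * (1 - r ^ 2 * (1 + r ^ 2) / 4) ≤ (qL + qR) ^ 2 := by
  have h1 : (qL * qR) ^ 2 = (S + d ^ 2 / 4) ^ 2 - (T * d) ^ 2 := by
    rw [mul_pow, hL2, hR2]; ring
  have h2 : (T * d) ^ 2 ≤ (r * S) ^ 2 := pow_le_pow_left₀ hTd0 hTd 2
  have h3 : S ^ 2 ≤ (S + d ^ 2 / 4) ^ 2 := pow_le_pow_left₀ hS.le (by nlinarith [sq_nonneg d]) 2
  have hr2 : r ^ 2 ≤ 1 := by nlinarith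
  have hr20 : 0 ≤ r ^ 2 := sq_nonneg r
  have h4 : 0 ≤ S * (1 - r ^ 2 / 2 - (r ^ 2) ^ 2 / 2) := by
    apply mul_nonneg hS.le
    nlinarith
  have h5 : (S * (1 - r ^ 2 / 2 - (r ^ 2) ^ 2 / 2)) ^ 2 ≤ (qL * qR) ^ 2 := by
    have h6 : (1 - r ^ 2 / 2 - (r ^ 2) ^ 2 / 2) ^ 2 ≤ 1 - r ^ 2 := by
      obtain ⟨R, hR'⟩ : ∃ R, R = r ^ 2 := ⟨_, rfl⟩
      rw [← hR'] at hr2 hr20 ⊢
      have : 1 - R - (1 - R / 2 - R ^ 2 / 2) ^ 2 = R ^ 2 * (1 - (1 + R) ^ 2 / 4) := by ring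
      have h7 : 0 ≤ R ^ 2 * (1 - (1 + R) ^ 2 / 4) := by
        apply mul_nonneg (sq_nonneg R)
        nlinarith
      linarith
    have h7 : (S * (1 - r ^ 2 / 2 - (r ^ 2) ^ 2 / 2)) ^ 2 = S ^ 2 * (1 - r ^ 2 / 2 - (r ^ 2) ^ 2 / 2) ^ 2 := by ring
    have h8 := mul_le_mul_of_nonneg_left h6 (sq_nonneg S)
    rw [h7, h1]
    nlinarith
  have h6 : S * (1 - r ^ 2 / 2 - (r ^ 2) ^ 2 / 2) ≤ qL * qR := (sq_le_sq₀ h4 (by positivity)).mp h5
  have h7 : (qL + qR) ^ 2 = qL ^ 2 + qR ^ 2 + 2 * (qL * qR) := by ring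
  rw [h7, hL2, hR2]
  nlinarith [sq_nonneg d]

lemma numz {z e : ℝ} (hz0 : 0 ≤ z) (hz : z ≤ 25 / 49) (he0 : 0 ≤ e) (he : e ≤ 1 / 10 ^ 8) :
    1 + 2 * e ≤ (1 + 458 / 10000 * z + 2 * e) ^ 2 * (1 - 859 / 10000 * z) := by
  have h1 : 0 ≤ z * (25 / 49 - z) := mul_nonneg hz0 (by linarith)
  have h2 : 0 ≤ z ^ 2 * (25 / 49 - z) := mul_nonneg (sq_nonneg z) (by linarith)
  have h3 : 0 ≤ e * (25 / 49 - z) := mul_nonneg he0 (by linarith)
  have h4 : 0 ≤ e * z := mul_nonneg he0 hz0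
  have h5 : 0 ≤ e * z * (25 / 49 - z) := mul_nonneg h4 (by linarith)
  have h6 : 0 ≤ e ^ 2 * (25 / 49 - z) := mul_nonneg (sq_nonneg e) (by linarith)
  nlinarith [sq_nonneg e, sq_nonneg z]

lemma rz {r z v : ℝ} (hr0 : 0 ≤ r) (hv0 : 0 ≤ v) (hr : r = 546 / 1000 * v) (hz : z = v ^ 2) (hz1 : z ≤ 25 / 49) :
    r ^ 2 * (1 + r ^ 2) / 4 ≤ 859 / 10000 * z := by
  have h1 : r ^ 2 = 298116 / 1000000 * z := by rw [hr, hz]; ring
  have hz0 : 0 ≤ z := by rw [hz]; positivity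
  rw [h1]
  nlinarith [mul_nonneg hz0 (by linarith : (0 : ℝ) ≤ 25 / 49 - z)]

/-- comparison of the mean slope with the slope at a central point: pure square root -/
lemma slope0 {δ ρ h D T d v XG τ qL qR qG z : ℝ} (hδ : 0 < δ) (h50 : δ ^ 50 ≤ 1 / 10 ^ 8)
    (hρ : 0 < ρ) (hD : 7 / 5 * ρ ≤ D) (hh : 6 * D ≤ h) (hτ3 : 1000 * ρ ≤ τ)
    (hT1 : (1 - 1 / 10 ^ 6) * D ≤ T - h) (hT2 : T - h ≤ 101 / 100 * D) (hd0 : 0 < d) (hd : d ≤ ρ)
    (hv : v = ρ / D) (hz : z = v ^ 2) (hTτ : |T - τ| ≤ 1 / 100 * ρ) (hm : |τ + XG - T| ≤ 102 / 100 * δ ^ 50 * ρ)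
    (hL : 0 ≤ qL) (hR : 0 ≤ qR) (hG : 0 < qG)
    (hL2 : qL ^ 2 = (T - d / 2) ^ 2 - h ^ 2) (hR2 : qR ^ 2 = (T + d / 2) ^ 2 - h ^ 2)
    (hG2 : qG ^ 2 = (τ + XG) ^ 2 - h ^ 2) :
    qR - qL ≤ d * ((τ + XG) / qG) * ((1 + 458 / 10000 * z + 2 * δ ^ 50) * (1 + δ ^ 50)) := by
  have hD0 : 0 < D := by linarith
  have hv0 : 0 < v := by rw [hv]; positivity
  have hv1 : v ≤ 5 / 7 := by rw [hv, div_le_iff₀ hD0]; linarith
  have hz1 : z ≤ 25 / 49 := by rw [hz]; nlinarith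
  have hz0 : 0 ≤ z := by rw [hz]; positivity
  have e0 : 0 < δ ^ 50 := by positivity
  have hτ0 : 0 < τ := by linarith
  have hTb := abs_le.mp hTτ
  have hT0 : 0 < T := by linarith
  have hS : 0 < T ^ 2 - h ^ 2 := by
    have : T ^ 2 - h ^ 2 = (T - h) * (T + h) := by ring
    rw [this]
    exact mul_pos (by linarith) (by linarith)
  have hrb := rbound hρ hD hh hT1 hT2 hd0 hd hv
  have hTd0 : 0 < T * d := by positivity
  have hc := conc (S := T ^ 2 - h ^ 2) (T := T) (d := d) (r := 546 / 1000 * v) (qL := qL) (qR := qR) hS (by positivity)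
    (by linarith) hrb hTd0.le hL hR (by rw [hL2]; ring) (by rw [hR2]; ring)
  have hrz := rz (r := 546 / 1000 * v) (by positivity) hv0.le rfl hz hz1
  have hc2 : 4 * (T ^ 2 - h ^ 2) * (1 - 859 / 10000 * z) ≤ (qL + qR) ^ 2 := by
    refine le_trans ?_ hc
    apply mul_le_mul_of_nonneg_left _ (by positivity)
    linarith
  -- bound for qG
  have hmb := abs_le.mp hm
  have h50ρ : δ ^ 50 * ρ ≤ 1 / 10 ^ 8 * ρ := mul_le_mul_of_nonneg_right h50 hρ.le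
  have h50ρ0 : 0 < δ ^ 50 * ρ := by positivity
  have hG3 : qG ^ 2 ≤ (T ^ 2 - h ^ 2) * (1 + 2 * δ ^ 50) := by
    have h1 : qG ^ 2 = (T ^ 2 - h ^ 2) + (τ + XG - T) * (τ + XG + T) := by rw [hG2]; ring
    have h2 : (τ + XG - T) * (τ + XG + T) ≤ (102 / 100 * δ ^ 50 * ρ) * (21 / 10 * T) := by
      have h3 : τ + XG + T ≤ 21 / 10 * T := by linarith
      have h4 : 0 ≤ τ + XG + T := by linarith
      exact mul_le_mul hmb.2 h3 h4 (by positivity)
    have h3 : 13 / 10 * ρ * T ≤ T ^ 2 - h ^ 2 := by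
      have h4 : T ^ 2 - h ^ 2 = (T - h) * (T + h) := by ring
      rw [h4]
      exact mul_le_mul (by linarith) (by linarith) hT0.le (by linarith)
    have h4 := mul_le_mul_of_nonneg_left h3 e0.le
    have h5 : 0 < δ ^ 50 * (ρ * T) := by positivity
    rw [h1]
    nlinarith
  have hβ0 : 0 < 1 + 458 / 10000 * z + 2 * δ ^ 50 := by positivity
  have hnum := numz hz0 hz1 e0.le h50
  have h2q : 2 * qG ≤ (1 + 458 / 10000 * z + 2 * δ ^ 50) * (qL + qR) := by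
    apply (sq_le_sq₀ (by positivity) (by positivity)).mp
    have h1 : (2 * qG) ^ 2 = 4 * qG ^ 2 := by ring
    rw [h1, mul_pow]
    calc 4 * qG ^ 2 ≤ 4 * ((T ^ 2 - h ^ 2) * (1 + 2 * δ ^ 50)) := by linarith
      _ ≤ 4 * ((T ^ 2 - h ^ 2) * ((1 + 458 / 10000 * z + 2 * δ ^ 50) ^ 2 * (1 - 859 / 10000 * z))) := by
          have := mul_le_mul_of_nonneg_left hnum hS.le
          linarith
      _ = (1 + 458 / 10000 * z + 2 * δ ^ 50) ^ 2 * (4 * (T ^ 2 - h ^ 2) * (1 - 859 / 10000 * z)) := by ring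
      _ ≤ _ := mul_le_mul_of_nonneg_left hc2 (by positivity)
  have hqs : 0 < qL + qR := by
    by_contra hcon
    push Not at hcon
    have : (1 + 458 / 10000 * z + 2 * δ ^ 50) * (qL + qR) ≤ 0 := mul_nonpos_of_nonneg_of_nonpos hβ0.le hcon
    linarith
  have hdiff : (qR - qL) * (qL + qR) = 2 * T * d := by
    have : (qR - qL) * (qL + qR) = qR ^ 2 - qL ^ 2 := by ring
    rw [this, hL2, hR2]; ring
  have hT3 : T ≤ (τ + XG) * (1 + δ ^ 50) := by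
    have h1 : 999 * ρ ≤ τ + XG := by linarith
    have h2 := mul_le_mul_of_nonneg_left h1 e0.le
    linarith
  have hqd0 : 0 ≤ qR - qL := by
    by_contra hcon
    push Not at hcon
    have : (qR - qL) * (qL + qR) < 0 := mul_neg_of_neg_of_pos hcon hqs
    rw [hdiff] at this
    linarith
  -- (qR - qL) * 2 qG <= (1+β) 2 T d
  have h5 : (qR - qL) * (2 * qG) ≤ (1 + 458 / 10000 * z + 2 * δ ^ 50) * (2 * T * d) := by
    calc (qR - qL) * (2 * qG) ≤ (qR - qL) * ((1 + 458 / 10000 * z + 2 * δ ^ 50) * (qL + qR)) :=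
          mul_le_mul_of_nonneg_left h2q hqd0
      _ = (1 + 458 / 10000 * z + 2 * δ ^ 50) * ((qR - qL) * (qL + qR)) := by ring
      _ = _ := by rw [hdiff]
  have h6 : (qR - qL) * qG ≤ (1 + 458 / 10000 * z + 2 * δ ^ 50) * (((τ + XG) * (1 + δ ^ 50)) * d) := by
    have h7 : T * d ≤ ((τ + XG) * (1 + δ ^ 50)) * d := mul_le_mul_of_nonneg_right hT3 hd0.le
    have h8 := mul_le_mul_of_nonneg_left h7 hβ0.le
    linarith
  have h7 : qR - qL ≤ ((1 + 458 / 10000 * z + 2 * δ ^ 50) * (((τ + XG) * (1 + δ ^ 50)) * d)) / qG := by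
    rw [le_div_iff₀ hG]; exact h6
  refine le_trans h7 (le_of_eq ?_)
  field_simp

/-- with the factor 1 + c X -/
lemma slope1 {ρ T d XL XR XG τ c qL qR qG h : ℝ}
    (hρ : 0 < ρ) (hτ3 : 1000 * ρ ≤ τ) (hd0 : 0 < d) (hd : d = XR - XL)
    (hT : T = τ + (XL + XR) / 2) (hXL : |XL| ≤ ρ) (hXR : |XR| ≤ ρ) (hXG : |XG| ≤ ρ)
    (hL : 0 ≤ qL) (hqLR : qL ≤ qR) (hG : 0 < qG)
    (hL2 : qL ^ 2 = (T - d / 2) ^ 2 - h ^ 2) (hR2 : qR ^ 2 = (T + d / 2) ^ 2 - h ^ 2)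
    (hG2 : qG ^ 2 = (τ + XG) ^ 2 - h ^ 2) :
    qR * (1 + c * XR) - qL * (1 + c * XL) ≤ (qR - qL) * (1 + 11 / 10 * (|c| * τ)) ∧
    (τ + XG) / qG * (1 - 11 / 10 * (|c| * τ)) ≤ (τ + XG) / qG * (1 + c * XG) + qG * c := by
  have hL' := abs_le.mp hXL
  have hR' := abs_le.mp hXR
  have hG' := abs_le.mp hXG
  have hc0 := abs_nonneg c
  have hτ0 : 0 < τ := by linarith
  have hcτ0 : 0 ≤ |c| * τ := by positivity
  have hcρ : |c| * ρ ≤ 1 / 1000 * (|c| * τ) := by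
    have := mul_le_mul_of_nonneg_left hτ3 hc0
    linarith
  have hTb : T ≤ 1001 / 1000 * τ ∧ 999 / 1000 * τ ≤ T := by
    rw [hT]; constructor <;> linarith
  have hT0 : 0 < T := by linarith [hTb.2]
  have hdiff : (qR - qL) * (qL + qR) = 2 * T * d := by
    have : (qR - qL) * (qL + qR) = qR ^ 2 - qL ^ 2 := by ring
    rw [this, hL2, hR2]; ring
  have hR0 : 0 ≤ qR := le_trans hL hqLR
  have hqd0 : 0 ≤ qR - qL := by linarith
  constructor
  · have h1 : qR * (1 + c * XR) - qL * (1 + c * XL) = (qR - qL) * (1 + c * XR) + c * (qL * d) := by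
      rw [hd]; ring
    have h2 : c * XR ≤ |c| * ρ := by
      refine le_trans (le_abs_self _) ?_
      rw [abs_mul]
      exact mul_le_mul_of_nonneg_left hXR hc0
    have h3 : qL * d * T ≤ (qR - qL) * qR ^ 2 := by
      have h4 : qL * d * T = qL * ((qR - qL) * (qL + qR)) / 2 := by rw [hdiff]; ring
      have h5 : qL * (qL + qR) ≤ qR * (2 * qR) := mul_le_mul hqLR (by linarith) (by linarith) hR0
      have h6 := mul_le_mul_of_nonneg_left h5 hqd0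
      rw [h4]; nlinarith
    have h4 : qR ^ 2 ≤ 104 / 100 * τ * T := by
      rw [hR2]
      have h5 : (T + d / 2) ^ 2 ≤ (1001 / 1000 * τ) ^ 2 := by
        have h6 : T + d / 2 = τ + XR := by rw [hT, hd]; ring
        rw [h6]
        exact pow_le_pow_left₀ (by linarith) (by linarith) 2
      have h6 : 0 ≤ h ^ 2 := sq_nonneg h
      have h7 : 999 / 1000 * τ * τ ≤ T * τ := mul_le_mul_of_nonneg_right hTb.2 hτ0.le
      nlinarith
    have h5 : qL * d ≤ (qR - qL) * (104 / 100 * τ) := by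
      have h6 : qL * d * T ≤ (qR - qL) * (104 / 100 * τ) * T := by
        refine le_trans h3 ?_
        have := mul_le_mul_of_nonneg_left h4 hqd0
        linarith
      exact le_of_mul_le_mul_right h6 hT0
    have h6 : c * (qL * d) ≤ |c| * ((qR - qL) * (104 / 100 * τ)) := by
      calc c * (qL * d) ≤ |c| * (qL * d) := mul_le_mul_of_nonneg_right (le_abs_self c) (by positivity)
        _ ≤ _ := mul_le_mul_of_nonneg_left h5 hc0
    have h7 : (qR - qL) * (1 + c * XR) ≤ (qR - qL) * (1 + 1 / 1000 * (|c| * τ)) :=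
      mul_le_mul_of_nonneg_left (by linarith) hqd0
    have h8 : 0 ≤ (qR - qL) * (|c| * τ) := mul_nonneg hqd0 hcτ0
    rw [h1]
    nlinarith
  · have h0 : 0 < τ + XG := by linarith
    have hq0 : 0 < (τ + XG) / qG := by positivity
    have h1 : qG = (τ + XG) / qG * (qG ^ 2 / (τ + XG)) := by field_simp
    have h2 : qG ^ 2 / (τ + XG) ≤ 1001 / 1000 * τ := by
      rw [div_le_iff₀ h0, hG2]
      have h3 : 0 ≤ h ^ 2 := sq_nonneg h
      have h4 : τ + XG ≤ 1001 / 1000 * τ := by linarith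
      have h5 := mul_le_mul_of_nonneg_right h4 h0.le
      nlinarith
    have h3 : qG ≤ (τ + XG) / qG * (1001 / 1000 * τ) := by
      calc qG = (τ + XG) / qG * (qG ^ 2 / (τ + XG)) := h1
        _ ≤ _ := mul_le_mul_of_nonneg_left h2 hq0.le
    have h4 : -(|c| * ((τ + XG) / qG * (1001 / 1000 * τ))) ≤ qG * c := by
      have h5 : -(|c| * qG) ≤ qG * c := by
        have := neg_abs_le c
        nlinarith
      have h6 := mul_le_mul_of_nonneg_left h3 hc0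
      linarith
    have h5 : -(|c| * ρ) ≤ c * XG := by
      have h6 : |c * XG| ≤ |c| * ρ := by rw [abs_mul]; exact mul_le_mul_of_nonneg_left hXG hc0
      linarith [(abs_le.mp h6).1]
    have h6 : (τ + XG) / qG * (1 - 1 / 1000 * (|c| * τ)) ≤ (τ + XG) / qG * (1 + c * XG) :=
      mul_le_mul_of_nonneg_left (by linarith) hq0.le
    have h7 : 0 ≤ (τ + XG) / qG * (|c| * τ) := mul_nonneg hq0.le hcτ0
    nlinarith

end

end Pool.Agent.Helper8.CV.R16
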