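import Pool.Agent.Helper8.CV.R16B

set_option autoImplicit false

namespace Pool.Agent.Helper8.CV.R16

open Complex Filter Topology MeasureTheory Set
open Pool.Agent.Helper36.CV

noncomputable section

lemma fac {z e5 e14 y : ℝ} (hz0 : 0 ≤ z) (hz : z ≤ 25 / 49) (h50 : 0 ≤ e5) (h5 : e5 ≤ 1 / 10 ^ 4 * e14)
    (h14 : e14 ≤ 1 / 10 ^ 8) (hy0 : 0 ≤ y) (hy : y ≤ 64 / 100 * e14) :
    (1 + 458 / 10000 * z + 2 * e5) * (1 + e5) * (1 + y) ≤ (1 - y) * (1 + (459 / 10000 * z + 2 * e14)) := by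
  have h1 : (1 + 458 / 10000 * z + 2 * e5) * (1 + e5) ≤ 1 + 458 / 10000 * z + 4 * e5 := by nlinarith
  have h2 : (1 + 458 / 10000 * z + 4 * e5) * (1 + y) ≤ 1 + 458 / 10000 * z + 4 * e5 + 11 / 10 * y := by nlinarith
  have h3 : 1 + (459 / 10000 * z + 2 * e14) - 11 / 10 * y ≤ (1 - y) * (1 + (459 / 10000 * z + 2 * e14)) := by nlinarith
  have h4 := mul_le_mul_of_nonneg_right h1 (show 0 ≤ 1 + y by linarith)
  linarith

lemma slope2 {δ ρ h D T d v XL XR XG τ c qL qR qG z : ℝ} (hδ : 0 < δ) (hδ1 : δ ≤ 1 / 10 ^ 4)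
    (hρ : 0 < ρ) (hD : 7 / 5 * ρ ≤ D) (hh : 6 * D ≤ h) (hτ3 : 1000 * ρ ≤ τ)
    (hT1 : (1 - 1 / 10 ^ 6) * D ≤ T - h) (hT2 : T - h ≤ 101 / 100 * D) (hd0 : 0 < d) (hd : d ≤ ρ)
    (hv : v = ρ / D) (hz : z = v ^ 2) (hTτ : |T - τ| ≤ 1 / 100 * ρ) (hm : |τ + XG - T| ≤ 102 / 100 * δ ^ 50 * ρ)
    (hL : 0 ≤ qL) (hqLR : qL ≤ qR) (hG : 0 < qG)
    (hL2 : qL ^ 2 = (T - d / 2) ^ 2 - h ^ 2) (hR2 : qR ^ 2 = (T + d / 2) ^ 2 - h ^ 2)
    (hG2 : qG ^ 2 = (τ + XG) ^ 2 - h ^ 2)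
    (hdd : d = XR - XL) (hT : T = τ + (XL + XR) / 2) (hXL : |XL| ≤ ρ) (hXR : |XR| ≤ ρ) (hXG : |XG| ≤ ρ)
    (hcτ : |c| * τ ≤ 575 / 1000 * δ ^ 14) :
    qR * (1 + c * XR) - qL * (1 + c * XL) ≤
      ρ * ((τ + XG) / qG * (1 + c * XG) + qG * c) * (1 + (459 / 10000 * z + 2 * δ ^ 14)) := by
  have h50 : δ ^ 50 ≤ 1 / 10 ^ 8 := by
    calc δ ^ 50 ≤ δ ^ 2 := pw hδ hδ1 (by norm_num)
      _ ≤ (1 / 10 ^ 4) ^ 2 := pow_le_pow_left₀ hδ.le hδ1 2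
      _ = 1 / 10 ^ 8 := by norm_num
  have h14 : δ ^ 14 ≤ 1 / 10 ^ 8 := by
    calc δ ^ 14 ≤ δ ^ 2 := pw hδ hδ1 (by norm_num)
      _ ≤ (1 / 10 ^ 4) ^ 2 := pow_le_pow_left₀ hδ.le hδ1 2
      _ = 1 / 10 ^ 8 := by norm_num
  have hR0 : 0 ≤ qR := le_trans hL hqLR
  have s0 := slope0 hδ h50 hρ hD hh hτ3 hT1 hT2 hd0 hd hv hz hTτ hm hL hR0 hG hL2 hR2 hG2
  obtain ⟨s1, s2⟩ := slope1 (c := c) hρ hτ3 hd0 hdd hT hXL hXR hXG hL hqLR hG hL2 hR2 hG2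
  have hD0 : 0 < D := by linarith
  have hv0 : 0 < v := by rw [hv]; positivity
  have hv1 : v ≤ 5 / 7 := by rw [hv, div_le_iff₀ hD0]; linarith
  have hz1 : z ≤ 25 / 49 := by rw [hz]; nlinarith
  have hz0 : 0 ≤ z := by rw [hz]; positivity
  have hτ0 : 0 < τ := by linarith
  have hx0 : 0 ≤ |c| * τ := by positivity
  have e5 : δ ^ 50 ≤ 1 / 10 ^ 4 * δ ^ 14 := pw1 hδ hδ1 (by norm_num)
  have hf := fac hz0 hz1 (by positivity) e5 h14 (y := 11 / 10 * (|c| * τ)) (by positivity) (by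
    have : 0 < δ ^ 14 := by positivity
    linarith)
  have hGb := abs_le.mp hXG
  have hq0 : 0 < (τ + XG) / qG := div_pos (by linarith) hG
  obtain ⟨q', hq'⟩ : ∃ q', q' = (τ + XG) / qG := ⟨_, rfl⟩
  obtain ⟨y, hy⟩ : ∃ y, y = 11 / 10 * (|c| * τ) := ⟨_, rfl⟩
  rw [← hq'] at s0 s2 hq0 ⊢
  rw [← hy] at s1 s2 hf
  have hy0 : 0 ≤ y := by rw [hy]; positivity
  have hE0 : 0 < 1 + (459 / 10000 * z + 2 * δ ^ 14) := by positivity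
  calc qR * (1 + c * XR) - qL * (1 + c * XL) ≤ (qR - qL) * (1 + y) := s1
    _ ≤ (d * q' * ((1 + 458 / 10000 * z + 2 * δ ^ 50) * (1 + δ ^ 50))) * (1 + y) :=
        mul_le_mul_of_nonneg_right s0 (by linarith)
    _ = d * q' * ((1 + 458 / 10000 * z + 2 * δ ^ 50) * (1 + δ ^ 50) * (1 + y)) := by ring
    _ ≤ d * q' * ((1 - y) * (1 + (459 / 10000 * z + 2 * δ ^ 14))) :=
        mul_le_mul_of_nonneg_left hf (by positivity)
    _ ≤ ρ * q' * ((1 - y) * (1 + (459 / 10000 * z + 2 * δ ^ 14))) := by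
        apply mul_le_mul_of_nonneg_right
        · exact mul_le_mul_of_nonneg_right hd hq0.le
        · apply mul_nonneg _ hE0.le
          have : 0 < δ ^ 14 := by positivity
          rw [hy]; linarith
    _ = ρ * (q' * (1 - y)) * (1 + (459 / 10000 * z + 2 * δ ^ 14)) := by ring
    _ ≤ _ := by
        apply mul_le_mul_of_nonneg_right _ hE0.le
        exact mul_le_mul_of_nonneg_left s2 hρ.le

/-- lower bound of kk -/
lemma kklow {δ ρ κ n p kk A P0 WR WL nG J z : ℝ} (hδ : 0 < δ) (h116 : δ ^ 116 ≤ 1 / 10 ^ 8) (h14 : δ ^ 14 ≤ 1 / 10 ^ 8)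
    (hρ : 0 < ρ) (hp : 0 < p) (hP0 : 0 < P0) (hz0 : 0 ≤ z) (hz : z ≤ 25 / 49)
    (h1 : p * (1 - 10 * δ ^ 116) ≤ P0 * (WR - WL)) (h2 : WR - WL ≤ ρ * A * (1 + (459 / 10000 * z + 2 * δ ^ 14)))
    (h3 : P0 * A - 5 / 4 * (κ / Real.pi * nG + δ ^ 116 * J) / ρ - δ ^ 116 * J / ρ ≤ kk) (hJ : J ≤ 4 * p)
    (hκπ : κ / Real.pi ≤ 160 / 100) (hn : n * p = nG) (hn0 : 0 ≤ n) :
    p * (1 - (459 / 10000 * z + 2 * δ ^ 14 + 2 * n + 20 * δ ^ 116)) ≤ kk * ρ := by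
  have h116p : 0 < δ ^ 116 := by positivity
  have h14p : 0 < δ ^ 14 := by positivity
  obtain ⟨E, hE⟩ : ∃ E, E = 459 / 10000 * z + 2 * δ ^ 14 := ⟨_, rfl⟩
  rw [← hE] at h2 ⊢
  have hE0 : 0 < E := by rw [hE]; positivity
  have hE1 : E ≤ 1 / 10 := by rw [hE]; linarith
  -- P0 A rho (1+E) >= p (1 - 10 e)
  have h4 : p * (1 - 10 * δ ^ 116) ≤ P0 * A * ρ * (1 + E) := by
    refine le_trans h1 ?_
    have := mul_le_mul_of_nonneg_left h2 hP0.le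
    linarith
  have h5 : p * (1 - 10 * δ ^ 116) * (1 - E) ≤ P0 * A * ρ := by
    have h6 := mul_le_mul_of_nonneg_right h4 (show 0 ≤ 1 - E by linarith)
    have h7 : 0 ≤ P0 * A * ρ := by
      by_contra hcon
      push Not at hcon
      have h8 : P0 * A * ρ * (1 + E) < 0 := mul_neg_of_neg_of_pos hcon (by linarith)
      have h9 : 0 ≤ p * (1 - 10 * δ ^ 116) := mul_nonneg hp.le (by linarith)
      linarith
    have h8 : 0 ≤ P0 * A * ρ * E ^ 2 := mul_nonneg h7 (sq_nonneg E)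
    have h9 : P0 * A * ρ * (1 + E) * (1 - E) = P0 * A * ρ - P0 * A * ρ * E ^ 2 := by ring
    linarith
  have h6 : P0 * A * ρ - 5 / 4 * (κ / Real.pi * nG + δ ^ 116 * J) - δ ^ 116 * J ≤ kk * ρ := by
    have := mul_le_mul_of_nonneg_right h3 hρ.le
    have e : (P0 * A - 5 / 4 * (κ / Real.pi * nG + δ ^ 116 * J) / ρ - δ ^ 116 * J / ρ) * ρ =
        P0 * A * ρ - 5 / 4 * (κ / Real.pi * nG + δ ^ 116 * J) - δ ^ 116 * J := by field_simp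
    rw [e] at this
    exact this
  have h7 : κ / Real.pi * nG ≤ 160 / 100 * (n * p) := by
    rw [hn]
    exact mul_le_mul_of_nonneg_right hκπ (by rw [← hn]; positivity)
  have h8 : δ ^ 116 * J ≤ δ ^ 116 * (4 * p) := mul_le_mul_of_nonneg_left hJ h116p.le
  have h9 : p * (1 - 10 * δ ^ 116) * (1 - E) = p - p * E - 10 * (δ ^ 116 * p) + 10 * (δ ^ 116 * p) * E := by ring
  have h10 : 0 < δ ^ 116 * p := by positivity
  have h11 : 0 ≤ 10 * (δ ^ 116 * p) * E := by positivity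
  have h12 : p * (1 - (E + 2 * n + 20 * δ ^ 116)) = p - p * E - 2 * (n * p) - 20 * (δ ^ 116 * p) := by ring
  rw [h12]
  linarith

lemma ubound {D ρ u v e : ℝ} (hρ : 0 < ρ) (hD : 7 / 5 * ρ ≤ D) (hv : v = ρ / D) (hu : 0 < u) (he0 : 0 ≤ e)
    (he : e ≤ 1 / 10 ^ 8) (h : u ≤ 4 * (D / ρ + 3 / 5) * (1 + e)) : 61 / 1000 * v ^ 2 ≤ 2 / u ^ 2 := by
  have hD0 : 0 < D := by linarith
  have hv0 : 0 < v := by rw [hv]; positivity
  have h1 : D / ρ * v = 1 := by rw [hv]; field_simp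
  have hv1 : v ≤ 5 / 7 := by rw [hv, div_le_iff₀ hD0]; linarith
  have h2 : u * v ≤ 4 * (D / ρ + 3 / 5) * (1 + e) * v := mul_le_mul_of_nonneg_right h hv0.le
  have h3 : 4 * (D / ρ + 3 / 5) * (1 + e) * v = 4 * (D / ρ * v + 3 / 5 * v) * (1 + e) := by ring
  rw [h3, h1] at h2
  have h4 : u * v ≤ 4 * (1 + 3 / 7) * (1 + 1 / 10 ^ 8) := by
    refine le_trans h2 ?_
    apply mul_le_mul _ (by linarith) (by linarith) (by norm_num)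
    linarith
  have h5 : (u * v) ^ 2 ≤ (4 * (1 + 3 / 7) * (1 + 1 / 10 ^ 8)) ^ 2 := pow_le_pow_left₀ (by positivity) h4 2
  have h6 : (u * v) ^ 2 = u ^ 2 * v ^ 2 := by ring
  rw [h6] at h5
  rw [le_div_iff₀ (by positivity)]
  have h7 : (4 * (1 + 3 / 7) * (1 + 1 / 10 ^ 8) : ℝ) ^ 2 ≤ 3266 / 100 := by norm_num
  linarith

/-- part (5) -/
lemma part5 {δ ε K ρ u v z n p kk mu s : ℝ} (hS : Sm δ ε K) (hρ : 0 < ρ) (hz : z = v ^ 2) (hz1 : z ≤ 25 / 49)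
    (hn0 : 0 ≤ n) (hn1 : n ≤ δ ^ 19) (hu2 : 61 / 1000 * v ^ 2 ≤ 2 / u ^ 2) (hmu : 0 ≤ mu) (hs : 0 ≤ s)
    (hlow : p * (1 - (459 / 10000 * z + 2 * δ ^ 14 + 2 * n + 20 * δ ^ 116)) ≤ kk * ρ)
    (hQ : mu * kk * s ≤ ε / 2 * (1 + 98 * ε)) :
    p * mu * s ≤ ε / 2 * ρ * (1 + 2 / u ^ 2 + δ ^ 10 + 4 * n) := by
  have hδ := hS.p
  have hε0 := hS.e0
  have h10 : 0 < δ ^ 10 := by positivity
  have e14 : δ ^ 14 ≤ 1 / 10 ^ 4 * δ ^ 10 := pw1 hδ hS.d1 (by norm_num)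
  have e116 : δ ^ 116 ≤ 1 / 10 ^ 4 * δ ^ 10 := pw1 hδ hS.d1 (by norm_num)
  have e100 : 98 * ε ≤ 1 / 10 * δ ^ 10 := by
    have h1 : ε ≤ 1 / 10 ^ 4 * δ ^ 10 := by rw [hS.e]; exact pw1 hδ hS.d1 (by norm_num)
    linarith
  have h10' := hS.p8 (n := 10) (by norm_num)
  have h19' := hS.p8 (n := 19) (by norm_num)
  have hz0 : 0 ≤ z := by rw [hz]; positivity
  obtain ⟨zt, hzt⟩ : ∃ zt, zt = 459 / 10000 * z + 2 * δ ^ 14 + 2 * n + 20 * δ ^ 116 := ⟨_, rfl⟩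
  obtain ⟨F, hF⟩ : ∃ F, F = 2 / u ^ 2 + δ ^ 10 + 4 * n := ⟨_, rfl⟩
  have hF1 : 61 / 1000 * z + δ ^ 10 + 4 * n ≤ F := by rw [hF, hz]; linarith
  have hF0 : 0 < F := by
    have : 0 ≤ 61 / 1000 * z := by positivity
    linarith
  rw [← hzt] at hlow
  have hzt1 : zt ≤ 24 / 1000 := by rw [hzt]; linarith
  have hzt0 : 0 ≤ zt := by rw [hzt]; positivity
  have hcomp : zt + 98 * ε ≤ F * (976 / 1000) := by
    rw [hzt]; linarith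
  have hkey : 1 + 98 * ε ≤ (1 - zt) * (1 + F) := by nlinarith
  have h1 : p * mu * s * (1 - zt) ≤ ρ * (mu * kk * s) := by
    have := mul_le_mul_of_nonneg_right hlow (show 0 ≤ mu * s by positivity)
    linarith
  have h2 : p * mu * s * (1 - zt) ≤ (ε / 2 * ρ * (1 + F)) * (1 - zt) := by
    have h3 : ρ * (mu * kk * s) ≤ ρ * (ε / 2 * (1 + 98 * ε)) := mul_le_mul_of_nonneg_left hQ hρ.le
    have h4 : ρ * (ε / 2) * (1 + 98 * ε) ≤ ρ * (ε / 2) * ((1 - zt) * (1 + F)) :=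
      mul_le_mul_of_nonneg_left hkey (by positivity)
    linarith
  have h3 := le_of_mul_le_mul_right h2 (by linarith : (0 : ℝ) < 1 - zt)
  refine le_trans h3 (le_of_eq ?_)
  rw [hF]; ring

end

end Pool.Agent.Helper8.CV.R16
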